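import Mathlib
import Pool.Agent.H69.M6b.Cmp2

set_option autoImplicit false
set_option linter.unusedSectionVars false
set_option linter.unusedVariables false
open Finset

/-! # Comparison of two rows in a window

As Pool.Agent.H69.M6b.Cmp2 (helper69), but the tiles are those of a row only between the columns `lo`
and `hi`: the wires at the other tiles are arbitrary. -/

namespace Pool.Agent.H39.WB

open Pool.Agent.H81.G1 Pool.Agent.H80.Sweep Pool.Agent.H69.M6b

variable {N : ℕ}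

/-- row wires between the columns `lo` and `hi` -/
def RowIn (X : Net (Fin N)) (lo hi : ℕ) : Prop :=
  ∀ c c' : Fin N, (c' : ℕ) = c + 1 → lo ≤ (c : ℕ) → (c' : ℕ) ≤ hi → X.π (c, .E) = (c', .W)

section
variable {X : Net (Fin N)} {P : Finset (Fin N)} {U : Fin N → Fin N} (hP : Arcs X P U)

include hP

/-- the row between two consecutive columns outside `P`, to the right -/
lemma arcs_east {q q' : Fin N} (hrow : ∀ z z' : Fin N, q ≤ z → z' ≤ q' → (z' : ℕ) = z + 1 →
      X.π (z, .E) = (z', .W)) (hqq : q < q') (hq : q ∉ P) (hq' : q' ∉ P)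
    (hb : ∀ z, q < z → z < q' → z ∈ P) :
    En X (can U) Pᶜ (X.π (q, .E)) (q', .W) (∑ n ∈ Ico (q : ℕ) q', TE X n - X.t (q, .E)) := by
  have hqq' : (q : ℕ) < (q' : ℕ) := hqq
  have hN := q'.2
  set e : Fin N := ⟨(q : ℕ) + 1, by omega⟩ with he
  have hev : (e : ℕ) = q + 1 := rfl
  have hqe : q < e := by rw [Fin.lt_def]; omega
  have heq : e ≤ q' := by rw [Fin.le_def]; omega
  obtain ⟨k, k1, k2, k3⟩ := hP.run (s := can U) (y := q') _ e heq rfl (by
    intro z h1 h2
    have h3 : q < z := lt_of_lt_of_le hqe h1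
    obtain ⟨g2, g3⟩ := hP.gap hq hq' hb h3 h2
    exact ⟨hb z h3 h2, by rw [Fin.le_def]; rw [Fin.lt_def] at g2; omega, g3, rfl⟩)
    (fun z z' h1 h2 h3 => hrow z z' (hqe.le.trans h1) h2 h3)
  rw [hrow q e le_rfl heq hev]
  have h1 : En X (can U) Pᶜ ((X.step (can U))^[k] (e, .W)) (q', .W) 0 := by
    rw [k1]; exact En.done (mem_compl.2 hq')
  have h2 := En.iter (fun i hi h => (mem_compl.1 h) (k2 i hi)) h1
  convert h2 using 1
  rw [k3, ← TE_eq, Finset.sum_eq_sum_Ico_succ_bot hqq', ← hev]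
  ring

/-- the row between two consecutive columns outside `P`, to the left -/
lemma arcs_west (hinv : ∀ p, X.π (X.π p) = p) (htn : ∀ p, X.t (X.π p) = -X.t p)
    {q q' : Fin N} (hrow : ∀ z z' : Fin N, q ≤ z → z' ≤ q' → (z' : ℕ) = z + 1 →
      X.π (z, .E) = (z', .W)) (hqq : q < q') (hq : q ∉ P) (hq' : q' ∉ P)
    (hb : ∀ z, q < z → z < q' → z ∈ P) :
    En X (can U) Pᶜ (X.π (q', .W)) (q, .E) (-∑ n ∈ Ico (q : ℕ) q', TE X n - X.t (q', .W)) := by
  have hqq' : (q : ℕ) < (q' : ℕ) := hqq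
  have hN := q'.2
  set e : Fin N := ⟨(q' : ℕ) - 1, by omega⟩ with he
  have hev : (q' : ℕ) = e + 1 := by
    have : (e : ℕ) = (q' : ℕ) - 1 := rfl
    omega
  have hqe : q ≤ e := by rw [Fin.le_def]; omega
  have heq : e < q' := by rw [Fin.lt_def]; omega
  obtain ⟨k, k1, k2, k3⟩ := hP.runB hinv htn (s := can U) (x := q) _ e hqe rfl (by
    intro z h1 h2
    have h3 : z < q' := lt_of_le_of_lt h2 heq
    obtain ⟨g2, g3⟩ := hP.gap hq hq' hb h1 h3
    exact ⟨hb z h1 h3, g2, by rw [Fin.le_def]; rw [Fin.lt_def] at g3; omega, rfl⟩)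
    (fun z z' h1 h2 h3 => hrow z z' h1 (h2.trans heq.le) h3)
  have hr := hrow e q' hqe le_rfl hev
  rw [← hr, hinv]
  have h1 : En X (can U) Pᶜ ((X.step (can U))^[k] (e, .E)) (q, .E) 0 := by
    rw [k1]; exact En.done (mem_compl.2 hq)
  have h2 := En.iter (fun i hi h => (mem_compl.1 h) (k2 i hi)) h1
  convert h2 using 1
  rw [k3, htn, ← TE_eq, hev, Finset.sum_Ico_succ_top (show (q : ℕ) ≤ (e : ℕ) from hqe)]
  ring

end

/-- Two rows whose columns outside the inner arcs correspond under `ρ`. -/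
structure Cmp3 (lo hi : ℕ) (X X' : Net (Fin N)) (P P' : Finset (Fin N)) (U U' : Fin N → Fin N)
    (ρ : Fin N ≃ Fin N) (r r' : ℤ) : Prop where
  lh : lo < hi
  hN : hi < N
  arcs : Arcs X P U
  arcs' : Arcs X' P' U'
  row : RowIn X lo hi
  row' : RowIn X' lo hi
  out : ∀ c, c ∈ P ↔ ρ c ∈ P'
  win : ∀ c ∈ P, lo < (c : ℕ) ∧ (c : ℕ) < hi
  fix : ∀ c : Fin N, (c : ℕ) ≤ lo ∨ hi ≤ (c : ℕ) → ρ c = c
  mono : ∀ c d : Fin N, lo ≤ (c : ℕ) → (d : ℕ) ≤ hi → c ∉ P → d ∉ P → c < d → ρ c < ρ d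
  first : ∀ c : Fin N, (c : ℕ) ≤ lo ∨ hi < (c : ℕ) → ∃ v t t', GlE X P U (X.π (c, .W)) v t ∧
    GlE X' P' U' (X'.π (c, .W)) (relE ρ v) t' ∧ X.t (c, .W) + t = X'.t (c, .W) + t'
  last : ∀ c : Fin N, (c : ℕ) < lo ∨ hi ≤ (c : ℕ) → ∃ v t t', GlE X P U (X.π (c, .E)) v t ∧
    GlE X' P' U' (X'.π (c, .E)) (relE ρ v) t' ∧ X.t (c, .E) + t = X'.t (c, .E) + t'
  te : ∀ c d : Fin N, lo ≤ (c : ℕ) → (d : ℕ) ≤ hi → c ∉ P → d ∉ P → c < d →
    ∑ n ∈ Ico (c : ℕ) d, TE X n = ∑ n ∈ Ico (ρ c : ℕ) (ρ d), TE X' n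
  vert : ∀ c, c ∉ P → ∀ d, d = .N ∨ d = .S → ∃ v t t', GlE X P U (X.π (c, d)) v t ∧
    GlE X' P' U' (X'.π (ρ c, d)) (relE ρ v) t' ∧ X.t (c, d) + t = X'.t (ρ c, d) + t'
  root : (∃ v t t', GlE X P U X.x0 v t ∧ GlE X' P' U' X'.x0 (relE ρ v) t' ∧ r + t = r' + t') ∨
    ((∀ v t, ¬ En X (can U) Pᶜ X.x0 v t) ∧ ∀ v t, ¬ En X' (can U') P'ᶜ X'.x0 v t)
  y0 : relE ρ X.y0 = X'.y0
  y0P : X.y0.1 ∉ P

/-- **Independence of the inner configuration.** -/
theorem Cmp3.eq {X X' : Net (Fin N)} {P P' : Finset (Fin N)} {U U' : Fin N → Fin N}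
    {ρ : Fin N ≃ Fin N} {r r' : ℤ} {lo hi : ℕ} (h : Cmp3 lo hi X X' P P' U U' ρ r r') {A B : ℂ} (hAB : Over A B)
    (hinv : ∀ p, X.π (X.π p) = p) (htn : ∀ p, X.t (X.π p) = -X.t p)
    (hinv' : ∀ p, X'.π (X'.π p) = p) (htn' : ∀ p, X'.t (X'.π p) = -X'.t p)
    {a b a' b' : Fin N → ℂ} (hab : ∀ c ∈ P, a c = A ∧ b c = B) (hab' : ∀ c ∈ P', a' c = A ∧ b' c = B)
    (hQ : ∀ c, c ∉ P → a c = a' (ρ c) ∧ b c = b' (ρ c)) (φ : ℤ → ℂ) :
    ZF X (fun k => φ (k + r)) a b = ZF X' (fun k => φ (k + r')) a' b' := by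
  have nestP : ∀ {Y : Net (Fin N)} {R : Finset (Fin N)} {V : Fin N → Fin N}, Arcs Y R V →
      ∀ c ∈ R, ∀ z, c < z → z < V c → z ∈ R := fun hR c hc z h1 h2 => (hR.nest c hc z h1 h2).1
  rw [freeze_all h.arcs hAB hinv htn _ a b _ P rfl Subset.rfl h.arcs.mem (nestP h.arcs) hab,
    freeze_all h.arcs' hAB hinv' htn' _ a' b' _ P' rfl Subset.rfl h.arcs'.mem (nestP h.arcs') hab']
  have frz : ∀ {Y : Net (Fin N)} {R : Finset (Fin N)} {V : Fin N → Fin N} (c d : Fin N → ℂ),
      Arcs Y R V → Frz (can V) Rᶜ (fa V R c) (fb V R d) := by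
    intro Y R V c d hR
    constructor
    · intro i hi
      have hiR : i ∈ R := by by_contra hh; exact hi (mem_compl.2 hh)
      unfold fa can
      rw [if_pos hiR]
      rcases lt_or_gt_of_ne (hR.ne i hiR) with h1 | h1
      · rw [if_neg (not_lt.2 h1.le), decide_eq_true h1]; rfl
      · rw [if_pos h1, decide_eq_false (not_lt.2 h1.le)]; rfl
    · intro i hi
      have hiR : i ∈ R := by by_contra hh; exact hi (mem_compl.2 hh)
      unfold fb can
      rw [if_pos hiR]
      rcases lt_or_gt_of_ne (hR.ne i hiR) with h1 | h1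
      · rw [if_neg (not_lt.2 h1.le), decide_eq_true h1]; rfl
      · rw [if_pos h1, decide_eq_false (not_lt.2 h1.le)]; rfl
  have y0P' : X'.y0.1 ∉ P' := by
    rw [← h.y0]
    exact fun hh => h.y0P ((h.out _).2 hh)
  rcases h.root with ⟨v0, t0, t0', g0, g0', hrt⟩ | ⟨n0, n0'⟩
  swap
  · rw [ZF_root0 (frz a b h.arcs) (mem_compl.2 h.y0P) n0,
      ZF_root0 (frz a' b' h.arcs') (mem_compl.2 y0P') n0']
  rw [ZF_root hinv (frz a b h.arcs) (mem_compl.2 h.y0P) (h.arcs.enE hinv htn g0),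
    ZF_root hinv' (frz a' b' h.arcs') (mem_compl.2 y0P') (h.arcs'.enE hinv' htn' g0')]
  have ephi : (fun m => (fun k => φ (k + r')) (m + t0')) = (fun m => (fun k => φ (k + r)) (m + t0)) := by
    funext m
    simp only
    congr 1
    linarith
  rw [ephi]
  have key : ∀ u : Fin N × Dir, u.1 ∈ Pᶜ → ∃ v t t', En X (can U) Pᶜ (X.π u) v t ∧
      En X' (can U') P'ᶜ (X'.π (relE ρ u)) (relE ρ v) t' ∧ X.t u + t = X'.t (relE ρ u) + t' := by
    rintro ⟨c, d⟩ hc
    have hcP : c ∉ P := mem_compl.1 hc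
    have hcP' : ρ c ∉ P' := fun hh => hcP ((h.out c).2 hh)
    have hre : ∀ (q : Fin N) (e : Dir), relE ρ (q, e) = (ρ q, e) := fun q e => rfl
    -- neighbours outside `P`
    have nxt : (c : ℕ) < hi → ∃ q : Fin N, c < q ∧ (q : ℕ) ≤ hi ∧ q ∉ P ∧
        ∀ z, c < z → z < q → z ∈ P := by
      intro h1
      have hm : (⟨hi, h.hN⟩ : Fin N) ∈ univ.filter (fun z : Fin N => c < z ∧ z ∉ P) :=
        mem_filter.2 ⟨mem_univ _, by rw [Fin.lt_def]; exact h1, fun hh =>
          absurd (h.win _ hh).2 (lt_irrefl _)⟩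
      have hne : (univ.filter (fun z : Fin N => c < z ∧ z ∉ P)).Nonempty := ⟨_, hm⟩
      refine ⟨_, (mem_filter.1 (Finset.min'_mem _ hne)).2.1, Finset.min'_le _ _ hm,
        (mem_filter.1 (Finset.min'_mem _ hne)).2.2, ?_⟩
      intro z h2 h3
      by_contra h4
      have h5 := Finset.min'_le (univ.filter (fun z : Fin N => c < z ∧ z ∉ P)) z
        (mem_filter.2 ⟨mem_univ _, h2, h4⟩)
      exact absurd h3 (not_lt.2 h5)
    have prv : lo < (c : ℕ) → ∃ q : Fin N, q < c ∧ lo ≤ (q : ℕ) ∧ q ∉ P ∧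
        ∀ z, q < z → z < c → z ∈ P := by
      intro h1
      have hm : (⟨lo, h.lh.trans h.hN⟩ : Fin N) ∈ univ.filter (fun z : Fin N => z < c ∧ z ∉ P) :=
        mem_filter.2 ⟨mem_univ _, by rw [Fin.lt_def]; exact h1, fun hh =>
          absurd (h.win _ hh).1 (lt_irrefl _)⟩
      have hne : (univ.filter (fun z : Fin N => z < c ∧ z ∉ P)).Nonempty := ⟨_, hm⟩
      refine ⟨_, (mem_filter.1 (Finset.max'_mem _ hne)).2.1, Finset.le_max' _ _ hm,
        (mem_filter.1 (Finset.max'_mem _ hne)).2.2, ?_⟩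
      intro z h2 h3
      by_contra h4
      have h5 := Finset.le_max' (univ.filter (fun z : Fin N => z < c ∧ z ∉ P)) z
        (mem_filter.2 ⟨mem_univ _, h3, h4⟩)
      exact absurd h2 (not_lt.2 h5)
    -- the images of neighbours are neighbours
    have rge : ∀ q : Fin N, lo ≤ (q : ℕ) → (q : ℕ) ≤ hi → lo ≤ (ρ q : ℕ) ∧ (ρ q : ℕ) ≤ hi := by
      intro q h1 h2
      constructor
      · by_contra h3
        rw [not_le] at h3
        have h4 := ρ.injective (h.fix _ (Or.inl h3.le))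
        rw [h4] at h3
        omega
      · by_contra h3
        rw [not_le] at h3
        have h4 := ρ.injective (h.fix _ (Or.inr h3.le))
        rw [h4] at h3
        omega
    have img : ∀ q q' : Fin N, lo ≤ (q : ℕ) → (q' : ℕ) ≤ hi → q ∉ P → q' ∉ P → q < q' →
        (∀ z, q < z → z < q' → z ∈ P) → ∀ z, ρ q < z → z < ρ q' → z ∈ P' := by
      intro q q' hql hqh hq hq' hqq hb z h1 h2
      have hqq' : (q : ℕ) < (q' : ℕ) := hqq
      have r1 := (rge q hql (by omega)).1
      have r2 := (rge q' (by omega) hqh).2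
      have h1' : (ρ q : ℕ) < (z : ℕ) := h1
      have h2' : (z : ℕ) < (ρ q' : ℕ) := h2
      have r3 : lo ≤ (ρ.symm z : ℕ) := by
        by_contra h3
        rw [not_le] at h3
        have h4 := h.fix _ (Or.inl h3.le)
        rw [Equiv.apply_symm_apply] at h4
        rw [← h4] at h3
        omega
      have r4 : (ρ.symm z : ℕ) ≤ hi := by
        by_contra h3
        rw [not_le] at h3
        have h4 := h.fix _ (Or.inr h3.le)
        rw [Equiv.apply_symm_apply] at h4
        rw [← h4] at h3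
        omega
      by_contra h3
      have h4 : ρ.symm z ∉ P := fun hh => h3 (by
        have := (h.out _).1 hh
        rwa [Equiv.apply_symm_apply] at this)
      have h5 : q < ρ.symm z := by
        rcases lt_trichotomy q (ρ.symm z) with g | g | g
        · exact g
        · rw [g, Equiv.apply_symm_apply] at h1; exact absurd h1 (lt_irrefl _)
        · have := h.mono _ _ r3 (by omega) h4 hq g
          rw [Equiv.apply_symm_apply] at this
          exact absurd (this.trans h1) (lt_irrefl _)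
      have h6 : ρ.symm z < q' := by
        rcases lt_trichotomy (ρ.symm z) q' with g | g | g
        · exact g
        · rw [← g, Equiv.apply_symm_apply] at h2; exact absurd h2 (lt_irrefl _)
        · have := h.mono _ _ (by omega) r4 hq' h4 g
          rw [Equiv.apply_symm_apply] at this
          exact absurd (this.trans h2) (lt_irrefl _)
      exact h4 (hb _ h5 h6)
    cases d
    · -- W
      by_cases h0 : (c : ℕ) ≤ lo ∨ hi < (c : ℕ)
      · obtain ⟨v, t, t', h2, h3, h4⟩ := h.first c h0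
        have h1 : ρ c = c := h.fix c (h0.imp id le_of_lt)
        refine ⟨v, t, t', h.arcs.enE hinv htn h2, ?_, ?_⟩
        · rw [hre, h1]; exact h.arcs'.enE hinv' htn' h3
        · rw [hre, h1, h4]
      · rw [not_or, not_le, not_lt] at h0
        obtain ⟨h0, h0'⟩ := h0
        obtain ⟨q, hqc, hql, hq, hb⟩ := prv h0
        have hq' : ρ q ∉ P' := fun hh => hq ((h.out q).2 hh)
        have hm := h.mono q c hql h0' hq hcP hqc
        have hqc' : (q : ℕ) < (c : ℕ) := hqc
        have r1 := (rge q hql (by omega)).1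
        have r2 := (rge c (by omega) h0').2
        refine ⟨(q, .E), _, _, arcs_west h.arcs hinv htn (fun z z' g1 g2 g3 => h.row z z' g3
          (hql.trans g1) (le_trans g2 h0')) hqc hq hcP hb,
          arcs_west h.arcs' hinv' htn' (fun z z' g1 g2 g3 => h.row' z z' g3
          (r1.trans g1) (le_trans g2 r2)) hm hq' hcP' (img q c hql h0' hq hcP hqc hb), ?_⟩
        rw [h.te q c hql h0' hq hcP hqc]
        rw [hre]
        ring
    · -- N
      obtain ⟨v, t, t', h1, h2, h3⟩ := h.vert c hcP .N (Or.inl rfl)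
      exact ⟨v, t, t', h.arcs.enE hinv htn h1, h.arcs'.enE hinv' htn' h2, h3⟩
    · -- E
      by_cases h0 : (c : ℕ) < lo ∨ hi ≤ (c : ℕ)
      swap
      · rw [not_or, not_lt, not_le] at h0
        obtain ⟨h0, h0'⟩ := h0
        obtain ⟨q, hqc, hql, hq, hb⟩ := nxt h0'
        have hq' : ρ q ∉ P' := fun hh => hq ((h.out q).2 hh)
        have hm := h.mono c q h0 hql hcP hq hqc
        have hqc' : (c : ℕ) < (q : ℕ) := hqc
        have r1 := (rge c h0 (by omega)).1
        have r2 := (rge q (by omega) hql).2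
        refine ⟨(q, .W), _, _, arcs_east h.arcs (fun z z' g1 g2 g3 => h.row z z' g3
          (h0.trans g1) (le_trans g2 hql)) hqc hcP hq hb,
          arcs_east h.arcs' (fun z z' g1 g2 g3 => h.row' z z' g3
          (r1.trans g1) (le_trans g2 r2)) hm hcP' hq' (img c q h0 hql hcP hq hqc hb), ?_⟩
        rw [h.te c q h0 hql hcP hq hqc]
        rw [hre]
        ring
      · obtain ⟨v, t, t', h2, h3, h4⟩ := h.last c h0
        have h1 : ρ c = c := h.fix c (h0.imp le_of_lt id)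
        refine ⟨v, t, t', h.arcs.enE hinv htn h2, ?_, ?_⟩
        · rw [hre, h1]; exact h.arcs'.enE hinv' htn' h3
        · rw [hre, h1, h4]
    · -- S
      obtain ⟨v, t, t', h1, h2, h3⟩ := h.vert c hcP .S (Or.inr rfl)
      exact ⟨v, t, t', h.arcs.enE hinv htn h1, h.arcs'.enE hinv' htn' h2, h3⟩
  refine compare_rel (X := wr X v0) (X' := wr X' (relE ρ v0)) (s0 := can U) (s0' := can U')
    (Q := Pᶜ) (Q' := P'ᶜ) ρ ?_ ?_ rfl h.y0
    (mem_compl.2 g0.notMem) (mem_compl.2 h.y0P) (frz a b h.arcs) (frz a' b' h.arcs') ?_ _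
  · intro i
    rw [mem_compl, mem_compl, h.out]
  · intro u hu
    obtain ⟨v, t, t', h1, h2, h3⟩ := key u hu
    exact ⟨v, t, t', h1.wr _, h2.wr _, h3⟩
  · intro i hi
    have hiP : i ∉ P := mem_compl.1 hi
    have hiP' : ρ i ∉ P' := fun hh => hiP ((h.out i).2 hh)
    unfold fa fb
    rw [if_neg hiP, if_neg hiP', if_neg hiP, if_neg hiP']
    exact hQ i hiP

/-! ### Existence of the ends -/

section
variable {X : Net (Fin N)} {P : Finset (Fin N)} {U : Fin N → Fin N}

/-- a wire from outside (or from below a foot) meets a foot only from below -/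
lemma Arcs_fromS (hP : Arcs X P U) (hinv : ∀ p, X.π (X.π p) = p) {lo hi : ℕ} (hrow : RowIn X lo hi)
    (hhN : hi < N) (hint : ∀ c ∈ P, lo < (c : ℕ) ∧ (c : ℕ) < hi) {c : Fin N} {d : Dir}
    (hc : c ∉ P ∨ d = .S) (hE : d = .E → ¬ (lo ≤ (c : ℕ) ∧ (c : ℕ) < hi))
    (hW : d = .W → ¬ (lo < (c : ℕ) ∧ (c : ℕ) ≤ hi))
    (hc' : (X.π (c, d)).1 ∈ P) : (X.π (c, d)).2 = .S := by
  obtain ⟨h1, h2⟩ := hint _ hc'
  have hb := hinv (c, d)
  set c' := (X.π (c, d)).1 with hc0
  rcases hd : (X.π (c, d)).2 with _ | _ | _ | _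
  · exfalso
    have e : X.π (c, d) = (c', .W) := Prod.ext rfl hd
    rw [e] at hb
    obtain ⟨q, hq⟩ : ∃ q : Fin N, (c' : ℕ) = q + 1 := ⟨⟨(c' : ℕ) - 1, by omega⟩, by simp only; omega⟩
    have h3 := hrow q c' hq (by omega) (by omega)
    rw [← h3, hinv] at hb
    have h4 := hE (congrArg Prod.snd hb).symm
    have h5 : q = c := congrArg Prod.fst hb
    rw [← h5] at h4
    omega
  · exfalso
    have e : X.π (c, d) = (c', .N) := Prod.ext rfl hd
    rw [e, hP.arc c' hc'] at hb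
    have h3 : U c' = c := congrArg Prod.fst hb
    have h4 : Dir.N = d := congrArg Prod.snd hb
    rcases hc with h5 | h5
    · exact h5 (h3 ▸ hP.mem c' hc')
    · rw [← h4] at h5; exact absurd h5 (by decide)
  · exfalso
    have e : X.π (c, d) = (c', .E) := Prod.ext rfl hd
    rw [e] at hb
    obtain ⟨q, hq⟩ : ∃ q : Fin N, (q : ℕ) = c' + 1 := ⟨⟨(c' : ℕ) + 1, by omega⟩, rfl⟩
    rw [hrow c' q hq (by omega) (by omega)] at hb
    have h4 := hW (congrArg Prod.snd hb).symm
    have h5 : q = c := congrArg Prod.fst hb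
    rw [← h5] at h4
    omega
  · rfl

/-- an end of the strand gives an end in terms of straight passages -/
lemma Arcs_enG (hP : Arcs X P U) (hinv : ∀ p, X.π (X.π p) = p) (htn : ∀ p, X.t (X.π p) = -X.t p)
    {lo hi : ℕ} (hrow : RowIn X lo hi) (hhN : hi < N)
    (hint : ∀ c ∈ P, lo < (c : ℕ) ∧ (c : ℕ) < hi) {n : ℕ} :
    ∀ {x v : Fin N × Dir}, (X.step (can U))^[n] x = v → v.1 ∉ P →
      (∀ i < n, ((X.step (can U))^[i] x).1 ∈ P) → (x.1 ∈ P → x.2 = .S) →
      ∃ v' t', GlE X P U x v' t' := by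
  induction n using Nat.strong_induction_on with
  | _ n ih =>
    intro x v h1 h2 h3 h4
    by_cases hx : x.1 ∈ P
    · have e : x = (x.1, .S) := Prod.ext rfl (h4 hx)
      obtain ⟨k, k0, k1, k2⟩ := hP.under_it hinv htn hx
      rw [← e] at k1 k2
      have hkn : k ≤ n := by
        by_contra hcon
        apply h2
        rw [← h1]
        exact k2 n (by omega)
      obtain ⟨m, rfl⟩ : ∃ m, n = m + k := ⟨n - k, by omega⟩
      have hit : ∀ i, (X.step (can U))^[i + k] x = (X.step (can U))^[i] (X.π (U x.1, .S)) := by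
        intro i
        rw [Function.iterate_add_apply, k1]
      obtain ⟨v', t', hg⟩ := ih m (by omega) (x := X.π (U x.1, .S)) (v := v) (by rw [← hit, h1]) h2
        (fun i hi => by rw [← hit]; exact h3 _ (by omega))
        (fun hh => Arcs_fromS hP hinv hrow hhN hint (Or.inr rfl) (fun h => absurd h (by decide))
          (fun h => absurd h (by decide)) hh)
      rw [e]
      exact ⟨v', _, GlE.pass hx hg⟩
    · exact ⟨x, 0, GlE.done hx⟩

/-- **The strands end outside the feet.** -/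
lemma Arcs_exE (hP : Arcs X P U) (hinv : ∀ p, X.π (X.π p) = p) {lo hi : ℕ} (hrow : RowIn X lo hi)
    (hhN : hi < N) (hint : ∀ c ∈ P, lo < (c : ℕ) ∧ (c : ℕ) < hi) {c : Fin N} {d : Dir} (hc : c ∉ P)
    (hE : d = .E → ¬ (lo ≤ (c : ℕ) ∧ (c : ℕ) < hi))
    (hW : d = .W → ¬ (lo < (c : ℕ) ∧ (c : ℕ) ≤ hi)) :
    ∃ v t, GlE X P U (X.π (c, d)) v t := by
  classical
  set F : Fin N × Dir → Fin N × Dir := fun x => X.π (sgm P U x) with hF
  have hFi : Function.Injective F := by
    intro a b hab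
    have h1 : sgm P U a = sgm P U b := by rw [← hinv (sgm P U a), ← hinv (sgm P U b)]; exact congrArg X.π hab
    rw [← hP.sgm_sgm a, h1, hP.sgm_sgm]
  -- returns
  obtain ⟨m, hm, hper⟩ := hFi.mem_periodicPts (c, d)
  -- first time outside `P`
  have hex : ∃ k, ((F^[k + 1]) (c, d)).1 ∉ P := by
    refine ⟨m - 1, ?_⟩
    rw [Nat.sub_add_cancel hm, hper.eq]
    exact hc
  set k := Nat.find hex with hk
  have hk1 : ((F^[k + 1]) (c, d)).1 ∉ P := Nat.find_spec hex
  have hk2 : ∀ i < k, ((F^[i + 1]) (c, d)).1 ∈ P := fun i hi => by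
    have := Nat.find_min hex hi
    exact not_not.1 this
  have hF0 : F (c, d) = X.π (c, d) := by
    rw [hF]; simp only; unfold sgm; rw [if_neg (fun hh => hc hh.1)]
  -- all positions before are `S`
  have hS : ∀ i < k, ((F^[i + 1]) (c, d)).2 = .S := by
    intro i
    induction i with
    | zero =>
      intro hi
      have h1 := hk2 0 hi
      rw [Function.iterate_one, hF0] at h1 ⊢
      exact Arcs_fromS hP hinv hrow hhN hint (Or.inl hc) hE hW h1
    | succ i ih =>
      intro hi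
      have h1 := hk2 (i + 1) hi
      have h2 := hk2 i (by omega)
      have h3 := ih (by omega)
      rw [Function.iterate_succ_apply'] at h1 ⊢
      set x := F^[i + 1] (c, d) with hx
      have h4 : F x = X.π (U x.1, .S) := by
        rw [hF]; simp only; unfold sgm; rw [if_pos ⟨h2, h3⟩]
      rw [h4] at h1 ⊢
      exact Arcs_fromS hP hinv hrow hhN hint (Or.inr rfl) (fun h => absurd h (by decide))
        (fun h => absurd h (by decide)) h1
  -- backwards
  have key : ∀ j ≤ k, ∃ v t, GlE X P U ((F^[k - j + 1]) (c, d)) v t := by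
    intro j
    induction j with
    | zero => intro _; exact ⟨_, 0, GlE.done hk1⟩
    | succ j ih =>
      intro hj
      obtain ⟨v, t, ht⟩ := ih (by omega)
      have e : k - j + 1 = (k - (j + 1) + 1) + 1 := by omega
      rw [e, Function.iterate_succ_apply'] at ht
      set x := F^[k - (j + 1) + 1] (c, d) with hx
      have h2 : x.1 ∈ P := hk2 (k - (j + 1)) (by omega)
      have h3 : x.2 = .S := hS (k - (j + 1)) (by omega)
      have h4 : F x = X.π (U x.1, .S) := by
        rw [hF]; simp only; unfold sgm; rw [if_pos ⟨h2, h3⟩]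
      rw [h4] at ht
      have e2 : x = (x.1, .S) := Prod.ext rfl h3
      rw [e2]
      exact ⟨v, _, GlE.pass h2 ht⟩
  obtain ⟨v, t, ht⟩ := key k le_rfl
  rw [Nat.sub_self, zero_add, Function.iterate_one, hF0] at ht
  exact ⟨v, t, ht⟩

end

end Pool.Agent.H39.WB
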