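import Mathlib
import Pool.Agent.H69.M6b.Box

set_option autoImplicit false
set_option linter.unusedSectionVars false
open Finset

/-! # A rectangle of tiles around a straight piece of a row -/

namespace Pool.Agent.H39.WB

open Pool.Agent.H69.M6b Pool.Agent.H69.M6b.World

open Pool.Agent.H81.G1

variable {κ : Type*}

/-! ### Ports -/

/-! ### The box -/

variable {N : ℕ}

/-- As Pool.Agent.H69.M6b.World (helper69), but the tiles `τ c` are the tiles of a row only for the columns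
between `c0 - 1` and `c0 + w`; the other tiles are arbitrary. -/
structure World (Y : Net κ) (τ : Fin N → κ) (c0 w h : ℕ) (cl : ℕ → Fin N) (T : ℕ → ℕ → κ) :
    Prop where
  inv : ∀ x, Y.π (Y.π x) = x
  w0 : 0 < w
  h0 : 0 < h
  c1 : 0 < c0
  c2 : c0 + w < N
  clv : ∀ i < w, (cl i : ℕ) = c0 + i
  τinj : Function.Injective τ
  Tinj : ∀ i < w, ∀ j < 2 * h, ∀ i' < w, ∀ j' < 2 * h, T i j = T i' j' → i = i' ∧ j = j'
  Trow : ∀ i < w, ∀ j < 2 * h, ∀ c, T i j ≠ τ c
  wE : ∀ i j, i + 1 < w → j < 2 * h → Y.π (T i j, .E) = (T (i + 1) j, .W)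
  wN : ∀ i j, i < w → j + 1 < 2 * h → j + 1 ≠ h → Y.π (T i j, .N) = (T i (j + 1), .S)
  up : ∀ i < w, Y.π (T i h, .S) = (τ (cl i), .N)
  dn : ∀ i < w, Y.π (T i (h - 1), .N) = (τ (cl i), .S)
  tT : ∀ i < w, ∀ j < 2 * h, ∀ d, Y.t (T i j, d) = 0
  tr : ∀ i < w, ∀ d, Y.t (τ (cl i), d) = 0
  row : ∀ c c' : Fin N, (c' : ℕ) = c + 1 → c0 - 1 ≤ (c : ℕ) → (c' : ℕ) ≤ c0 + w →
    Y.π (τ c, .E) = (τ c', .W)
  oo : ∀ k < 2 * (2 * h + w), (∀ i < w, ∀ j < 2 * h, (Y.π (se T w (2 * h) k)).1 ≠ T i j) ∧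
    ∀ i < w, (Y.π (se T w (2 * h) k)).1 ≠ τ (cl i)

namespace World

variable {Y : Net κ} {τ : Fin N → κ} {c0 w h : ℕ} {cl : ℕ → Fin N} {T : ℕ → ℕ → κ}
  (V : World Y τ c0 w h cl T)

include V

lemma clinj {i i' : ℕ} (hi : i < w) (hi' : i' < w) (h : cl i = cl i') : i = i' := by
  have h1 := V.clv i hi
  have h2 := V.clv i' hi'
  rw [h] at h1; omega

lemma T_Qb {i j : ℕ} (hi : i < w) (hj : j < 2 * h) : ¬ Qb τ w cl (T i j) := by
  rintro ⟨i', hi', e⟩
  exact V.Trow i hi j hj _ e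

lemma wW (i j : ℕ) (hi : i + 1 < w) (hj : j < 2 * h) : Y.π (T (i + 1) j, .W) = (T i j, .E) := by
  rw [← V.wE i j hi hj, V.inv]

lemma wS (i j : ℕ) (hi : i < w) (hj : j + 1 < 2 * h) (hjh : j + 1 ≠ h) :
    Y.π (T i (j + 1), .S) = (T i j, .N) := by
  rw [← V.wN i j hi hj hjh, V.inv]

lemma up' (i : ℕ) (hi : i < w) : Y.π (τ (cl i), .N) = (T i h, .S) := by
  rw [← V.up i hi, V.inv]

lemma dn' (i : ℕ) (hi : i < w) : Y.π (τ (cl i), .S) = (T i (h - 1), .N) := by
  rw [← V.dn i hi, V.inv]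

/-- strands above the row -/
theorem exU (s : κ → Bool) : ∃ M, TD (Y.step s) (Y.dt s) (Bx' (Tu T h) w 0 h) (h + w)
    (se (Tu T h) w h) (fun k => Y.π (se (Tu T h) w h k)) (Kp w h) M := by
  have hh := V.h0
  refine rect_tiles V.w0 V.h0 (s := s) (fun i _ j _ d => rfl) ?_ ⟨?_, ?_, ?_, ?_⟩
  · intro i hi j hj d
    unfold Net.dt Tu
    simp only
    rw [V.tT i hi (h + j) (by omega), add_zero]
  · intro i j hi hj; exact V.wE i (h + j) hi (by omega)
  · intro i j hi hj; exact V.wW i (h + j) hi (by omega)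
  · intro i j hi hj; exact V.wN i (h + j) hi (by omega) (by omega)
  · intro i j hi hj; exact V.wS i (h + j) hi (by omega) (by omega)

/-- strands below the row -/
theorem exD (s : κ → Bool) : ∃ M, TD (Y.step s) (Y.dt s) (Bx' T w 0 h) (h + w)
    (se T w h) (fun k => Y.π (se T w h k)) (Kp w h) M := by
  have hh := V.h0
  refine rect_tiles V.w0 V.h0 (s := s) (fun i _ j _ d => rfl) ?_ ⟨?_, ?_, ?_, ?_⟩
  · intro i hi j hj d
    unfold Net.dt
    simp only
    rw [V.tT i hi j (by omega), add_zero]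
  · intro i j hi hj; exact V.wE i j hi (by omega)
  · intro i j hi hj; exact V.wW i j hi (by omega)
  · intro i j hi hj; exact V.wN i j hi (by omega) (by omega)
  · intro i j hi hj; exact V.wS i j hi (by omega) (by omega)

/-- strands of the glued box -/
theorem exG (s : κ → Bool) : ∃ M, TD (ps Y s (Qb τ w cl)) (Y.dt s) (Bx' T w 0 (2 * h)) (2 * h + w)
    (se T w (2 * h)) (fun k => pas Y (Qb τ w cl) (Y.π (se T w (2 * h) k))) (Kp w (2 * h)) M := by
  have hh := V.h0
  refine rect_tiles (W := fun x => pas Y (Qb τ w cl) (Y.π x)) V.w0 (by omega) (s := s)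
    (fun i _ j _ d => rfl) ?_ ⟨?_, ?_, ?_, ?_⟩
  · intro i hi j hj d
    unfold Net.dt
    simp only
    rw [V.tT i hi j (by omega), add_zero]
  · intro i j hi hj
    rw [V.wE i j hi (by omega)]
    exact pas_out (V.T_Qb hi hj)
  · intro i j hi hj
    rw [V.wW i j hi (by omega)]
    exact pas_out (V.T_Qb (by omega) hj)
  · intro i j hi hj
    by_cases hjh : j + 1 = h
    · have e : j = h - 1 := by omega
      subst e
      rw [V.dn i hi, pas_in ⟨i, hi, rfl⟩]
      simp only [opp]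
      rw [V.up' i hi, Nat.sub_add_cancel hh]
    · rw [V.wN i j hi (by omega) hjh]
      exact pas_out (V.T_Qb hi hj)
  · intro i j hi hj
    by_cases hjh : j + 1 = h
    · rw [hjh, V.up i hi, pas_in ⟨i, hi, rfl⟩]
      simp only [opp]
      rw [V.dn' i hi]
      congr 2
      omega
    · rw [V.wS i j hi (by omega) hjh]
      exact pas_out (V.T_Qb hi (by omega))

/-! ### Ports of the halves and of the box -/

omit V in
lemma se_u {k : ℕ} (hk : k < 2 * (h + w)) (ho : k < h ∨ h + w ≤ k) :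
    se (Tu T h) w h k = se T w (2 * h) (eu h k) := by
  rcases ho with h1 | h1
  · have e : eu h k = k := by unfold eu; rw [if_pos h1]
    rw [e]
    unfold se Tu
    rw [if_pos h1, if_pos (by omega)]
    congr 2
    omega
  · have e : eu h k = k + 2 * h := by unfold eu; rw [if_neg (by omega)]
    rw [e]
    unfold se Tu
    rw [if_neg (by omega), if_neg (by omega)]
    by_cases h2 : k < h + w + h
    · rw [if_pos h2, if_neg (by omega), if_neg (by omega), if_pos (by omega)]
      congr 2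
      omega
    · rw [if_neg h2, if_neg (by omega), if_neg (by omega), if_neg (by omega)]
      congr 2
      · omega
      · omega

omit V in
lemma se_d {k : ℕ} (hk : k < 2 * h + w) : se T w h k = se T w (2 * h) (k + h) := by
  unfold se
  by_cases h1 : k < h
  · rw [if_pos h1, if_pos (by omega)]
    congr 2
    omega
  rw [if_neg h1]
  by_cases h2 : k < h + w
  · rw [if_pos h2, if_neg (by omega), if_pos (by omega)]
    congr 2
    omega
  rw [if_neg h2, if_pos (by omega), if_neg (by omega), if_neg (by omega), if_pos (by omega)]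
  congr 2
  omega

omit V in
/-- port of the column `i` in the upper half -/
lemma se_cu {i : ℕ} (hi : i < w) : se (Tu T h) w h (h + i) = (T i h, .S) := by
  unfold se Tu
  rw [if_neg (by omega), if_pos (by omega), Nat.add_sub_cancel_left, Nat.add_zero]

omit V in
/-- port of the column `i` in the lower half -/
lemma se_cd {i : ℕ} (hi : i < w) : se T w h (2 * (h + w) - 1 - i) = (T i (h - 1), .N) := by
  unfold se
  rw [if_neg (by omega), if_neg (by omega), if_neg (by omega)]
  congr 2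
  omega

lemma out_u {i : ℕ} (hi : i < w) : Y.π (se (Tu T h) w h (h + i)) = (τ (cl i), .N) := by
  rw [se_cu hi, V.up i hi]

lemma out_d {i : ℕ} (hi : i < w) : Y.π (se T w h (2 * (h + w) - 1 - i)) = (τ (cl i), .S) := by
  rw [se_cd hi, V.dn i hi]

/-- the tiles behind the ports are not columns of the box -/
lemma out_Qb {k : ℕ} (hk : k < 2 * (2 * h + w)) : ¬ Qb τ w cl (Y.π (se T w (2 * h) k)).1 := by
  rintro ⟨i, hi, e⟩
  exact (V.oo k hk).2 i hi e

/-- the tiles behind the ports are not in the box -/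
lemma out_B {k : ℕ} (hk : k < 2 * (2 * h + w)) : Y.π (se T w (2 * h) k) ∉ Bx' T w 0 (2 * h) := by
  rintro ⟨i, hi, j, -, hj, e⟩
  exact (V.oo k hk).1 i hi j hj e

lemma se_inj {k l : ℕ} (hk : k < 2 * (2 * h + w)) (hl : l < 2 * (2 * h + w))
    (e : se T w (2 * h) k = se T w (2 * h) l) : k = l := by
  have hw := V.w0
  have hh := V.h0
  have rng : ∀ k < 2 * (2 * h + w), (k < 2 * h ∧ se T w (2 * h) k = (T 0 (2 * h - 1 - k), .W)) ∨
      (2 * h ≤ k ∧ k < 2 * h + w ∧ se T w (2 * h) k = (T (k - 2 * h) 0, .S)) ∨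
      (2 * h + w ≤ k ∧ k < 2 * h + w + 2 * h ∧
        se T w (2 * h) k = (T (w - 1) (k - (2 * h + w)), .E)) ∨
      (2 * h + w + 2 * h ≤ k ∧
        se T w (2 * h) k = (T (2 * (2 * h + w) - 1 - k) (2 * h - 1), .N)) := by
    intro k _
    unfold se
    by_cases h1 : k < 2 * h
    · left; exact ⟨h1, by rw [if_pos h1]⟩
    by_cases h2 : k < 2 * h + w
    · right; left; exact ⟨by omega, h2, by rw [if_neg h1, if_pos h2]⟩
    by_cases h3 : k < 2 * h + w + 2 * h
    · right; right; left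
      exact ⟨by omega, h3, by rw [if_neg h1, if_neg h2, if_pos h3]⟩
    · right; right; right
      exact ⟨by omega, by rw [if_neg h1, if_neg h2, if_neg h3]⟩
  rcases rng k hk with ⟨a1, a2⟩ | ⟨a1, a3, a2⟩ | ⟨a1, a3, a2⟩ | ⟨a1, a2⟩ <;>
    rcases rng l hl with ⟨b1, b2⟩ | ⟨b1, b3, b2⟩ | ⟨b1, b3, b2⟩ | ⟨b1, b2⟩ <;>
    rw [a2, b2] at e <;> have e1 := congrArg Prod.fst e <;> have e2 := congrArg Prod.snd e <;>
    simp only at e1 e2 <;> first | (exact absurd e2 (by decide)) | skip
  · have := V.Tinj _ (by omega) _ (by omega) _ (by omega) _ (by omega) e1; omega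
  · have := V.Tinj _ (by omega) _ (by omega) _ (by omega) _ (by omega) e1; omega
  · have := V.Tinj _ (by omega) _ (by omega) _ (by omega) _ (by omega) e1; omega
  · have := V.Tinj _ (by omega) _ (by omega) _ (by omega) _ (by omega) e1; omega

lemma pi_inj {x y : κ × Dir} (e : Y.π x = Y.π y) : x = y := by
  rw [← V.inv x, e, V.inv]

end World

end Pool.Agent.H39.WB
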