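import Mathlib
import Pool.Agent.H39.W.B.Trans
import Pool.Agent.H39.W.B.Cmp
import Pool.Agent.H69.M6b.Sim

set_option autoImplicit false
set_option linter.unusedSectionVars false
open Finset

/-! # Equal state sums for configurations with the same strands of the glued box -/

namespace Pool.Agent.H39.WB

open Pool.Agent.H69.M6b Pool.Agent.H69.M6b.World

open Pool.Agent.H81.G1

variable {κ : Type*} {N : ℕ}

lemma row_not_off (τ : Fin N → κ) (c : Fin N) (d : Dir) : (τ c, d) ∉ Off τ := fun h => h c rfl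

namespace World

variable {Y : Net κ} {τ : Fin N → κ} {c0 w h : ℕ} {cl : ℕ → Fin N} {T : ℕ → ℕ → κ}

lemma mem_Pf {Mu : ℕ → ℕ} {c : Fin N} : c ∈ Pf w h cl Mu ↔ ∃ i < w, c = cl i ∧ isP w h Mu i := by
  classical
  unfold Pf
  rw [mem_filter]
  exact ⟨fun h => h.2, fun h => ⟨mem_univ _, h⟩⟩

lemma Nr.toS {Mu : ℕ → ℕ} {X : Net (Fin N)} (hn : Nr w h cl Mu X)
    (hx : X.x0.1 ∈ Pf w h cl Mu) : X.x0.2 = .S := by
  obtain ⟨i, hi, e, hp⟩ := mem_Pf.1 hx
  rcases hd : X.x0.2 with _ | _ | _ | _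
  · exact absurd (Prod.ext e hd) (hn.we i hi).1
  · exact absurd (Prod.ext e hd) (hn.n i hi hp)
  · exact absurd (Prod.ext e hd) (hn.we i hi).2
  · rfl

section
variable (V : World Y τ c0 w h cl T) {s : κ → Bool} {Mu Md M : ℕ → ℕ} {X : Net (Fin N)}
include V

omit V in
/-- columns between the feet of an inner arc -/
lemma nest_aux (hM : Mats Y τ w h cl T s Mu Md M) {i i' k : ℕ} (hi : i < w) (hi' : i' < w)
    (hk : k < w) (e3 : Mu (h + i) = h + i') (e4 : Mu (h + i') = h + i) (a1 : i < k) (a2 : k < i') :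
    h + i < Mu (h + k) ∧ Mu (h + k) < h + i' := by
  have hki : h + i < 2 * (h + w) := by omega
  have hkk : h + k < 2 * (h + w) := by omega
  have nc := hM.u.nc (h + i) hki (h + k) hkk (by omega) (by rw [e3]; omega)
  have hlt := hM.u.lt (h + k) hkk
  have hn1 : Mu (h + k) ≠ h + i := by
    intro hh
    have := hM.u.inv (h + k) hkk
    rw [hh, e3] at this; omega
  have hn2 : Mu (h + k) ≠ h + i' := by
    intro hh
    have := hM.u.inv (h + k) hkk
    rw [hh, e4] at this; omega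
  rw [e3] at nc
  have b1 : ¬ (h + k < h + i) := by omega
  have b2 : h + k < h + i' := by omega
  have b3 : ¬ ((h + k < h + i) ↔ (h + k < h + i')) := fun hh => b1 (hh.2 b2)
  have b4 : ¬ ((Mu (h + k) < h + i) ↔ (Mu (h + k) < h + i')) := fun hh => b3 (nc.2 hh)
  by_contra hcon
  apply b4
  constructor
  · intro h3; omega
  · intro h3
    by_contra h4
    exact hcon ⟨by omega, h3⟩

lemma cl_Pf {i : ℕ} (hi : i < w) : cl i ∈ Pf w h cl Mu ↔ isP w h Mu i := by
  rw [mem_Pf]
  constructor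
  · rintro ⟨i', hi', e, hp⟩
    rw [V.clinj hi hi' e]; exact hp
  · intro hp; exact ⟨i, hi, rfl, hp⟩

lemma QP_Pf {c : Fin N} : QP τ w h cl Mu (τ c) ↔ c ∈ Pf w h cl Mu := by
  rw [mem_Pf]
  constructor
  · rintro ⟨i, hi, e, hp⟩; exact ⟨i, hi, V.τinj e, hp⟩
  · rintro ⟨i, hi, e, hp⟩; exact ⟨i, hi, by rw [e], hp⟩

lemma Uf_cl {i : ℕ} (hi : i < w) : Uf c0 h cl Mu (cl i) = cl (Mu (h + i) - h) := by
  unfold Uf
  rw [V.clv i hi, Nat.add_sub_cancel_left]

/-- a foot and the other foot -/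
lemma feet (hM : Mats Y τ w h cl T s Mu Md M) {c : Fin N} (hc : c ∈ Pf w h cl Mu) :
    ∃ i i', i < w ∧ i' < w ∧ c = cl i ∧ Uf c0 h cl Mu c = cl i' ∧ Mu (h + i) = h + i' ∧
      Mu (h + i') = h + i ∧ isP w h Mu i ∧ isP w h Mu i' ∧ i ≠ i' := by
  obtain ⟨i, hi, e, hp⟩ := mem_Pf.1 hc
  have hp' := hp
  unfold isP at hp'
  have hk : h + i < 2 * (h + w) := by omega
  have e1 : Mu (h + i) = h + (Mu (h + i) - h) := by omega
  have e2 : Mu (h + (Mu (h + i) - h)) = h + i := by rw [← e1]; exact hM.u.inv _ hk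
  refine ⟨i, Mu (h + i) - h, hi, by omega, e, by rw [e]; exact V.Uf_cl hi, e1, e2, hp, ?_, ?_⟩
  · unfold isP; rw [e2]; omega
  · intro h1
    have := hM.u.ne _ hk
    omega

lemma AB_off {z : κ × Dir} (hz : z ∈ Bx' T w 0 (2 * h)) : z ∈ Off τ := fun c => V.AB_row hz c

/-- the wire of an inner arc -/
lemma arc_wire (hM : Mats Y τ w h cl T s Mu Md M) (hI : Ind Y s τ X) {i i' : ℕ} (hi : i < w)
    (hi' : i' < w) (e : Mu (h + i) = h + i') : X.π (cl i, .N) = (cl i', .N) ∧
      X.t (cl i, .N) = tt (h + w) (Kp w h) (h + i) (h + i') := by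
  have hk : h + i < 2 * (h + w) := by omega
  have p1 := hM.u.path (h + i) hk
  simp only [e] at p1
  rw [V.out_u hi', se_cu hi] at p1
  have p2 := hI.wire (cl i, .N)
  simp only at p2
  rw [V.up' i hi, V.tr i hi, sub_zero] at p2
  have p3 := p1.mono (fun z hz => V.AB_off (Au_AB hz))
  obtain ⟨e1, e2⟩ := p2.uniq p3 (row_not_off _ _ _) (row_not_off _ _ _)
  have e3 : (X.π (cl i, .N)).2 = .N := congrArg (fun z : κ × Dir => z.2) e1
  exact ⟨Prod.ext (V.τinj (congrArg (fun z : κ × Dir => z.1) e1)) e3, e2⟩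

lemma arc_wireD (hM : Mats Y τ w h cl T s Mu Md M) (hI : Ind Y s τ X) {i i' : ℕ} (hi : i < w)
    (hi' : i' < w) (e : Md (2 * (h + w) - 1 - i) = 2 * (h + w) - 1 - i') :
    X.π (cl i, .S) = (cl i', .S) ∧
      X.t (cl i, .S) = tt (h + w) (Kp w h) (2 * (h + w) - 1 - i) (2 * (h + w) - 1 - i') := by
  have hk : 2 * (h + w) - 1 - i < 2 * (h + w) := by omega
  have p1 := hM.d.path _ hk
  simp only [e] at p1
  rw [V.out_d hi', se_cd hi] at p1
  have p2 := hI.wire (cl i, .S)
  simp only at p2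
  rw [V.dn' i hi, V.tr i hi, sub_zero] at p2
  have p3 := p1.mono (fun z hz => V.AB_off (Ad_AB hz))
  obtain ⟨e1, e2⟩ := p2.uniq p3 (row_not_off _ _ _) (row_not_off _ _ _)
  have e3 : (X.π (cl i, .S)).2 = .S := congrArg (fun z : κ × Dir => z.2) e1
  exact ⟨Prod.ext (V.τinj (congrArg (fun z : κ × Dir => z.1) e1)) e3, e2⟩

/-- the row wires -/
lemma rowX (hI : Ind Y s τ X) {c c' : Fin N} (hcc : (c' : ℕ) = c + 1) (hlo : c0 - 1 ≤ (c : ℕ))
    (hhi : (c' : ℕ) ≤ c0 + w) : X.π (c, .E) = (c', .W) ∧ X.t (c, .E) = Y.t (τ c, .E) := by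
  have p1 := hI.wire (c, .E)
  simp only at p1
  rw [V.row c c' hcc hlo hhi] at p1
  have p2 : PR (Y.step s) (Y.dt s) (Off τ) (τ c', Dir.W) (τ c', Dir.W) 0 := PR.refl _
  obtain ⟨e1, e2⟩ := p1.uniq p2 (row_not_off _ _ _) (row_not_off _ _ _)
  have e3 : (X.π (c, .E)).2 = .W := congrArg (fun z : κ × Dir => z.2) e1
  exact ⟨Prod.ext (V.τinj (congrArg (fun z : κ × Dir => z.1) e1)) e3, by linarith⟩

lemma isRow (hI : Ind Y s τ X) : RowIn X (c0 - 1) (c0 + w) :=
  fun _ _ hcc h1 h2 => (V.rowX hI hcc h1 h2).1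

lemma TE0 (hI : Ind Y s τ X) {n : ℕ} (h1 : c0 ≤ n) (h2 : n < c0 + w) : TE X n = 0 := by
  have hN := V.c2
  have e : n = ((cl (n - c0) : Fin N) : ℕ) := by rw [V.clv _ (by omega)]; omega
  have hi : n - c0 < w := by omega
  rw [e, TE_eq]
  have h3 := V.clv _ hi
  obtain ⟨c', hc'⟩ : ∃ c' : Fin N, (c' : ℕ) = (cl (n - c0) : ℕ) + 1 := ⟨⟨_, by omega⟩, rfl⟩
  rw [(V.rowX hI hc' (by omega) (by omega)).2, V.tr _ hi]

/-- **The inner arcs above the row.** -/
theorem arcs (hM : Mats Y τ w h cl T s Mu Md M) (hI : Ind Y s τ X)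
    (hn : Nr w h cl Mu X) : Arcs X (Pf w h cl Mu) (Uf c0 h cl Mu) := by
  have hr := V.isRow hI
  constructor
  · intro c hc
    obtain ⟨i, i', hi, hi', e1, e2, e3, e4, hp, hp', hne⟩ := V.feet hM hc
    rw [e2]; exact (V.cl_Pf hi').2 hp'
  · intro c hc
    obtain ⟨i, i', hi, hi', e1, e2, e3, e4, hp, hp', hne⟩ := V.feet hM hc
    rw [e2, e1]
    exact fun hh => hne (V.clinj hi' hi hh).symm
  · intro c hc
    obtain ⟨i, i', hi, hi', e1, e2, e3, e4, hp, hp', hne⟩ := V.feet hM hc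
    rw [e2, V.Uf_cl hi', e4, e1, Nat.add_sub_cancel_left]
  · intro c hc
    obtain ⟨i, i', hi, hi', e1, e2, e3, e4, hp, hp', hne⟩ := V.feet hM hc
    rw [e2, e1]
    exact (V.arc_wire hM hI hi hi' e3).1
  · intro c hc z h1 h2
    obtain ⟨i, i', hi, hi', e1, e2, e3, e4, hp, hp', hne⟩ := V.feet hM hc
    rw [e2] at h2 ⊢
    rw [e1] at h1
    rw [Fin.lt_def, V.clv i hi] at h1
    rw [Fin.lt_def, V.clv i' hi'] at h2
    obtain ⟨k, hk, hkz⟩ : ∃ k < w, z = cl k := by
      refine ⟨(z : ℕ) - c0, by omega, ?_⟩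
      apply Fin.ext
      rw [V.clv _ (by omega)]; omega
    subst hkz
    have hkv := V.clv k hk
    rw [hkv] at h1 h2
    have a1 : i < k := by omega
    have a2 : k < i' := by omega
    have b5 := nest_aux hM hi hi' hk e3 e4 a1 a2
    have hpk : isP w h Mu k := by unfold isP; omega
    refine ⟨(V.cl_Pf hk).2 hpk, ?_, ?_⟩
    · rw [e1, V.Uf_cl hk, Fin.lt_def, V.clv i hi, V.clv _ (by omega)]; omega
    · rw [V.Uf_cl hk, Fin.lt_def, V.clv i' hi', V.clv _ (by omega)]; omega
  · intro c hc z z' g1 g2 h3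
    obtain ⟨i, i', hi, hi', e1, e2, e3, e4, hp, hp', hne⟩ := V.feet hM hc
    rw [e1, Fin.le_def, V.clv i hi] at g1
    rw [e2, Fin.le_def, V.clv i' hi'] at g2
    exact hr z z' h3 (by omega) (by omega)
  · intro c hc hlt
    obtain ⟨i, i', hi, hi', e1, e2, e3, e4, hp, hp', hne⟩ := V.feet hM hc
    rw [e2] at hlt ⊢
    rw [e1] at hlt ⊢
    rw [Fin.lt_def, V.clv i hi, V.clv i' hi'] at hlt
    rw [(V.arc_wire hM hI hi hi' e3).2, V.clv i hi, V.clv i' hi']
    rw [Finset.sum_eq_zero]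
    · unfold tt
      have k1 : Kp w h (h + i) = 1 := by unfold Kp; rw [if_neg (by omega), if_pos (by omega)]
      have k2 : Kp w h (h + i') = 1 := by unfold Kp; rw [if_neg (by omega), if_pos (by omega)]
      have c1 : (h + i < h + w ↔ h + i' < h + w) := ⟨fun _ => by omega, fun _ => by omega⟩
      rw [k1, k2, if_pos c1, if_pos (by omega)]
      norm_num
    · intro n hn
      rw [mem_Ico] at hn
      exact V.TE0 hI (by omega) (by omega)
  · intro c hc hlt z d h1 h2 hd _ _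
    obtain ⟨i, i', hi, hi', e1, e2, e3, e4, hp, hp', hne⟩ := V.feet hM hc
    rw [e2] at h2
    rw [e1] at h1
    rw [Fin.le_def, V.clv i hi] at h1
    rw [Fin.le_def, V.clv i' hi'] at h2
    obtain ⟨k, hk, hkz⟩ : ∃ k < w, z = cl k := by
      refine ⟨(z : ℕ) - c0, by omega, ?_⟩
      apply Fin.ext
      rw [V.clv _ (by omega)]; omega
    subst hkz
    rw [V.clv k hk] at h1 h2
    refine ⟨fun hh => ?_, fun hh => hn.y k hk (congrArg Prod.fst hh).symm⟩
    have hpk : isP w h Mu k := by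
      rcases Nat.lt_or_ge i k with a1 | a1
      · rcases Nat.lt_or_ge k i' with a2 | a2
        · have := nest_aux hM hi hi' hk e3 e4 a1 a2
          unfold isP; omega
        · have : k = i' := by omega
          rw [this]; exact hp'
      · have : k = i := by omega
        rw [this]; exact hp
    cases d
    · exact (hn.we k hk).1 hh.symm
    · exact hn.n k hk hpk hh.symm
    · exact (hn.we k hk).2 hh.symm
    · exact hd rfl

/-- columns of the box are inner columns of the row -/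
lemma Pf_int {c : Fin N} (hc : c ∈ Pf w h cl Mu) : c0 - 1 < (c : ℕ) ∧ (c : ℕ) < c0 + w := by
  obtain ⟨i, hi, e, -⟩ := mem_Pf.1 hc
  have h1 := V.clv i hi
  have h2 := V.c1
  have h3 := V.c2
  rw [e]
  have := (cl i).2
  constructor
  · omega
  · omega

/-- a position off the row is not at a foot -/
lemma off_QP {z : κ × Dir} (hz : z ∈ Off τ) : ¬ QP τ w h cl Mu z.1 := by
  rintro ⟨i, -, e, -⟩; exact hz _ e

/-- from the network of the row to the network of the tiles -/
lemma toPR (hM : Mats Y τ w h cl T s Mu Md M) (hI : Ind Y s τ X)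
    (hA : Arcs X (Pf w h cl Mu) (Uf c0 h cl Mu)) {x v : Fin N × Dir} {t : ℤ}
    (hg : GlE X (Pf w h cl Mu) (Uf c0 h cl Mu) x v t) : ∀ {c : Fin N} {d : Dir},
    X.π (c, d) = x →
    PR (ps Y s (QP τ w h cl Mu)) (Y.dt s) (Off τ) (Y.π (τ c, d)) (τ v.1, v.2)
      (X.t (c, d) + t - Y.t (τ c, d)) := by
  have first : ∀ {c : Fin N} {d : Dir}, (Y.π (τ c, d) ∈ Off τ ∨ (X.π (c, d)).1 ∉ Pf w h cl Mu) →
      PR (ps Y s (QP τ w h cl Mu)) (Y.dt s) (Off τ) (Y.π (τ c, d))
        (pas Y (QP τ w h cl Mu) (τ (X.π (c, d)).1, (X.π (c, d)).2)) (X.t (c, d) - Y.t (τ c, d)) := by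
    intro c d ho
    obtain ⟨m, hm⟩ := hI.wire (c, d)
    have hm' : Pn (Y.step s) (Y.dt s) (Off τ) m (Y.π (τ c, d))
      (τ (X.π (c, d)).1, (X.π (c, d)).2) (X.t (c, d) - Y.t (τ c, d)) := hm
    rcases Nat.eq_zero_or_pos m with h0 | h0
    · subst h0
      have e1 : Y.π (τ c, d) = (τ (X.π (c, d)).1, (X.π (c, d)).2) := hm'.1
      rcases ho with ho | ho
      · exfalso
        rw [e1] at ho
        exact row_not_off _ _ _ ho
      · have e2 : pas Y (QP τ w h cl Mu) (τ (X.π (c, d)).1, (X.π (c, d)).2) =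
            (τ (X.π (c, d)).1, (X.π (c, d)).2) := pas_out (fun hq => ho (V.QP_Pf.1 hq))
        rw [e2, ← e1]
        have e3 : X.t (c, d) - Y.t (τ c, d) = 0 := by
          have := hm'.2.2
          simpa using this
        rw [e3]
        exact PR.refl _
    · exact (hm'.toPs h0 fun z hz => V.off_QP hz).pr
  induction hg with
  | @done v hv =>
    intro c d e
    have h1 := first (c := c) (d := d) (Or.inr (by rw [e]; exact hv))
    rw [e, pas_out (fun hq => hv (V.QP_Pf.1 hq))] at h1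
    rw [add_zero]
    exact h1
  | @pass c' v t hc' _ ih =>
    intro c d e
    obtain ⟨i, i', hi, hi', e1, e2, e3, e4, hp, hp', hne⟩ := V.feet hM hc'
    -- the wire starts off the row
    have hoff : Y.π (τ c, d) ∈ Off τ := by
      obtain ⟨m, hm⟩ := hI.wire (c, d)
      have hm' : Pn (Y.step s) (Y.dt s) (Off τ) m (Y.π (τ c, d))
        (τ (X.π (c, d)).1, (X.π (c, d)).2) (X.t (c, d) - Y.t (τ c, d)) := hm
      rcases Nat.eq_zero_or_pos m with h0 | h0
      · exfalso
        subst h0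
        have h1 : Y.π (τ c, d) = (τ (X.π (c, d)).1, (X.π (c, d)).2) := hm'.1
        rw [e] at h1
        have h2 : Y.π (τ c', .S) = (τ c, d) := by rw [← h1, V.inv]
        rw [e1, V.dn' i hi] at h2
        exact V.Trow i hi (h - 1) (by have := V.h0; omega) c (congrArg Prod.fst h2)
      · exact hm'.2.1 0 h0
    have p1 := first (c := c) (d := d) (Or.inl hoff)
    rw [e] at p1
    simp only at p1
    rw [pas_in (V.QP_Pf.2 hc')] at p1
    simp only [opp] at p1
    have p2 := first (c := c') (d := .N) (Or.inl (by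
      rw [e1, V.up' i hi]
      exact V.AB_off ⟨i, hi, h, Nat.zero_le _, by have := V.h0; omega, rfl⟩))
    have hU : X.π (c', .N) = (Uf c0 h cl Mu c', .N) := hA.arc c' hc'
    rw [hU] at p2
    simp only at p2
    rw [pas_in (V.QP_Pf.2 (hA.mem c' hc'))] at p2
    simp only [opp] at p2
    have p3 := ih (c := Uf c0 h cl Mu c') (d := .S) rfl
    have p4 := (p1.trans p2).trans p3
    have z1 : Y.t (τ c', .N) = 0 := by rw [e1]; exact V.tr i hi _
    have z2 : Y.t (τ (Uf c0 h cl Mu c'), .S) = 0 := by rw [e2]; exact V.tr i' hi' _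
    rw [z1, z2] at p4
    convert p4 using 1
    ring

/-- a position whose wire leads neither to the box nor to the row is a port -/
lemma port_of {i j : ℕ} {d : Dir} (hi : i < w) (hj : j < 2 * h)
    (ho : ∀ i' < w, ∀ j' < 2 * h, (Y.π (T i j, d)).1 ≠ T i' j')
    (hr : ∀ i' < w, (Y.π (T i j, d)).1 ≠ τ (cl i')) :
    ∃ k < 2 * (2 * h + w), (T i j, d) = se T w (2 * h) k := by
  have hh := V.h0
  cases d
  · -- W
    rcases Nat.eq_zero_or_pos i with h0 | h0
    · subst h0
      refine ⟨2 * h - 1 - j, by omega, ?_⟩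
      unfold se
      rw [if_pos (by omega)]
      congr 2
      omega
    · exfalso
      have := V.wW (i - 1) j (by omega) hj
      rw [Nat.sub_add_cancel h0] at this
      exact ho (i - 1) (by omega) j hj (by rw [this])
  · -- N
    rcases Nat.lt_or_ge (j + 1) (2 * h) with h2 | h2
    · exfalso
      by_cases h3 : j + 1 = h
      · have e : j = h - 1 := by omega
        rw [e] at hr
        exact hr i hi (by rw [V.dn i hi])
      · exact ho i hi (j + 1) h2 (by rw [V.wN i j hi h2 h3])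
    · refine ⟨2 * (2 * h + w) - 1 - i, by omega, ?_⟩
      unfold se
      rw [if_neg (by omega), if_neg (by omega), if_neg (by omega)]
      congr 2
      · omega
      · omega
  · -- E
    rcases Nat.lt_or_ge (i + 1) w with h2 | h2
    · exfalso
      exact ho (i + 1) h2 j hj (by rw [V.wE i j h2 hj])
    · refine ⟨2 * h + w + j, by omega, ?_⟩
      unfold se
      rw [if_neg (by omega), if_neg (by omega), if_pos (by omega)]
      congr 2
      · omega
      · omega
  · -- S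
    rcases Nat.eq_zero_or_pos j with h0 | h0
    · subst h0
      refine ⟨2 * h + i, by omega, ?_⟩
      unfold se
      rw [if_neg (by omega), if_pos (by omega)]
      congr 2
      omega
    · exfalso
      by_cases h3 : j = h
      · rw [h3] at hr
        exact hr i hi (by rw [V.up i hi])
      · have := V.wS i (j - 1) hi (by omega) (by omega)
        rw [Nat.sub_add_cancel h0] at this
        exact ho i hi (j - 1) (by omega) (by rw [this])

end

end World

end Pool.Agent.H39.WB
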