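import Mathlib
import Pool.Agent.H39.W.B.Sim
import Pool.Agent.H69.M6b.Root

set_option autoImplicit false
set_option linter.unusedSectionVars false
open Finset

/-! # The root of the network of the tiles and the root of the row -/

namespace Pool.Agent.H39.WB

open Pool.Agent.H69.M6b Pool.Agent.H69.M6b.World

open Pool.Agent.H81.G1

variable {κ : Type*} {N : ℕ}

namespace World

variable {Y : Net κ} {τ : Fin N → κ} {c0 w h : ℕ} {cl : ℕ → Fin N} {T : ℕ → ℕ → κ}

section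
variable (V : World Y τ c0 w h cl T) {s s' : κ → Bool} {Mu Md M Mu' Md' M' : ℕ → ℕ}
  {X X' : Net (Fin N)} {ρ0 : κ × Dir} {r r' : ℤ}
include V

/-- the strand does not meet the row with straight passages either -/
lemma Rn.no (hR : Rn Y s τ w h cl T ρ0) {v : Fin N × Dir} {t : ℤ} :
    ¬ PR (ps Y s (QP τ w h cl Mu)) (Y.dt s) (Off τ) ρ0 (τ v.1, v.2) t := by
  rintro ⟨n, hn⟩
  have hn' : Pn (ps Y s (QP τ w h cl Mu)) (Y.dt s) (Off τ) n ρ0 (τ v.1, v.2) t := hn
  have key : ∀ i, (ps Y s (QP τ w h cl Mu))^[i] ρ0 = (Y.step s)^[i] ρ0 := by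
    intro i
    induction i with
    | zero => rfl
    | succ i ih =>
      rw [Function.iterate_succ_apply', ih, Function.iterate_succ_apply']
      unfold ps
      apply pas_out
      have := hR.nv (i + 1)
      rw [Function.iterate_succ_apply'] at this
      exact V.off_QP this
  have h1 := hn'.1
  rw [key] at h1
  have h2 := hR.nv n
  rw [h1] at h2
  exact row_not_off _ _ _ h2

lemma stepY_inj (s : κ → Bool) : Function.Injective (Y.step s) := by
  intro p q hpq
  have h1 := V.pi_inj hpq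
  obtain ⟨e1, e2⟩ := Prod.ext_iff.1 h1
  simp only at e1 e2
  rw [e1] at e2
  exact Prod.ext e1 (mate_inj e2)

/-- the last step of a path to a column of the box comes from a tile of the box -/
lemma Rt.we (hR : Rt Y s τ w h cl T X ρ0 r) {i : ℕ} (hi : i < w) :
    X.x0 ≠ (cl i, .W) ∧ X.x0 ≠ (cl i, .E) := by
  obtain ⟨n, hn⟩ := hR.pr
  have hn' : Pn (Y.step s) (Y.dt s) (Off τ) n ρ0 (τ X.x0.1, X.x0.2) r := hn
  have hcl := V.clv i hi
  have hc1 := V.c1
  have hc2 := V.c2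
  have key : ∀ d, X.x0 = (cl i, d) → ∀ c : Fin N, (Y.π (τ (cl i), d)).1 ≠ τ c := by
    intro d hd c hc
    rw [hd] at hn'
    rcases Nat.eq_zero_or_pos n with h0 | h0
    · subst h0
      exact hR.nc i hi (congrArg (fun z : κ × Dir => z.1) hn'.1)
    · obtain ⟨m, rfl⟩ : ∃ m, n = m + 1 := ⟨n - 1, by omega⟩
      have h1 := hn'.1
      rw [Function.iterate_succ_apply'] at h1
      have h2 := hn'.2.1 m (by omega)
      have h3 : (Y.π (Y.step s ((Y.step s)^[m] ρ0))).1 = ((Y.step s)^[m] ρ0).1 := by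
        unfold Net.step; rw [V.inv]
      rw [h1] at h3
      exact h2 c (h3.symm.trans hc)
  constructor
  · intro hd
    have h3 := V.row ⟨(cl i : ℕ) - 1, by omega⟩ (cl i) (by simp only; omega)
      (by simp only; omega) (by omega)
    exact key .W hd _ (by rw [← h3, V.inv])
  · intro hd
    have h3 := V.row (cl i) ⟨(cl i : ℕ) + 1, by omega⟩ rfl (by omega) (by simp only; omega)
    exact key .E hd _ (by rw [h3])

lemma Rt.n (hM : Mats Y τ w h cl T s Mu Md M) (hR : Rt Y s τ w h cl T X ρ0 r) {i : ℕ} (hi : i < w)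
    (hp : isP w h Mu i) : X.x0 ≠ (cl i, .N) := by
  intro hd
  have hh := V.h0
  obtain ⟨n, hn⟩ := hR.pr
  have hn' : Pn (Y.step s) (Y.dt s) (Off τ) n ρ0 (τ X.x0.1, X.x0.2) r := hn
  rw [hd] at hn'
  -- the arc
  have hp' := hp
  unfold isP at hp'
  have hk : h + i < 2 * (h + w) := by omega
  set i' := Mu (h + i) - h with hi'
  have e1 : Mu (h + i) = h + i' := by omega
  have hiw' : i' < w := by omega
  have e2 : Mu (h + i') = h + i := by rw [← e1]; exact hM.u.inv _ hk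
  obtain ⟨m, hm⟩ := hM.u.path (h + i') (by omega)
  have hm' : Pn (Y.step s) (Y.dt s) (Bx' (Tu T h) w 0 h) m (se (Tu T h) w h (h + i'))
      (Y.π (se (Tu T h) w h (Mu (h + i')))) _ := hm
  rw [e2, V.out_u hi, se_cu hiw'] at hm'
  have hTB : (T i' h, Dir.S) ∈ Bx' T w 0 (2 * h) := ⟨i', hiw', h, Nat.zero_le _, by omega, rfl⟩
  have hm0 : 0 < m := by
    rcases Nat.eq_zero_or_pos m with h0 | h0
    · exfalso
      subst h0
      have e3 : ((T i' h, Dir.S) : κ × Dir) = (τ (cl i), Dir.N) := hm'.1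
      exact V.Trow i' hiw' h (by omega) _ (congrArg Prod.fst e3)
    · exact h0
  have hinj := V.stepY_inj s
  rcases Nat.lt_or_ge n m with h1 | h1
  · -- the root is on the arc
    obtain ⟨k, rfl⟩ : ∃ k, m = n + k := ⟨m - n, by omega⟩
    have e3 : (Y.step s)^[n] ((Y.step s)^[k] (T i' h, Dir.S)) = (Y.step s)^[n] ρ0 := by
      rw [← Function.iterate_add_apply, hm'.1, hn'.1]
    have e4 := (hinj.iterate n) e3
    rcases Nat.eq_zero_or_pos n with h0 | h0
    · subst h0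
      exact hR.nc i hi (congrArg (fun z : κ × Dir => z.1) hn'.1)
    · have h5 := Au_AB (hm'.2.1 k (by omega))
      rw [e4] at h5
      obtain ⟨i1, hi1, j1, -, hj1, e5⟩ := h5
      exact hR.nb i1 hi1 j1 hj1 e5
  · obtain ⟨k, rfl⟩ : ∃ k, n = m + k := ⟨n - m, by omega⟩
    have e3 : (Y.step s)^[m] ((Y.step s)^[k] ρ0) = (Y.step s)^[m] (T i' h, Dir.S) := by
      rw [← Function.iterate_add_apply, hm'.1, hn'.1]
    have e4 := (hinj.iterate m) e3
    rcases Nat.eq_zero_or_pos k with h0 | h0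
    · subst h0
      have e5 : ρ0 = (T i' h, Dir.S) := e4
      exact hR.nb i' hiw' h (by omega) (congrArg Prod.fst e5)
    · obtain ⟨k', rfl⟩ : ∃ k', k = k' + 1 := ⟨k - 1, by omega⟩
      rw [Function.iterate_succ_apply'] at e4
      have h2 := hn'.2.1 k' (by omega)
      have h3 : (Y.π (Y.step s ((Y.step s)^[k'] ρ0))).1 = ((Y.step s)^[k'] ρ0).1 := by
        unfold Net.step; rw [V.inv]
      rw [e4, V.up i' hiw'] at h3
      exact h2 _ h3.symm

/-- the root does not touch the inner arcs -/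
lemma Rt.nr (hM : Mats Y τ w h cl T s Mu Md M) (hR : Rt Y s τ w h cl T X ρ0 r)
    (hy : ∀ i < w, X.y0.1 ≠ cl i) : Nr w h cl Mu X :=
  ⟨fun i hi => Rt.we V hR hi, fun i hi hp => Rt.n V hM hR hi hp, hy⟩

/-- the strand of the root, with straight passages through the feet -/
lemma rootPR (hM : Mats Y τ w h cl T s Mu Md M) (hI : Ind Y s τ X)
    (hA : Arcs X (Pf w h cl Mu) (Uf c0 h cl Mu)) (hR : Rt Y s τ w h cl T X ρ0 r)
    {v : Fin N × Dir} {t : ℤ}
    (hg : GlE X (Pf w h cl Mu) (Uf c0 h cl Mu) X.x0 v t) :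
    PR (ps Y s (QP τ w h cl Mu)) (Y.dt s) (Off τ) ρ0 (τ v.1, v.2) (r + t) := by
  have hh := V.h0
  obtain ⟨n, hn⟩ := hR.pr
  have hn' : Pn (Y.step s) (Y.dt s) (Off τ) n ρ0 (τ X.x0.1, X.x0.2) r := hn
  generalize hx : X.x0 = x at hn' hg
  cases hg with
  | @done v hv =>
    rw [add_zero]
    rcases Nat.eq_zero_or_pos n with h0 | h0
    · subst h0
      have e1 : ρ0 = (τ v.1, v.2) := hn'.1
      have e2 : r = 0 := by have := hn'.2.2; simpa using this
      rw [e1, e2]; exact PR.refl _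
    · have h1 := (hn'.toPs (Q := QP τ w h cl Mu) h0 fun z hz => V.off_QP hz).pr
      rwa [pas_out (fun hq => hv (V.QP_Pf.1 hq))] at h1
  | @pass c v t hc hg' =>
    obtain ⟨i, i', hi, hi', e1, e2, e3, e4, hp, hp', hne⟩ := V.feet hM hc
    rcases Nat.eq_zero_or_pos n with h0 | h0
    · exfalso
      subst h0
      have e1' : ρ0 = (τ c, Dir.S) := hn'.1
      exact hR.nc i hi (by rw [e1', e1])
    · have p1 := (hn'.toPs (Q := QP τ w h cl Mu) h0 fun z hz => V.off_QP hz).pr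
      simp only at p1
      rw [pas_in (V.QP_Pf.2 hc)] at p1
      simp only [opp] at p1
      -- the arc
      have hoff : Y.π (τ c, .N) ∈ Off τ := by
        rw [e1, V.up' i hi]
        exact V.AB_off ⟨i, hi, h, Nat.zero_le _, by omega, rfl⟩
      obtain ⟨m, hm⟩ := hI.wire (c, .N)
      have hm' : Pn (Y.step s) (Y.dt s) (Off τ) m (Y.π (τ c, .N))
        (τ (X.π (c, .N)).1, (X.π (c, .N)).2) (X.t (c, .N) - Y.t (τ c, .N)) := hm
      have hm0 : 0 < m := by
        rcases Nat.eq_zero_or_pos m with h1 | h1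
        · exfalso
          subst h1
          have e5 : Y.π (τ c, .N) = (τ (X.π (c, .N)).1, (X.π (c, .N)).2) := hm'.1
          rw [e5] at hoff
          exact row_not_off _ _ _ hoff
        · exact h1
      have p2 := (hm'.toPs (Q := QP τ w h cl Mu) hm0 fun z hz => V.off_QP hz).pr
      have hU : X.π (c, .N) = (Uf c0 h cl Mu c, .N) := hA.arc c hc
      rw [hU] at p2
      simp only at p2
      rw [pas_in (V.QP_Pf.2 (hA.mem c hc))] at p2
      simp only [opp] at p2
      have p3 := V.toPR hM hI hA hg' (c := Uf c0 h cl Mu c) (d := .S) rfl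
      have p4 := (p1.trans p2).trans p3
      have z1 : Y.t (τ c, .N) = 0 := by rw [e1]; exact V.tr i hi _
      have z2 : Y.t (τ (Uf c0 h cl Mu c), .S) = 0 := by rw [e2]; exact V.tr i' hi' _
      rw [z1, z2] at p4
      convert p4 using 1
      ring

/-- conversely -/
lemma fromPR (hM : Mats Y τ w h cl T s Mu Md M) (hI : Ind Y s τ X)
    (hA : Arcs X (Pf w h cl Mu) (Uf c0 h cl Mu)) {n : ℕ} : ∀ {x v : Fin N × Dir} {t : ℤ},
    (x.1 ∈ Pf w h cl Mu → x.2 = .S) → v.1 ∉ Pf w h cl Mu →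
    Pn (ps Y s (QP τ w h cl Mu)) (Y.dt s) (Off τ) n (pas Y (QP τ w h cl Mu) (τ x.1, x.2))
      (τ v.1, v.2) t →
    ∃ v' t', GlE X (Pf w h cl Mu) (Uf c0 h cl Mu) x v' t' := by
  have hh := V.h0
  induction n using Nat.strong_induction_on with
  | _ n ih =>
    intro x v t hxS hv hn
    by_cases hx : x.1 ∈ Pf w h cl Mu
    · obtain ⟨i, i', hi, hi', e1, e2, e3, e4, hp, hp', hne⟩ := V.feet hM hx
      have ex : x = (x.1, .S) := Prod.ext rfl (hxS hx)
      have hU : X.π (x.1, .N) = (Uf c0 h cl Mu x.1, .N) := hA.arc x.1 hx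
      have hUm := hA.mem x.1 hx
      rw [pas_in (Y := Y) (Q := QP τ w h cl Mu) (y := (τ x.1, x.2)) (V.QP_Pf.2 hx)] at hn
      simp only [hxS hx, opp] at hn
      have hoff : Y.π (τ x.1, .N) ∈ Off τ := by
        rw [e1, V.up' i hi]
        exact V.AB_off ⟨i, hi, h, Nat.zero_le _, by omega, rfl⟩
      have hoff2 : Y.π (τ (Uf c0 h cl Mu x.1), .S) ∈ Off τ := by
        rw [e2, V.dn' i' hi']
        exact V.AB_off ⟨i', hi', h - 1, Nat.zero_le _, by omega, rfl⟩
      have wir : ∀ (c : Fin N) (d : Dir), Y.π (τ c, d) ∈ Off τ → ∃ m, 0 < m ∧ ∃ t,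
          Pn (ps Y s (QP τ w h cl Mu)) (Y.dt s) (Off τ) m (Y.π (τ c, d))
            (pas Y (QP τ w h cl Mu) (τ (X.π (c, d)).1, (X.π (c, d)).2)) t := by
        intro c d ho
        obtain ⟨m, hm⟩ := hI.wire (c, d)
        have hm' : Pn (Y.step s) (Y.dt s) (Off τ) m (Y.π (τ c, d))
          (τ (X.π (c, d)).1, (X.π (c, d)).2) (X.t (c, d) - Y.t (τ c, d)) := hm
        have hm0 : 0 < m := by
          rcases Nat.eq_zero_or_pos m with h1 | h1
          · exfalso
            subst h1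
            have e5 : Y.π (τ c, d) = (τ (X.π (c, d)).1, (X.π (c, d)).2) := hm'.1
            rw [e5] at ho
            exact row_not_off _ _ _ ho
          · exact h1
        exact ⟨m, hm0, _, hm'.toPs (Q := QP τ w h cl Mu) hm0 fun z hz => V.off_QP hz⟩
      obtain ⟨m1, hm1, t1, p1⟩ := wir x.1 .N hoff
      rw [hU] at p1
      simp only at p1
      rw [pas_in (V.QP_Pf.2 hUm)] at p1
      simp only [opp] at p1
      obtain ⟨m2, hm2, t2, p2⟩ := wir (Uf c0 h cl Mu x.1) .S hoff2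
      obtain ⟨hle, hr⟩ := hn.rest (row_not_off _ _ _) (p1.trans p2)
      obtain ⟨v', t', hg⟩ := ih (n - (m1 + m2)) (by omega)
        (x := X.π (Uf c0 h cl Mu x.1, .S))
        (fun hh => Arcs_fromS hA hI.inv (V.isRow hI) V.c2 (fun c hc => V.Pf_int hc) (Or.inr rfl)
          (fun h => absurd h (by decide)) (fun h => absurd h (by decide)) hh) hv hr
      rw [ex]
      exact ⟨v', _, GlE.pass hx hg⟩
    · exact ⟨x, 0, GlE.done hx⟩

/-- the strand of the root ends -/
lemma exRoot (hM : Mats Y τ w h cl T s Mu Md M) (hI : Ind Y s τ X)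
    (hA : Arcs X (Pf w h cl Mu) (Uf c0 h cl Mu)) (hR : Rt Y s τ w h cl T X ρ0 r)
    (hn : Nr w h cl Mu X) {v : Fin N × Dir} {t : ℤ} (hv : v.1 ∉ Pf w h cl Mu)
    (hp : PR (ps Y s (QP τ w h cl Mu)) (Y.dt s) (Off τ) ρ0 (τ v.1, v.2) t) :
    ∃ v' t', GlE X (Pf w h cl Mu) (Uf c0 h cl Mu) X.x0 v' t' := by
  obtain ⟨n, hn1⟩ := hR.pr
  have hn' : Pn (Y.step s) (Y.dt s) (Off τ) n ρ0 (τ X.x0.1, X.x0.2) r := hn1
  obtain ⟨m, hm⟩ := hp
  have hm' : Pn (ps Y s (QP τ w h cl Mu)) (Y.dt s) (Off τ) m ρ0 (τ v.1, v.2) t := hm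
  rcases Nat.eq_zero_or_pos n with h0 | h0
  · subst h0
    have e1 : ρ0 = (τ X.x0.1, X.x0.2) := hn'.1
    refine ⟨X.x0, 0, GlE.done ?_⟩
    intro hx
    obtain ⟨i, hi, e, -⟩ := mem_Pf.1 hx
    exact hR.nc i hi (by rw [e1, e])
  · have p1 := hn'.toPs (Q := QP τ w h cl Mu) h0 fun z hz => V.off_QP hz
    obtain ⟨-, hr⟩ := hm'.rest (row_not_off _ _ _) p1
    exact V.fromPR hM hI hA hn.toS hv hr

end

end World

end Pool.Agent.H39.WB
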