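import Mathlib
import Pool.Agent.H39.W.B.Root
import Pool.Agent.H69.M6b.Eq

set_option autoImplicit false
set_option linter.unusedSectionVars false
set_option linter.unusedVariables false
open Finset

/-! # Two configurations which agree outside the box -/

namespace Pool.Agent.H39.WB.World

open Pool.Agent.H69.M6b Pool.Agent.H69.M6b.World

open Pool.Agent.H81.G1

variable {κ : Type*} {N : ℕ}

section
variable {Y : Net κ} {τ : Fin N → κ} {c0 w h : ℕ} {cl : ℕ → Fin N} {T : ℕ → ℕ → κ}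
  (V : World Y τ c0 w h cl T) {s s' : κ → Bool} {Mu Md M Mu' Md' M' : ℕ → ℕ}
include V

lemma sim (hM : Mats Y τ w h cl T s Mu Md M) (hM' : Mats Y τ w h cl T s' Mu' Md' M')
    (hS : Same2 w h Mu M Mu' M')
    (hag : ∀ k, (∀ i < w, ∀ j < 2 * h, k ≠ T i j) → (∀ c, k ≠ τ c) → s k = s' k) {n : ℕ} :
    ∀ {x : κ × Dir} {v : Fin N × Dir} {t : ℤ}, (∀ i < w, x.1 ≠ τ (cl i)) →
    ((∃ i < w, ∃ j < 2 * h, x.1 = T i j) → ∃ k < 2 * (2 * h + w), x = se T w (2 * h) k) →
    v.1 ∉ Pf w h cl Mu →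
    Pn (ps Y s (QP τ w h cl Mu)) (Y.dt s) (Off τ) n x (τ v.1, v.2) t →
    ∃ c', RelC w h cl Mu Mu' v.1 c' ∧
      PR (ps Y s' (QP τ w h cl Mu')) (Y.dt s') (Off τ) x (τ c', v.2) t := by
  have hh := V.h0
  induction n using Nat.strong_induction_on with
  | _ n ih =>
    intro x v t hxc hxB hv hn
    by_cases hB : ∃ i < w, ∃ j < 2 * h, x.1 = T i j
    · obtain ⟨k, hk, rfl⟩ := hxB hB
      have hkm : se T w (2 * h) k ∈ Bx' T w 0 (2 * h) := se_mem V.w0 (by omega) hk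
      rcases V.trans_port hM hM' hS hk with ⟨l, t1, ⟨hl, p⟩, ⟨-, p'⟩⟩ |
        ⟨i, i', d, t1, hR, ⟨hi, hp, p⟩, ⟨hi', hp', p'⟩⟩
      · obtain ⟨m, pm⟩ := p
        have hm := Pn.pos (n := m) (x := se T w (2 * h) k) pm hkm (V.out_B hl)
        have pm' : Pn (ps Y s (QP τ w h cl Mu)) (Y.dt s) (Off τ) m (se T w (2 * h) k)
          (Y.π (se T w (2 * h) l)) t1 := Pn.mono (fun z hz => V.AB_off hz) pm
        obtain ⟨hmn, hr⟩ := hn.rest (row_not_off _ _ _) pm'
        obtain ⟨c', hc', q⟩ := ih (n - m) (by omega) (x := Y.π (se T w (2 * h) l)) (v := v)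
          (fun i hi e => (V.oo l hl).2 i hi e)
          (fun ⟨i, hi, j, hj, e⟩ => absurd e ((V.oo l hl).1 i hi j hj)) hv hr
        refine ⟨c', hc', ?_⟩
        have q2 := (p'.mono (fun z hz => V.AB_off hz)).trans q
        convert q2 using 1
        ring
      · obtain ⟨m, pm⟩ := p
        have pm' : Pn (ps Y s (QP τ w h cl Mu)) (Y.dt s) (Off τ) m (se T w (2 * h) k)
          (τ (cl i), d) t1 := Pn.mono (fun z hz => V.AB_off hz) pm
        obtain ⟨-, e1, e2⟩ := hn.uniq pm' (row_not_off _ _ _) (row_not_off _ _ _)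
        have e3 : v.1 = cl i := V.τinj (congrArg (fun z : κ × Dir => z.1) e1)
        have e4 : v.2 = d := congrArg (fun z : κ × Dir => z.2) e1
        refine ⟨cl i', Or.inr ⟨i, i', hR, e3, rfl⟩, ?_⟩
        rw [e2, e4]
        exact p'.mono (fun z hz => V.AB_off hz)
    · rcases Nat.eq_zero_or_pos n with h0 | h0
      · subst h0
        have e1 : x = (τ v.1, v.2) := hn.1
        have e2 : t = 0 := by have := hn.2.2; simpa using this
        refine ⟨v.1, Or.inl ⟨rfl, ?_⟩, ?_⟩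
        · intro i hi e
          apply hxc i hi
          rw [e1, e]
        · rw [e1, e2]; exact PR.refl _
      · have hxo : x ∈ Off τ := hn.2.1 0 h0
        have hsx : s x.1 = s' x.1 := hag x.1 (fun i hi j hj e => hB ⟨i, hi, j, hj, e⟩) (fun c => hxo c)
        set y := Y.step s x with hy
        have hy' : Y.step s' x = y := by rw [hy]; unfold Net.step; rw [hsx]
        have hdt : Y.dt s' x = Y.dt s x := by unfold Net.dt; rw [hsx]
        have hback : (Y.π y).1 = x.1 := by rw [hy]; unfold Net.step; rw [V.inv]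
        have hyc : ∀ i < w, y.1 ≠ τ (cl i) := by
          intro i hi e
          have hcl := V.clv i hi
          have h1 := V.c1
          have h2 := V.c2
          obtain ⟨d, hd⟩ : ∃ d, y = (τ (cl i), d) := ⟨y.2, Prod.ext e rfl⟩
          rw [hd] at hback
          cases d
          · have h3 := V.row ⟨(cl i : ℕ) - 1, by omega⟩ (cl i) (by simp only; omega)
              (by simp only; omega) (by omega)
            rw [← h3, V.inv] at hback
            exact hxo _ hback.symm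
          · rw [V.up' i hi] at hback
            exact hB ⟨i, hi, h, by omega, hback.symm⟩
          · have h3 := V.row (cl i) ⟨(cl i : ℕ) + 1, by omega⟩ rfl (by omega) (by simp only; omega)
            rw [h3] at hback
            exact hxo _ hback.symm
          · rw [V.dn' i hi] at hback
            exact hB ⟨i, hi, h - 1, by omega, hback.symm⟩
        have hq : ∀ {Mu : ℕ → ℕ}, pas Y (QP τ w h cl Mu) y = y := by
          intro Mu
          apply pas_out
          rintro ⟨i, hi, e, -⟩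
          exact hyc i hi e
        have p1 : Pn (ps Y s (QP τ w h cl Mu)) (Y.dt s) (Off τ) 1 x y (Y.dt s x) := by
          refine ⟨?_, ?_, by simp⟩
          · rw [Function.iterate_one]; exact hq
          · intro i hi
            have : i = 0 := by omega
            subst this; exact hxo
        have p1' : PR (ps Y s' (QP τ w h cl Mu')) (Y.dt s') (Off τ) x y (Y.dt s x) := by
          refine PR.step hxo ?_ hdt
          unfold ps
          rw [hy']; exact hq
        obtain ⟨hmn, hr⟩ := hn.rest (row_not_off _ _ _) p1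
        obtain ⟨c', hc', q⟩ := ih (n - 1) (by omega) (x := y) (v := v) hyc (by
          rintro ⟨i, hi, j, hj, e⟩
          have e2 : y = (T i j, y.2) := Prod.ext e rfl
          obtain ⟨k, hk, hk2⟩ := V.port_of (d := y.2) hi hj
            (fun i' hi' j' hj' e' => hB ⟨i', hi', j', hj', by rw [← hback, e2]; exact e'⟩)
            (fun i' hi' e' => hxo (cl i') (by rw [← hback, e2]; exact e'))
          exact ⟨k, hk, e2.trans hk2⟩) hv hr
        refine ⟨c', hc', ?_⟩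
        have q2 := p1'.trans q
        convert q2 using 1
        ring

/-- **The strands from corresponding columns end at corresponding columns.** -/
lemma sim_col (hM : Mats Y τ w h cl T s Mu Md M) (hM' : Mats Y τ w h cl T s' Mu' Md' M')
    (hS : Same2 w h Mu M Mu' M')
    (hag : ∀ k, (∀ i < w, ∀ j < 2 * h, k ≠ T i j) → (∀ c, k ≠ τ c) → s k = s' k)
    {c c' : Fin N} (hcc : RelC w h cl Mu Mu' c c') {d : Dir}
    (hd : (∃ i < w, c = cl i) → d = .N ∨ d = .S)
    (hE : d = .E → ¬ (c0 - 1 ≤ (c : ℕ) ∧ (c : ℕ) < c0 + w))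
    (hW : d = .W → ¬ (c0 - 1 < (c : ℕ) ∧ (c : ℕ) ≤ c0 + w)) {v : Fin N × Dir} {t : ℤ}
    (hv : v.1 ∉ Pf w h cl Mu)
    (hp : PR (ps Y s (QP τ w h cl Mu)) (Y.dt s) (Off τ) (Y.π (τ c, d)) (τ v.1, v.2) t) :
    ∃ v', RelC w h cl Mu Mu' v.1 v' ∧
      PR (ps Y s' (QP τ w h cl Mu')) (Y.dt s') (Off τ) (Y.π (τ c', d)) (τ v', v.2) t := by
  have hh := V.h0
  rcases hcc with ⟨rfl, hc⟩ | ⟨i, i', hR, rfl, rfl⟩
  · obtain ⟨n, hn⟩ := hp
    refine V.sim hM hM' hS hag ?_ ?_ hv hn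
    · intro i hi e
      -- the wire from an outer column does not lead to a column of the box
      have hcl := V.clv i hi
      have h1 := V.c1
      have h2 := V.c2
      obtain ⟨d', hd'⟩ : ∃ d', Y.π (τ c', d) = (τ (cl i), d') := ⟨_, Prod.ext e rfl⟩
      have hb : Y.π (τ (cl i), d') = (τ c', d) := by rw [← hd', V.inv]
      cases d'
      · have h3 := V.row ⟨(cl i : ℕ) - 1, by omega⟩ (cl i) (by simp only; omega)
          (by simp only; omega) (by omega)
        rw [← h3, V.inv] at hb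
        have h4 := hE (congrArg Prod.snd hb).symm
        have h5 := V.τinj (congrArg (fun z : κ × Dir => z.1) hb)
        rw [← h5] at h4
        simp only at h4
        omega
      · rw [V.up' i hi] at hb
        exact V.Trow i hi h (by omega) c' (congrArg Prod.fst hb)
      · have h3 := V.row (cl i) ⟨(cl i : ℕ) + 1, by omega⟩ rfl (by omega) (by simp only; omega)
        rw [h3] at hb
        have h4 := hW (congrArg Prod.snd hb).symm
        have h5 := V.τinj (congrArg (fun z : κ × Dir => z.1) hb)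
        rw [← h5] at h4
        simp only at h4
        omega
      · rw [V.dn' i hi] at hb
        exact V.Trow i hi (h - 1) (by omega) c' (congrArg Prod.fst hb)
    · rintro ⟨i, hi, j, hj, e⟩
      have e2 : Y.π (τ c', d) = (T i j, (Y.π (τ c', d)).2) := Prod.ext e rfl
      have hb : Y.π (T i j, (Y.π (τ c', d)).2) = (τ c', d) := by rw [← e2, V.inv]
      obtain ⟨k, hk, hk2⟩ := V.port_of (d := (Y.π (τ c', d)).2) hi hj
        (fun i' hi' j' hj' e' => by
          rw [hb] at e'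
          exact V.Trow i' hi' j' hj' c' e'.symm)
        (fun i' hi' e' => by
          rw [hb] at e'
          exact hc i' hi' (V.τinj e'))
      exact ⟨k, hk, e2.trans hk2⟩
  · obtain ⟨hi, hi', hnp, heq⟩ := id hR
    have finish : ∀ {l : ℕ} {t1 : ℤ}, Lv Y τ w h cl T s Mu (Y.π (τ (cl i), d)) l t1 →
        Lv Y τ w h cl T s' Mu' (Y.π (τ (cl i'), d)) l t1 →
        ∃ v', RelC w h cl Mu Mu' v.1 v' ∧
          PR (ps Y s' (QP τ w h cl Mu')) (Y.dt s') (Off τ) (Y.π (τ (cl i'), d)) (τ v', v.2) t := by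
      rintro l t1 ⟨hl, p⟩ ⟨-, p'⟩
      obtain ⟨n, hn⟩ := hp
      obtain ⟨m, pm⟩ := p
      have pm' : Pn (ps Y s (QP τ w h cl Mu)) (Y.dt s) (Off τ) m (Y.π (τ (cl i), d))
        (Y.π (se T w (2 * h) l)) t1 := Pn.mono (fun z hz => V.AB_off hz) pm
      have hn' : Pn (ps Y s (QP τ w h cl Mu)) (Y.dt s) (Off τ) n (Y.π (τ (cl i), d))
        (τ v.1, v.2) t := hn
      obtain ⟨hmn, hr⟩ := hn'.rest (row_not_off _ _ _) pm'
      obtain ⟨c', hc', q⟩ := V.sim hM hM' hS hag (x := Y.π (se T w (2 * h) l)) (v := v)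
        (fun i hi e => (V.oo l hl).2 i hi e)
        (fun ⟨i, hi, j, hj, e⟩ => absurd e ((V.oo l hl).1 i hi j hj)) hv hr
      refine ⟨c', hc', ?_⟩
      have q2 := (p'.mono (fun z hz => V.AB_off hz)).trans q
      convert q2 using 1
      ring
    rcases hd ⟨i, hi, rfl⟩ with rfl | rfl
    · obtain ⟨l, t1, h1, h2⟩ := V.trans_up hM hM' hR
      rw [← V.up' i hi] at h1
      rw [← V.up' i' hi'] at h2
      exact finish h1 h2
    · rcases V.trans_down hM hM' hS hR with ⟨l, t1, h1, h2⟩ |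
        ⟨j, j', e, t1, hR', ⟨hj, hp', p⟩, ⟨hj', hp'', p'⟩⟩
      · rw [← V.dn' i hi] at h1
        rw [← V.dn' i' hi'] at h2
        exact finish h1 h2
      · obtain ⟨n, hn⟩ := hp
        obtain ⟨m, pm⟩ := p
        rw [V.dn' i hi] at hn
        have pm' : Pn (ps Y s (QP τ w h cl Mu)) (Y.dt s) (Off τ) m (T i (h - 1), Dir.N)
          (τ (cl j), e) t1 := Pn.mono (fun z hz => V.AB_off hz) pm
        have hn' : Pn (ps Y s (QP τ w h cl Mu)) (Y.dt s) (Off τ) n (T i (h - 1), Dir.N)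
          (τ v.1, v.2) t := hn
        obtain ⟨-, e1, e2⟩ := hn'.uniq pm' (row_not_off _ _ _) (row_not_off _ _ _)
        have e3 : v.1 = cl j := V.τinj (congrArg (fun z : κ × Dir => z.1) e1)
        have e4 : v.2 = e := congrArg (fun z : κ × Dir => z.2) e1
        refine ⟨cl j', Or.inr ⟨j, j', hR', e3, rfl⟩, ?_⟩
        rw [e2, e4, V.dn' i' hi']
        exact p'.mono (fun z hz => V.AB_off hz)

omit V in
lemma Rel.symm {i i' : ℕ} (hr : Rel w h Mu Mu' i i') : Rel w h Mu' Mu i' i := by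
  obtain ⟨h1, h2, h3, h4⟩ := hr
  refine ⟨h2, h1, ?_, h4.symm⟩
  unfold isP at h3 ⊢
  rw [← h4]; exact h3

omit V in
lemma Same2.symm (hS : Same2 w h Mu M Mu' M') : Same2 w h Mu' M' Mu M :=
  ⟨fun k hk => (hS.g k hk).symm, fun q hq ho => (hS.u q hq ho).symm⟩

/-- the partner of an exit column -/
lemma exRel (hM : Mats Y τ w h cl T s Mu Md M) (hM' : Mats Y τ w h cl T s' Mu' Md' M')
    (hS : Same2 w h Mu M Mu' M') {i : ℕ} (hi : i < w) (hp : ¬ isP w h Mu i) :
    Rel w h Mu Mu' i (Mu' (Mu (h + i)) - h) := by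
  have hk : h + i < 2 * (h + w) := by omega
  have hl := hM.u.lt _ hk
  have ho : Mu (h + i) < h ∨ h + w ≤ Mu (h + i) := by unfold isP at hp; omega
  have h1 : ¬ (Mu (Mu (h + i)) < h ∨ h + w ≤ Mu (Mu (h + i))) := by
    rw [hM.u.inv _ hk]; omega
  have h2 : ¬ (Mu' (Mu (h + i)) < h ∨ h + w ≤ Mu' (Mu (h + i))) := fun hh =>
    h1 ((hS.u _ hl ho).2 hh)
  refine ⟨hi, by omega, hp, ?_⟩
  have e : h + (Mu' (Mu (h + i)) - h) = Mu' (Mu (h + i)) := by omega
  rw [e, hM'.u.inv _ hl]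

lemma box_col {c : Fin N} (h1 : c0 ≤ (c : ℕ)) (h2 : (c : ℕ) < c0 + w) :
    ∃ i < w, c = cl i ∧ i = (c : ℕ) - c0 := by
  refine ⟨(c : ℕ) - c0, by omega, ?_, rfl⟩
  apply Fin.ext
  rw [V.clv _ (by omega)]; omega

lemma gc_spec (hM : Mats Y τ w h cl T s Mu Md M) (hM' : Mats Y τ w h cl T s' Mu' Md' M')
    (hS : Same2 w h Mu M Mu' M') {c : Fin N} (hc : c ∉ Pf w h cl Mu) :
    RelC w h cl Mu Mu' c (gc c0 w h cl Mu Mu' c) := by
  unfold gc
  by_cases hb : c0 ≤ (c : ℕ) ∧ (c : ℕ) < c0 + w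
  · rw [if_pos hb]
    obtain ⟨i, hi, e, e2⟩ := V.box_col hb.1 hb.2
    have hp : ¬ isP w h Mu i := fun hp => hc (mem_Pf.2 ⟨i, hi, e, hp⟩)
    right
    exact ⟨i, _, V.exRel hM hM' hS hi hp, e, by rw [e2]⟩
  · rw [if_neg hb]
    left
    refine ⟨rfl, ?_⟩
    intro i hi e
    apply hb
    rw [e, V.clv i hi]; omega

lemma relC_unique (_hM : Mats Y τ w h cl T s Mu Md M) (hM' : Mats Y τ w h cl T s' Mu' Md' M')
    {c d d' : Fin N} (h1 : RelC w h cl Mu Mu' c d) (h2 : RelC w h cl Mu Mu' c d') : d = d' := by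
  rcases h1 with ⟨e1, n1⟩ | ⟨i, i', ⟨hi, hi', hp, heq⟩, e1, e1'⟩ <;>
    rcases h2 with ⟨e2, n2⟩ | ⟨j, j', ⟨hj, hj', hq, heq'⟩, e2, e2'⟩
  · rw [e1, e2]
  · exact absurd e2 (n1 j hj)
  · exact absurd e1 (n2 i hi)
  · have e3 : i = j := V.clinj hi hj (e1.symm.trans e2)
    subst e3
    have e4 : h + i' = h + j' := hM'.u.inj (by omega) (by omega) (heq.symm.trans heq')
    rw [e1', e2', show i' = j' by omega]

lemma relC_symm {c d : Fin N} (h1 : RelC w h cl Mu Mu' c d) : RelC w h cl Mu' Mu d c := by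
  rcases h1 with ⟨e1, n1⟩ | ⟨i, i', hR, e1, e1'⟩
  · exact Or.inl ⟨e1.symm, by rw [e1]; exact n1⟩
  · exact Or.inr ⟨i', i, hR.symm, e1', e1⟩

lemma relC_out {c d : Fin N} (h1 : RelC w h cl Mu Mu' c d) : c ∉ Pf w h cl Mu := by
  rcases h1 with ⟨e1, n1⟩ | ⟨i, i', ⟨hi, hi', hp, heq⟩, e1, e1'⟩
  · intro hc
    obtain ⟨i, hi, e, -⟩ := mem_Pf.1 hc
    exact n1 i hi e
  · rw [e1]
    exact fun hc => hp ((V.cl_Pf hi).1 hc)

/-- the correspondence preserves the order -/
lemma relC_lt (hM : Mats Y τ w h cl T s Mu Md M) (hM' : Mats Y τ w h cl T s' Mu' Md' M')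
    {c c' d d' : Fin N} (h1 : RelC w h cl Mu Mu' c d) (h2 : RelC w h cl Mu Mu' c' d')
    (hlt : c < c') : d < d' := by
  rcases h1 with ⟨e1, n1⟩ | ⟨i, i', ⟨hi, hi', hp, heq⟩, e1, e1'⟩ <;>
    rcases h2 with ⟨e2, n2⟩ | ⟨j, j', ⟨hj, hj', hq, heq'⟩, e2, e2'⟩
  · rw [e1, e2]; exact hlt
  · rw [e1, e2']
    rw [e2, Fin.lt_def, V.clv j hj] at hlt
    rw [Fin.lt_def, V.clv j' hj']
    by_contra hcon
    obtain ⟨k, hk, e, -⟩ := V.box_col (c := c) (by omega) (by omega)
    exact n1 k hk e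
  · rw [e2, e1']
    rw [e1, Fin.lt_def, V.clv i hi] at hlt
    rw [Fin.lt_def, V.clv i' hi']
    by_contra hcon
    obtain ⟨k, hk, e, -⟩ := V.box_col (c := c') (by omega) (by omega)
    exact n2 k hk e
  · rw [e1, e2, Fin.lt_def, V.clv i hi, V.clv j hj] at hlt
    rw [e1', e2', Fin.lt_def, V.clv i' hi', V.clv j' hj']
    have hij : i < j := by omega
    have ki : h + i < 2 * (h + w) := by omega
    have kj : h + j < 2 * (h + w) := by omega
    have ki' : h + i' < 2 * (h + w) := by omega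
    have kj' : h + j' < 2 * (h + w) := by omega
    have o1 : Mu (h + i) < h ∨ h + w ≤ Mu (h + i) := by unfold isP at hp; omega
    have o2 : Mu (h + j) < h ∨ h + w ≤ Mu (h + j) := by unfold isP at hq; omega
    have hne : i' ≠ j' := by
      intro hh
      rw [hh, ← heq'] at heq
      have := hM.u.inj ki kj heq
      omega
    have nc := hM.u.nc (h + i) ki (h + j) kj (by omega) (by omega)
    have nc' := hM'.u.nc (h + i') ki' (h + j') kj' (by omega) (by rw [← heq]; omega)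
    rw [← heq, ← heq'] at nc'
    have b1 : (h + j < Mu (h + i)) ↔ (h + j' < Mu (h + i)) := by
      rcases o1 with o | o
      · exact ⟨fun _ => by omega, fun _ => by omega⟩
      · exact ⟨fun _ => by omega, fun _ => by omega⟩
    have b2 : (Mu (h + j) < h + i) ↔ (Mu (h + j) < h + i') := by
      rcases o2 with o | o
      · exact ⟨fun _ => by omega, fun _ => by omega⟩
      · exact ⟨fun _ => by omega, fun _ => by omega⟩
    rw [b1, b2] at nc
    have b3 : ¬ (h + j < h + i) := by omega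
    have b4 : (h + j < h + i ↔ h + j' < Mu (h + i)) ↔ (h + j' < h + i' ↔ h + j' < Mu (h + i)) :=
      nc.trans nc'.symm
    have b5 : ¬ (h + j' < h + i') := by
      intro hcon
      by_cases hm : h + j' < Mu (h + i)
      · exact b3 ((b4.2 ⟨fun _ => hm, fun _ => hcon⟩).2 hm)
      · exact hm ((b4.1 ⟨fun hh => absurd hh b3, fun hh => absurd hh hm⟩).1 hcon)
    omega

/-- the correspondence of all columns -/
lemma exists_rho (hM : Mats Y τ w h cl T s Mu Md M) (hM' : Mats Y τ w h cl T s' Mu' Md' M')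
    (hS : Same2 w h Mu M Mu' M') : ∃ ρ : Fin N ≃ Fin N,
      (∀ c, c ∉ Pf w h cl Mu → RelC w h cl Mu Mu' c (ρ c)) ∧
      ∀ c, c ∈ Pf w h cl Mu ↔ ρ c ∈ Pf w h cl Mu' := by
  classical
  have g1 := fun c (hc : c ∉ Pf w h cl Mu) => V.gc_spec hM hM' hS hc
  have g2 := fun c (hc : c ∉ Pf w h cl Mu') => V.gc_spec hM' hM hS.symm hc
  let e : {c : Fin N // c ∉ Pf w h cl Mu} ≃ {c : Fin N // c ∉ Pf w h cl Mu'} :=
    { toFun := fun c => ⟨gc c0 w h cl Mu Mu' c.1, V.relC_out (V.relC_symm (g1 c.1 c.2))⟩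
      invFun := fun c => ⟨gc c0 w h cl Mu' Mu c.1, V.relC_out (V.relC_symm (g2 c.1 c.2))⟩
      left_inv := fun c => Subtype.ext (V.relC_unique hM' hM
        (g2 _ (V.relC_out (V.relC_symm (g1 c.1 c.2)))) (V.relC_symm (g1 c.1 c.2)))
      right_inv := fun c => Subtype.ext (V.relC_unique hM hM'
        (g1 _ (V.relC_out (V.relC_symm (g2 c.1 c.2)))) (V.relC_symm (g2 c.1 c.2))) }
  refine ⟨e.extendSubtype, ?_, ?_⟩
  · intro c hc
    rw [e.extendSubtype_apply_of_mem c hc]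
    exact g1 c hc
  · intro c
    constructor
    · intro hc
      have := e.extendSubtype_not_mem c (not_not.2 hc)
      exact not_not.1 this
    · intro hc
      by_contra hcon
      exact e.extendSubtype_mem c hcon hc

/-- the strands of the roots end at corresponding columns -/
lemma root_sim (hM : Mats Y τ w h cl T s Mu Md M) (hM' : Mats Y τ w h cl T s' Mu' Md' M')
    (hS : Same2 w h Mu M Mu' M')
    (hag : ∀ k, (∀ i < w, ∀ j < 2 * h, k ≠ T i j) → (∀ c, k ≠ τ c) → s k = s' k)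
    {X X' : Net (Fin N)} (hI : Ind Y s τ X) (hI' : Ind Y s' τ X') {ρ0 : κ × Dir} {r r' : ℤ}
    (hR : Rt Y s τ w h cl T X ρ0 r) (hR' : Rt Y s' τ w h cl T X' ρ0 r')
    (hn : Nr w h cl Mu X) (hn' : Nr w h cl Mu' X') {v : Fin N × Dir} {t : ℤ}
    (hg : GlE X (Pf w h cl Mu) (Uf c0 h cl Mu) X.x0 v t) :
    ∃ c' t', RelC w h cl Mu Mu' v.1 c' ∧
      GlE X' (Pf w h cl Mu') (Uf c0 h cl Mu') X'.x0 (c', v.2) t' ∧ r + t = r' + t' := by
  have hA := V.arcs hM hI hn
  have hA' := V.arcs hM' hI' hn'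
  obtain ⟨n, hn1⟩ := V.rootPR hM hI hA hR hg
  obtain ⟨c', hc', q⟩ := V.sim hM hM' hS hag (x := ρ0) (v := v) hR.nc
    (fun ⟨i, hi, j, hj, e⟩ => absurd e (hR.nb i hi j hj)) hg.notMem hn1
  have hc'P : c' ∉ Pf w h cl Mu' := by
    rcases hc' with ⟨e1, n1⟩ | ⟨i, i', ⟨hi, hi', hp, heq⟩, e1, e1'⟩
    · intro hc
      obtain ⟨i, hi, e, -⟩ := mem_Pf.1 hc
      exact n1 i hi (by rw [← e1, e])
    · rw [e1']
      intro hc
      have := (V.cl_Pf (Mu := Mu') hi').1 hc
      apply hp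
      unfold isP at this ⊢
      rw [heq]; exact this
  obtain ⟨v2, t2, hg2⟩ := V.exRoot hM' hI' hA' hR' hn' (v := (c', v.2)) hc'P q
  have q2 := V.rootPR hM' hI' hA' hR' hg2
  obtain ⟨e1, e2⟩ := q2.uniq q (row_not_off _ _ _) (row_not_off _ _ _)
  have e3 : v2.1 = c' := V.τinj (congrArg (fun z : κ × Dir => z.1) e1)
  have e4 : v2.2 = v.2 := congrArg (fun z : κ × Dir => z.2) e1
  have e5 : v2 = (c', v.2) := Prod.ext e3 e4
  rw [e5] at hg2
  exact ⟨c', t2, hc', hg2, e2.symm⟩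

/-- no end of the strand of the root -/
lemma noE {X : Net (Fin N)} (hA : Arcs X (Pf w h cl Mu) (Uf c0 h cl Mu)) (hI : Ind Y s τ X)
    (hn : Nr w h cl Mu X) (hex : ¬ ∃ v t, GlE X (Pf w h cl Mu) (Uf c0 h cl Mu) X.x0 v t) :
    ∀ v t, ¬ En X (can (Uf c0 h cl Mu)) (Pf w h cl Mu)ᶜ X.x0 v t := by
  intro v t he
  obtain ⟨k, k1, k2, -⟩ := he.ex
  apply hex
  refine Arcs_enG hA hI.inv hI.tn (V.isRow hI) V.c2 (fun c hc => V.Pf_int hc) k1
    (mem_compl.1 he.mem) (fun i hi => ?_) hn.toS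
  have := k2 i hi
  rw [mem_compl, not_not] at this
  exact this

/-- **The strand of the root meets the row in one configuration but not in the other.** -/
theorem box_zero (hM : Mats Y τ w h cl T s Mu Md M) (hM' : Mats Y τ w h cl T s' Mu' Md' M')
    (hS : Same2 w h Mu M Mu' M')
    (hag : ∀ k, (∀ i < w, ∀ j < 2 * h, k ≠ T i j) → (∀ c, k ≠ τ c) → s k = s' k)
    {X : Net (Fin N)} (hI : Ind Y s τ X) {ρ0 : κ × Dir} {r : ℤ}
    (hR : Rt Y s τ w h cl T X ρ0 r) (hR' : Rn Y s' τ w h cl T ρ0)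
    (hy0 : ∀ i < w, X.y0.1 ≠ cl i) {A B : ℂ} (hAB : Over A B) {a b : Fin N → ℂ}
    (hab : ∀ c ∈ Pf w h cl Mu, a c = A ∧ b c = B) (φ : ℤ → ℂ) : ZF X φ a b = 0 := by
  have hn : Nr w h cl Mu X := Rt.nr V hM hR hy0
  have hA := V.arcs hM hI hn
  have hex : ¬ ∃ v t, GlE X (Pf w h cl Mu) (Uf c0 h cl Mu) X.x0 v t := by
    rintro ⟨v, t, hg⟩
    obtain ⟨n, hn1⟩ := V.rootPR hM hI hA hR hg
    obtain ⟨c', hc', q⟩ := V.sim hM hM' hS hag (x := ρ0) (v := v) hR.nc
      (fun ⟨i, hi, j, hj, e⟩ => absurd e (hR.nb i hi j hj)) hg.notMem hn1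
    exact Rn.no V hR' (v := (c', v.2)) q
  rw [freeze_all hA hAB hI.inv hI.tn φ a b _ _ rfl Subset.rfl hA.mem
    (fun c hc z h1 h2 => (hA.nest c hc z h1 h2).1) hab]
  have hyP : X.y0.1 ∉ Pf w h cl Mu := fun hh => by
    obtain ⟨i, hi, e, -⟩ := mem_Pf.1 hh
    exact hy0 i hi e
  refine ZF_root0 (s0 := can (Uf c0 h cl Mu)) (Q := (Pf w h cl Mu)ᶜ) ?_ (mem_compl.2 hyP)
    (V.noE hA hI hn hex) φ
  exact frz_of hA a b

/-- **Equal state sums.** Two configurations which agree outside the box and whose glued box has the same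
strands, seen from outside, have the same state sums, if the weights of the exit columns correspond. -/
theorem box_eq (hM : Mats Y τ w h cl T s Mu Md M) (hM' : Mats Y τ w h cl T s' Mu' Md' M')
    (hS : Same2 w h Mu M Mu' M')
    (hag : ∀ k, (∀ i < w, ∀ j < 2 * h, k ≠ T i j) → (∀ c, k ≠ τ c) → s k = s' k)
    {X X' : Net (Fin N)} (hI : Ind Y s τ X) (hI' : Ind Y s' τ X') {ρ0 : κ × Dir} {r r' : ℤ}
    (hR : Rt Y s τ w h cl T X ρ0 r) (hR' : Rt Y s' τ w h cl T X' ρ0 r')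
    (hy : X.y0 = X'.y0) (hy0 : ∀ i < w, X.y0.1 ≠ cl i) {A B : ℂ} (hAB : Over A B) {a b a' b' : Fin N → ℂ}
    (hab : ∀ c ∈ Pf w h cl Mu, a c = A ∧ b c = B) (hab' : ∀ c ∈ Pf w h cl Mu', a' c = A ∧ b' c = B)
    (hQ : ∀ c c', RelC w h cl Mu Mu' c c' → a c = a' c' ∧ b c = b' c') (φ : ℤ → ℂ) :
    ZF X (fun k => φ (k + r)) a b = ZF X' (fun k => φ (k + r')) a' b' := by
  have hn : Nr w h cl Mu X := Rt.nr V hM hR hy0
  have hn' : Nr w h cl Mu' X' := Rt.nr V hM' hR' (by rw [← hy]; exact hy0)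
  have hA := V.arcs hM hI hn
  have hA' := V.arcs hM' hI' hn'
  have hr := V.isRow hI
  have hr' := V.isRow hI'
  have hN := V.c2
  have hc1 := V.c1
  obtain ⟨ρ, hρ1, hρ2⟩ := V.exists_rho hM hM' hS
  have hρP : ∀ c, c ∉ Pf w h cl Mu → ρ c ∉ Pf w h cl Mu' := fun c hc hh => hc ((hρ2 c).2 hh)
  have out : ∀ c : Fin N, (∀ i < w, c ≠ cl i) → c ∉ Pf w h cl Mu ∧ ρ c = c := by
    intro c hc
    have h1 : c ∉ Pf w h cl Mu := fun hh => by
      obtain ⟨i, hi, e, -⟩ := mem_Pf.1 hh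
      exact hc i hi e
    refine ⟨h1, ?_⟩
    rcases hρ1 c h1 with ⟨e, -⟩ | ⟨i, i', ⟨hi, -⟩, e, -⟩
    · exact e
    · exact absurd e (hc i hi)
  have yt : ∀ c d, c ∉ Pf w h cl Mu → Y.t (τ c, d) = Y.t (τ (ρ c), d) := by
    intro c d hc
    rcases hρ1 c hc with ⟨e, -⟩ | ⟨i, i', ⟨hi, hi', -⟩, e, e'⟩
    · rw [e]
    · rw [e', e, V.tr i hi, V.tr i' hi']
  -- the strands
  have strand : ∀ (c : Fin N) (d : Dir), c ∉ Pf w h cl Mu → ((∃ i < w, c = cl i) → d = .N ∨ d = .S) →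
      (d = .E → ¬ (c0 - 1 ≤ (c : ℕ) ∧ (c : ℕ) < c0 + w)) →
      (d = .W → ¬ (c0 - 1 < (c : ℕ) ∧ (c : ℕ) ≤ c0 + w)) →
      ∃ v t t', GlE X (Pf w h cl Mu) (Uf c0 h cl Mu) (X.π (c, d)) v t ∧
        GlE X' (Pf w h cl Mu') (Uf c0 h cl Mu') (X'.π (ρ c, d)) (relE ρ v) t' ∧
        X.t (c, d) + t = X'.t (ρ c, d) + t' := by
    intro c d hc hd hE hW
    obtain ⟨v, t, hg⟩ := Arcs_exE hA hI.inv hr V.c2 (fun c hc => V.Pf_int hc) hc hE hW
    have hE' : d = .E → ¬ (c0 - 1 ≤ ((ρ c : Fin N) : ℕ) ∧ ((ρ c : Fin N) : ℕ) < c0 + w) := by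
      intro hd2
      have h1 := hE hd2
      rw [(out c (fun i hi e => by have := V.clv i hi; rw [← e] at this; omega)).2]
      exact h1
    have hW' : d = .W → ¬ (c0 - 1 < ((ρ c : Fin N) : ℕ) ∧ ((ρ c : Fin N) : ℕ) ≤ c0 + w) := by
      intro hd2
      have h1 := hW hd2
      rw [(out c (fun i hi e => by have := V.clv i hi; rw [← e] at this; omega)).2]
      exact h1
    obtain ⟨v', t', hg'⟩ := Arcs_exE hA' hI'.inv hr' V.c2 (fun c hc => V.Pf_int hc) (hρP c hc) hE' hW'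
    have p := V.toPR hM hI hA hg (c := c) (d := d) rfl
    have p' := V.toPR hM' hI' hA' hg' (c := ρ c) (d := d) rfl
    obtain ⟨v1, hv1, p2⟩ := V.sim_col hM hM' hS hag (hρ1 c hc) hd hE hW hg.notMem p
    obtain ⟨e1, e2⟩ := p'.uniq p2 (row_not_off _ _ _) (row_not_off _ _ _)
    have e3 : v'.1 = v1 := V.τinj (congrArg (fun z : κ × Dir => z.1) e1)
    have e4 : v'.2 = v.2 := congrArg (fun z : κ × Dir => z.2) e1
    have e5 : v' = relE ρ v := by
      refine Prod.ext ?_ e4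
      rw [e3]
      exact V.relC_unique hM hM' hv1 (hρ1 _ hg.notMem)
    rw [e5] at hg'
    refine ⟨v, t, t', hg, hg', ?_⟩
    have := yt c d hc
    linarith
  have te0 : ∀ n : ℕ, c0 - 1 ≤ n → n < c0 + w → TE X n = TE X' n := by
    intro n g1 g2
    obtain ⟨c, hc⟩ : ∃ c : Fin N, (c : ℕ) = n := ⟨⟨n, by omega⟩, rfl⟩
    obtain ⟨c', hc'⟩ : ∃ c' : Fin N, (c' : ℕ) = c + 1 :=
      ⟨⟨n + 1, by omega⟩, by simp only; omega⟩
    rw [← hc, TE_eq, TE_eq, (V.rowX hI hc' (by omega) (by omega)).2,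
      (V.rowX hI' hc' (by omega) (by omega)).2]
  have pre : ∀ c : Fin N, c0 - 1 ≤ (c : ℕ) → (c : ℕ) ≤ c0 + w → c ∉ Pf w h cl Mu →
      ∑ n ∈ Ico (c0 - 1) (c : ℕ), TE X n = ∑ n ∈ Ico (c0 - 1) (ρ c : ℕ), TE X' n := by
    intro c g1 g2 hc
    have e0 : ∀ m : ℕ, m ≤ c0 + w →
        ∑ n ∈ Ico (c0 - 1) m, TE X n = ∑ n ∈ Ico (c0 - 1) m, TE X' n := fun m hm =>
      sum_congr rfl fun n hn => te0 n (mem_Ico.1 hn).1 (by have := (mem_Ico.1 hn).2; omega)
    rcases hρ1 c hc with ⟨e, -⟩ | ⟨i, i', ⟨hi, hi', -⟩, e, e'⟩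
    · rw [e]; exact e0 _ g2
    · have z : ∀ i < w, ∑ n ∈ Ico (c0 - 1) (c0 + i), TE X' n =
          ∑ n ∈ Ico (c0 - 1) c0, TE X' n := by
        intro i hi
        rw [← Finset.sum_Ico_consecutive _ (show c0 - 1 ≤ c0 by omega)
          (show c0 ≤ c0 + i by omega)]
        rw [add_eq_left]
        apply sum_eq_zero
        intro n hn
        rw [mem_Ico] at hn
        exact V.TE0 hI' hn.1 (by omega)
      rw [e0 _ g2, e', e, V.clv i hi, V.clv i' hi', z i hi, z i' hi']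
  have fix : ∀ c : Fin N, (c : ℕ) ≤ c0 - 1 ∨ c0 + w ≤ (c : ℕ) → ρ c = c := by
    intro c hc
    have hb : ∀ i < w, c ≠ cl i := fun i hi e => by
      have := V.clv i hi; rw [← e] at this; omega
    exact (out c hb).2
  have rge : ∀ q : Fin N, c0 - 1 ≤ (q : ℕ) → c0 - 1 ≤ (ρ q : ℕ) := by
    intro q h1
    by_contra h3
    rw [not_le] at h3
    have h4 := ρ.injective (fix _ (Or.inl h3.le))
    rw [h4] at h3
    omega
  have hcmp : Cmp3 (c0 - 1) (c0 + w) X X' (Pf w h cl Mu) (Pf w h cl Mu') (Uf c0 h cl Mu)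
      (Uf c0 h cl Mu') ρ r r' := by
    refine ⟨by omega, hN, hA, hA', hr, hr', hρ2, fun c hc => V.Pf_int hc, fix, ?_, ?_, ?_, ?_, ?_,
      ?_, ?_, ?_⟩
    · intro c d _ _ hc hd hlt
      exact V.relC_lt hM hM' (hρ1 c hc) (hρ1 d hd) hlt
    · intro c hc
      have hb : ∀ i < w, c ≠ cl i := fun i hi e => by
        have := V.clv i hi; rw [← e] at this; omega
      obtain ⟨h1, h2⟩ := out c hb
      have := strand c .W h1 (fun ⟨i, hi, e⟩ => absurd e (hb i hi)) (fun hh => absurd hh (by decide))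
        (fun _ => by omega)
      rw [h2] at this
      exact this
    · intro c hc
      have hb : ∀ i < w, c ≠ cl i := fun i hi e => by
        have := V.clv i hi; rw [← e] at this; omega
      obtain ⟨h1, h2⟩ := out c hb
      have := strand c .E h1 (fun ⟨i, hi, e⟩ => absurd e (hb i hi)) (fun _ => by omega)
        (fun hh => absurd hh (by decide))
      rw [h2] at this
      exact this
    · intro c d g1 g2 hc hd hlt
      have hlt' : (c : ℕ) < (d : ℕ) := hlt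
      have h1 := V.relC_lt hM hM' (hρ1 c hc) (hρ1 d hd) hlt
      have h1' : (ρ c : ℕ) < (ρ d : ℕ) := h1
      have p1 := pre c g1 (by omega) hc
      have p2 := pre d (by omega) g2 hd
      rw [← Finset.sum_Ico_consecutive _ g1 hlt'.le,
        ← Finset.sum_Ico_consecutive _ (rge c g1) h1'.le, p1] at p2
      exact add_left_cancel p2
    · intro c hc d hd
      have k1 : d ≠ .E := by rcases hd with rfl | rfl <;> decide
      have k2 : d ≠ .W := by rcases hd with rfl | rfl <;> decide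
      exact strand c d hc (fun _ => hd) (fun hh => absurd hh k1) (fun hh => absurd hh k2)
    · by_cases hex : ∃ v t, GlE X (Pf w h cl Mu) (Uf c0 h cl Mu) X.x0 v t
      · left
        obtain ⟨v, t, hg⟩ := hex
        obtain ⟨c', t', hc', hg', ht⟩ := V.root_sim hM hM' hS hag hI hI' hR hR' hn hn' hg
        refine ⟨v, t, t', hg, ?_, ht⟩
        have e : relE ρ v = (c', v.2) :=
          Prod.ext (V.relC_unique hM hM' (hρ1 _ hg.notMem) hc') rfl
        rw [e]; exact hg'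
      · right
        have hex' : ¬ ∃ v t, GlE X' (Pf w h cl Mu') (Uf c0 h cl Mu') X'.x0 v t := by
          rintro ⟨v, t, hg⟩
          obtain ⟨c', t', hc', hg', ht⟩ := V.root_sim hM' hM hS.symm
            (fun k h1 h2 => (hag k h1 h2).symm) hI' hI hR' hR hn' hn hg
          exact hex ⟨_, _, hg'⟩
        exact ⟨V.noE hA hI hn hex, V.noE hA' hI' hn' hex'⟩
    · rw [← hy]
      exact Prod.ext (out _ hy0).2 rfl
    · exact (out _ hy0).1
  exact hcmp.eq hAB hI.inv hI.tn hI'.inv hI'.tn hab hab' (fun c hc => hQ c _ (hρ1 c hc)) φ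

end

end Pool.Agent.H39.WB.World
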