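import Mathlib
import Pool.Agent.H39.W.B.Vis
import Pool.Agent.H69.M6b.TwoPort

set_option autoImplicit false
set_option linter.unusedSectionVars false
set_option linter.unusedVariables false
set_option linter.unusedVariables false
open Finset

/-! # Two ports: the amplitude with a coupon in the inner part of the box -/

namespace Pool.Agent.H39.WB

open Pool.Agent.H69.M6b Pool.Agent.H69.M6b.World

open Pool.Agent.H81.G1

variable {κ : Type*} {N : ℕ}

namespace World

variable {Y : Net κ} {τ : Fin N → κ} {c0 w h : ℕ} {cl : ℕ → Fin N} {T : ℕ → ℕ → κ}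

section
variable (V : World Y τ c0 w h cl T) {s s' : κ → Bool} {Mu Md M Nu Nd M2 : ℕ → ℕ}
  {Mu' Md' M' Nu' Nd' M2' : ℕ → ℕ} {I : κ → Prop} {k0 k1 : ℕ}
include V

omit V in
lemma ps_congr {x : κ × Dir} (hx : s x.1 = s' x.1) (Q : κ → Prop) : ps Y s Q x = ps Y s' Q x := by
  unfold ps Net.step; rw [hx]

omit V in
lemma dt_congr {x : κ × Dir} (hx : s x.1 = s' x.1) : Y.dt s x = Y.dt s' x := by
  unfold Net.dt; rw [hx]

omit V in
lemma iter_cg {D : Type*} {f g : D → D} {n : ℕ} {x : D} (hfg : ∀ i < n, f (f^[i] x) = g (f^[i] x)) :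
    ∀ i ≤ n, g^[i] x = f^[i] x := by
  intro i
  induction i with
  | zero => intro _; rfl
  | succ i ih =>
    intro hi
    rw [Function.iterate_succ_apply', ih (by omega), Function.iterate_succ_apply', hfg i (by omega)]

omit V in
lemma Ag.symm (hag : Ag τ I s s') : Ag τ I s' s := fun k h1 h2 => (hag k h1 h2).symm

/-- a strand which does not visit `I` -/
lemma same_iter (hag : Ag τ I s s') {k n : ℕ} (hk : k < 2 * (2 * h + w))
    (hv : ¬ Vi Y τ w h cl T I s k)
    (hn : ∀ i < n, (ps Y s (Qb τ w cl))^[i] (se T w (2 * h) k) ∈ Bx' T w 0 (2 * h)) :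
    ∀ i ≤ n, (ps Y s' (Qb τ w cl))^[i] (se T w (2 * h) k) =
      (ps Y s (Qb τ w cl))^[i] (se T w (2 * h) k) := by
  apply iter_cg
  intro i hi
  apply ps_congr
  apply hag
  · intro hI
    exact hv ⟨i, fun j hj => hn j (by omega), hI⟩
  · exact fun c => V.AB_row (hn i hi) c

lemma same_pn (hag : Ag τ I s s') {k n : ℕ} (hk : k < 2 * (2 * h + w))
    (hv : ¬ Vi Y τ w h cl T I s k) {y : κ × Dir} {t : ℤ}
    (hn : Pn (ps Y s (Qb τ w cl)) (Y.dt s) (Bx' T w 0 (2 * h)) n (se T w (2 * h) k) y t) :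
    Pn (ps Y s' (Qb τ w cl)) (Y.dt s') (Bx' T w 0 (2 * h)) n (se T w (2 * h) k) y t := by
  have h1 := V.same_iter hag hk hv hn.2.1
  refine ⟨by rw [h1 n le_rfl]; exact hn.1, fun i hi => by rw [h1 i hi.le]; exact hn.2.1 i hi, ?_⟩
  rw [hn.2.2]
  refine sum_congr rfl fun i hi => ?_
  rw [mem_range] at hi
  rw [h1 i hi.le]
  apply dt_congr
  apply hag
  · intro hI
    exact hv ⟨i, fun j hj => hn.2.1 j (by omega), hI⟩
  · exact fun c => V.AB_row (hn.2.1 i hi) c

lemma same_M (hM : Mats Y τ w h cl T s Mu Md M) (hM' : Mats Y τ w h cl T s' Mu' Md' M')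
    (hag : Ag τ I s s') {k : ℕ} (hk : k < 2 * (2 * h + w)) (hv : ¬ Vi Y τ w h cl T I s k) :
    M' k = M k := by
  obtain ⟨n, hn⟩ := V.full hM hk
  obtain ⟨n', hn'⟩ := V.full hM' hk
  obtain ⟨-, e, -⟩ := hn'.uniq (V.same_pn hag hk hv hn) (V.out_B (hM'.g.lt k hk))
    (V.out_B (hM.g.lt k hk))
  exact V.se_inj (hM'.g.lt k hk) (hM.g.lt k hk) (V.pi_inj e)

lemma Vi.congr (hM : Mats Y τ w h cl T s Mu Md M) (hag : Ag τ I s s') {k : ℕ}
    (hk : k < 2 * (2 * h + w)) (hv : ¬ Vi Y τ w h cl T I s k) : ¬ Vi Y τ w h cl T I s' k := by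
  rintro ⟨n, h1, h2⟩
  obtain ⟨m, hm⟩ := V.full hM hk
  have h3 := V.same_iter hag hk hv hm.2.1
  have hnm : n < m := by
    by_contra hc
    have h4 := h1 m (by omega)
    rw [h3 m le_rfl, hm.1] at h4
    exact V.out_B (hM.g.lt k hk) h4
  refine hv ⟨n, fun i hi => hm.2.1 i (by omega), ?_⟩
  rw [← h3 n hnm.le]
  exact h2

lemma Two.congr (hM : Mats Y τ w h cl T s Mu Md M) (hag : Ag τ I s s')
    (hT : Two Y τ w h cl T I s k0 k1) : Two Y τ w h cl T I s' k0 k1 := by
  refine ⟨hT.lt0, hT.lt1, ?_⟩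
  intro k hk hv
  by_contra hcon
  exact Vi.congr V hM hag hk (fun hh => hcon (hT.two k hk hh)) hv

/-- the matching of the glued box does not depend on `I` -/
lemma Two.M_eq (hM : Mats Y τ w h cl T s Mu Md M) (hM' : Mats Y τ w h cl T s' Mu' Md' M')
    (hag : Ag τ I s s') (hT : Two Y τ w h cl T I s k0 k1) :
    ∀ k < 2 * (2 * h + w), M' k = M k := by
  have key : ∀ k < 2 * (2 * h + w), k ≠ k0 → k ≠ k1 → M' k = M k := fun k hk h1 h2 =>
    V.same_M hM hM' hag hk fun hv => by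
      rcases hT.two k hk hv with h | h
      · exact h1 h
      · exact h2 h
  intro k hk
  by_cases hkk : k ≠ k0 ∧ k ≠ k1
  · exact key k hk hkk.1 hkk.2
  have hl := hM.g.lt k hk
  have hl' := hM'.g.lt k hk
  by_cases h1 : M k ≠ k0 ∧ M k ≠ k1
  · have := key (M k) hl h1.1 h1.2
    rw [hM.g.inv k hk] at this
    have h2 := hM'.g.inv (M k) hl
    rw [this] at h2
    exact h2
  · by_cases h3 : M' k ≠ k0 ∧ M' k ≠ k1
    · have := key (M' k) hl' h3.1 h3.2
      rw [hM'.g.inv k hk] at this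
      have h4 := hM.g.inv (M' k) hl'
      rw [← this] at h4
      exact h4.symm
    · have n1 := hM.g.ne k hk
      have n2 := hM'.g.ne k hk
      have a1 : k = k0 ∨ k = k1 := by
        by_contra hc; push Not at hc; exact hkk hc
      have a2 : M k = k0 ∨ M k = k1 := by
        by_contra hc; push Not at hc; exact h1 hc
      have a3 : M' k = k0 ∨ M' k = k1 := by
        by_contra hc; push Not at hc; exact h3 hc
      rcases a1 with a1 | a1 <;> rcases a2 with a2 | a2 <;> rcases a3 with a3 | a3 <;> omega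

/-- the upper strands from the other ports -/
lemma same_Mu (hM : Mats Y τ w h cl T s Mu Md M) (hM' : Mats Y τ w h cl T s' Mu' Md' M')
    (hag : Ag τ I s s') {q : ℕ} (hq : q < 2 * (h + w)) (ho : q < h ∨ h + w ≤ q)
    (hv : ¬ Vi Y τ w h cl T I s (eu h q)) : Mu' q = Mu q := by
  have hh := V.h0
  obtain ⟨n, hn⟩ := hM.u.path q hq
  have hn1 : Pn (Y.step s) (Y.dt s) (Bx' (Tu T h) w 0 h) n (se (Tu T h) w h q)
      (Y.π (se (Tu T h) w h (Mu q))) (tt (h + w) (Kp w h) q (Mu q)) := hn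
  obtain ⟨n', hn'⟩ := hM'.u.path q hq
  have hn1' : Pn (Y.step s') (Y.dt s') (Bx' (Tu T h) w 0 h) n' (se (Tu T h) w h q)
      (Y.π (se (Tu T h) w h (Mu' q))) (tt (h + w) (Kp w h) q (Mu' q)) := hn'
  -- the positions of the glued strand
  have same : ∀ m < n, (ps Y s (Qb τ w cl))^[m] (se T w (2 * h) (eu h q)) =
      (Y.step s)^[m] (se (Tu T h) w h q) := by
    intro m
    induction m with
    | zero => intro _; exact (se_u hq ho).symm
    | succ m ih =>
      intro hm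
      rw [Function.iterate_succ_apply', ih (by omega), Function.iterate_succ_apply']
      unfold ps
      apply pas_out
      have := hn1.2.1 (m + 1) hm
      rw [Function.iterate_succ_apply'] at this
      exact V.AB_Qb (Au_AB this)
  have hst : ∀ i < n, s ((Y.step s)^[i] (se (Tu T h) w h q)).1 =
      s' ((Y.step s)^[i] (se (Tu T h) w h q)).1 := by
    intro i hi
    apply hag
    · intro hI
      refine hv ⟨i, fun j hj => ?_, ?_⟩
      · rw [same j (by omega)]; exact Au_AB (hn1.2.1 j (by omega))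
      · rw [same i hi]; exact hI
    · exact fun c => V.AB_row (Au_AB (hn1.2.1 i hi)) c
  have h2 := iter_cg (f := Y.step s) (g := Y.step s') (n := n) (x := se (Tu T h) w h q) (by
    intro i hi
    have := hst i hi
    unfold Net.step at this ⊢
    rw [this])
  have hn2 : Pn (Y.step s') (Y.dt s') (Bx' (Tu T h) w 0 h) n (se (Tu T h) w h q)
      (Y.π (se (Tu T h) w h (Mu q))) (tt (h + w) (Kp w h) q (Mu q)) := by
    refine ⟨by rw [h2 n le_rfl]; exact hn1.1, fun i hi => by rw [h2 i hi.le]; exact hn1.2.1 i hi, ?_⟩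
    rw [hn1.2.2]
    refine sum_congr rfl fun i hi => ?_
    rw [mem_range] at hi
    rw [h2 i hi.le]
    exact dt_congr (hst i hi)
  have no : ∀ {Mu : ℕ → ℕ}, Mu q < 2 * (h + w) →
      Y.π (se (Tu T h) w h (Mu q)) ∉ Bx' (Tu T h) w 0 h := by
    intro Mu hl hz
    by_cases ho : Mu q < h ∨ h + w ≤ Mu q
    · rw [se_u hl ho] at hz
      exact V.out_B (eu_lt hl) (Au_AB hz)
    · have e : Mu q = h + (Mu q - h) := by omega
      rw [e, V.out_u (by omega)] at hz
      exact V.row_AB _ _ (Au_AB hz)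
  obtain ⟨-, e, -⟩ := hn1'.uniq hn2 (no (hM'.u.lt q hq)) (no (hM.u.lt q hq))
  refine se_inj_gen V.w0 V.h0 ?_ (hM'.u.lt q hq) (hM.u.lt q hq) (V.pi_inj e)
  intro i hi j hj i' hi' j' hj' e
  have := V.Tinj i hi (h + j) (by omega) i' hi' (h + j') (by omega) e
  omega

/-- the first crossing of a strand which enters above the row -/
lemma first_cross (hM : Mats Y τ w h cl T s Mu Md M) {q j : ℕ} {d : Bool} {t : ℤ}
    (hq : q < 2 * (h + w)) (ho : q < h ∨ h + w ≤ q) (hj : j < w)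
    (hv : Vs Y τ w h cl T s (eu h q) j d t) :
    ∃ i, i < w ∧ Mu q = h + i ∧ PR (ps Y s (Qb τ w cl)) (Y.dt s) (Bx' T w 0 (2 * h))
      (psn T h i false) (psn T h j d) (t - tt (h + w) (Kp w h) q (h + i)) := by
  obtain ⟨n, hn, p, hno⟩ := V.up_piece hM (k := q) hq
  rw [se_u hq ho] at p hno
  obtain ⟨m, hm⟩ := hv
  have hmm : Pn (ps Y s (Qb τ w cl)) (Y.dt s) (Bx' T w 0 (2 * h)) m (se T w (2 * h) (eu h q))
    (psn T h j d) t := hm
  have hl := hM.u.lt q hq
  have hpos : 0 < m := by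
    rcases Nat.eq_zero_or_pos m with h0 | h0
    · exfalso
      subst h0
      have e : se T w (2 * h) (eu h q) = psn T h j d := hmm.1
      -- a port of the box is not a column position
      have h1 := V.out_Qb (eu_lt (w := w) hq)
      rw [e, V.pi_psn hj] at h1
      exact h1 ⟨j, hj, rfl⟩
    · exact h0
  have hnm : n ≤ m := by
    by_contra hc
    exact hno m hpos (by omega) j hj d hmm.1
  have hcol : h ≤ Mu q ∧ Mu q < h + w := by
    by_contra hc
    rw [V.pas_u (fun _ h => h) hl (by omega)] at p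
    have := (hmm.rest' p hnm).2.1
    rcases Nat.lt_or_ge n m with h1 | h1
    · exact V.out_B (eu_lt hl) (this 0 (by omega))
    · have h3 : n = m := by omega
      have h4 := p.1
      rw [h3, hmm.1] at h4
      exact V.out_B (eu_lt hl) (h4 ▸ V.psn_AB hj d)
  have e1 : Mu q = h + (Mu q - h) := by omega
  refine ⟨Mu q - h, by omega, e1, ?_⟩
  rw [e1, V.psn_end_u (by omega)] at p
  rw [← e1]
  have := hmm.rest' p hnm
  rw [← e1] at this
  exact ⟨_, this⟩

/-- the first crossings of the strand in the two configurations -/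
lemma prepU (hM : Mats Y τ w h cl T s Mu Md M) (hM' : Mats Y τ w h cl T s' Mu' Md' M')
    (hag : Ag τ I s s') (hT : Two Y τ w h cl T I s k0 k1) (hMk : M k0 = k1) {q : ℕ}
    (hq : q < 2 * (h + w)) (ho : q < h ∨ h + w ≤ q) (hk0 : k0 = eu h q) {j j' : ℕ} {d d' : Bool}
    {t t' : ℤ} (hj : j < w) (hj' : j' < w) (hv : Vs Y τ w h cl T s k0 j d t)
    (hv' : Vs Y τ w h cl T s' k0 j' d' t') :
    ∃ i i', i < w ∧ i' < w ∧ ¬ isP w h Mu i ∧ ¬ isP w h Mu' i' ∧ Rel w h Mu Mu' i i' ∧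
      Same2 w h Mu M Mu' M' ∧
      PR (ps Y s (Qb τ w cl)) (Y.dt s) (Bx' T w 0 (2 * h)) (psn T h i false) (psn T h j d)
        (t - tt (h + w) (Kp w h) q (h + i)) ∧
      PR (ps Y s' (Qb τ w cl)) (Y.dt s') (Bx' T w 0 (2 * h)) (psn T h i' false) (psn T h j' d')
        (t' - tt (h + w) (Kp w h) q (h + i')) := by
  subst hk0
  obtain ⟨i, hi, e1, p⟩ := V.first_cross hM hq ho hj hv
  obtain ⟨i', hi', e1', p'⟩ := V.first_cross hM' hq ho hj' hv'
  -- the two configurations have the same strands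
  have hMe := Two.M_eq V hM hM' hag hT
  have hMk' : M' (eu h q) = k1 := by rw [hMe _ hT.lt0, hMk]
  have hk1 : M k1 = eu h q := by rw [← hMk, hM.g.inv _ hT.lt0]
  have hk1' : M' k1 = eu h q := by rw [hMe _ hT.lt1, hk1]
  have hS : Same2 w h Mu M Mu' M' := by
    refine ⟨fun k hk => (hMe k hk).symm, ?_⟩
    intro r hr hor
    by_cases h1 : eu h r = eu h q
    · have h2 : r = q := eu_inj hor ho h1
      rw [h2, e1, e1']
      constructor <;> intro hh <;> omega
    by_cases h2 : eu h r = k1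
    · have c1 : ¬ (Mu r < h ∨ h + w ≤ Mu r) := by
        intro hc
        have h3 := V.M_eu hM hr hor hc
        rw [h2, hk1] at h3
        have h4 : q = Mu r := eu_inj ho hc h3
        have h5 := hM.u.inv r hr
        rw [← h4, e1] at h5
        omega
      have c2 : ¬ (Mu' r < h ∨ h + w ≤ Mu' r) := by
        intro hc
        have h3 := V.M_eu hM' hr hor hc
        rw [h2, hk1'] at h3
        have h4 : q = Mu' r := eu_inj ho hc h3
        have h5 := hM'.u.inv r hr
        rw [← h4, e1'] at h5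
        omega
      exact ⟨fun hh => absurd hh c1, fun hh => absurd hh c2⟩
    · rw [V.same_Mu hM hM' hag hr hor fun hvi => ?_]
      rcases hT.two _ (eu_lt hr) hvi with h3 | h3
      · exact h1 h3
      · exact h2 h3
  have np : ¬ isP w h Mu i := by
    have h5 := hM.u.inv q hq
    rw [e1] at h5
    unfold isP
    rw [h5]; omega
  have np' : ¬ isP w h Mu' i' := by
    have h5 := hM'.u.inv q hq
    rw [e1'] at h5
    unfold isP
    rw [h5]; omega
  have hRel : Rel w h Mu Mu' i i' := by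
    refine ⟨hi, hi', np, ?_⟩
    have h5 := hM.u.inv q hq
    rw [e1] at h5
    have h5' := hM'.u.inv q hq
    rw [e1'] at h5'
    rw [h5, h5']
  exact ⟨i, i', hi, hi', np, np', hRel, hS, p, p'⟩

/-- the weights of a coupon outside the feet -/
lemma upd_P {A B : ℂ} {a b : Fin N → ℂ} {i : ℕ} (hi : i < w)
    (hab : ∀ i < w, a (cl i) = A ∧ b (cl i) = B) (np : ¬ isP w h Mu i) : ∀ c ∈ Pf w h cl Mu, Function.update a (cl i) 1 c = A ∧
      Function.update b (cl i) (-1) c = B := by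
  intro c hc
  obtain ⟨l, hl, e, hp⟩ := mem_Pf.1 hc
  have hne : c ≠ cl i := by
    intro hh
    rw [hh] at e
    exact np (V.clinj hi hl e ▸ hp)
  rw [Function.update_of_ne hne, Function.update_of_ne hne, e]
  exact hab l hl

/-- **The amplitudes of two configurations which agree off `I`**, for a strand which enters above the
row. -/
theorem twoU (hM : Mats Y τ w h cl T s Mu Md M)
    (hN : Mats (mir Y) τ w h cl (Tf T h) (fun k => !s k) Nu Nd M2)
    (hM' : Mats Y τ w h cl T s' Mu' Md' M')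
    (hN' : Mats (mir Y) τ w h cl (Tf T h) (fun k => !s' k) Nu' Nd' M2')
    (hIB : ∀ k, I k → ∃ i < w, ∃ j < 2 * h, k = T i j)
    (hag : Ag τ I s s') (hT : Two Y τ w h cl T I s k0 k1) (hMk : M k0 = k1)
    {X X' : Net (Fin N)} (hI : Ind Y s τ X) (hI' : Ind Y s' τ X') {ρ0 : κ × Dir} {r r' : ℤ}
    (hR : Rt Y s τ w h cl T X ρ0 r) (hR' : Rt Y s' τ w h cl T X' ρ0 r')
    (hy : X.y0 = X'.y0) (hy0 : ∀ i < w, X.y0.1 ≠ cl i)
    {A B : ℂ} (hAB : Over A B) {ξ : ℂ} (hξ : ξ ^ 2 = A) {a b : Fin N → ℂ}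
    (hab : ∀ i < w, a (cl i) = A ∧ b (cl i) = B) (φ : ℤ → ℂ) {q : ℕ} (hq : q < 2 * (h + w))
    (ho : q < h ∨ h + w ≤ q) (hk0 : k0 = eu h q) {j j' : ℕ} {d d' : Bool} {t t' : ℤ}
    (hj : j < w) (hj' : j' < w) (hv : Vs Y τ w h cl T s k0 j d t)
    (hv' : Vs Y τ w h cl T s' k0 j' d' t') :
    ξ ^ (-t) * cpn X (fun k => φ (k + r)) a b (cl j) =
      ξ ^ (-t') * cpn X' (fun k => φ (k + r')) a b (cl j') := by
  classical
  have hξ0 : ξ ≠ 0 := by
    intro h0
    rw [h0] at hξ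
    have := hAB.mul
    rw [← hξ] at this
    norm_num at this
  obtain ⟨i, i', hi, hi', np, np', hRel, hS, ⟨n, p⟩, ⟨n', p'⟩⟩ :=
    V.prepU hM hM' hag hT hMk hq ho hk0 hj hj' hv hv'
  have hy0' : ∀ i < w, X'.y0.1 ≠ cl i := by rw [← hy]; exact hy0
  have hVf := V.flip
  have s1 := V.slem hM hN hI (Rt.nr V hM hR hy0) (Rt.nr hVf hN hR.flip hy0) hAB hξ hab
    (fun k => φ (k + r)) hi hj p
  have s2 := V.slem hM' hN' hI' (Rt.nr V hM' hR' hy0') (Rt.nr hVf hN' hR'.flip hy0') hAB hξ hab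
    (fun k => φ (k + r')) hi' hj' p'
  rw [s1, s2, ← mul_assoc, ← mul_assoc, ← zpow_add₀ hξ0, ← zpow_add₀ hξ0]
  have et : tt (h + w) (Kp w h) q (h + i) = tt (h + w) (Kp w h) q (h + i') := tt_cu hi hi' ho
  have ex : -t + (t - tt (h + w) (Kp w h) q (h + i)) = -tt (h + w) (Kp w h) q (h + i) := by ring
  have ex' : -t' + (t' - tt (h + w) (Kp w h) q (h + i')) = -tt (h + w) (Kp w h) q (h + i') := by
    ring
  rw [ex, ex', et]
  congr 1
  unfold cpn
  refine V.box_eq hM hM' hS ?_ hI hI' hR hR' hy hy0 hAB (V.upd_P hi hab np)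
    (V.upd_P hi' hab np') ?_ φ
  · intro k h1 h2
    refine hag k (fun hk => ?_) h2
    obtain ⟨i, hi, j, hj, e⟩ := hIB k hk
    exact h1 i hi j hj e
  · intro c c' hcc
    by_cases hc : c = cl i
    · have h6 : c' = cl i' := V.relC_unique hM hM' hcc (Or.inr ⟨i, i', hRel, hc, rfl⟩)
      rw [hc, h6, Function.update_self, Function.update_self, Function.update_self,
        Function.update_self]
      exact ⟨rfl, rfl⟩
    · have hc' : c' ≠ cl i' := by
        intro hh
        have h7 : RelC w h cl Mu' Mu (cl i') (cl i) := Or.inr ⟨i', i, hRel.symm, rfl, rfl⟩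
        have h8 := V.relC_symm hcc
        rw [hh] at h8
        exact hc (V.relC_unique hM' hM h8 h7)
      rw [Function.update_of_ne hc, Function.update_of_ne hc, Function.update_of_ne hc',
        Function.update_of_ne hc']
      rcases hcc with ⟨e, -⟩ | ⟨l, l', ⟨hl, hl', -⟩, e, e'⟩
      · rw [e]; exact ⟨rfl, rfl⟩
      · rw [e, e', (hab l hl).1, (hab l hl).2, (hab l' hl').1, (hab l' hl').2]
        exact ⟨rfl, rfl⟩

/-- **The strand of the root does not meet the row in the second configuration.** -/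
theorem neverU (hM : Mats Y τ w h cl T s Mu Md M)
    (hN : Mats (mir Y) τ w h cl (Tf T h) (fun k => !s k) Nu Nd M2)
    (hM' : Mats Y τ w h cl T s' Mu' Md' M')
    (hIB : ∀ k, I k → ∃ i < w, ∃ j < 2 * h, k = T i j)
    (hag : Ag τ I s s') (hT : Two Y τ w h cl T I s k0 k1) (hMk : M k0 = k1)
    {X : Net (Fin N)} (hI : Ind Y s τ X) {ρ0 : κ × Dir} {r : ℤ}
    (hR : Rt Y s τ w h cl T X ρ0 r) (hR' : Rn Y s' τ w h cl T ρ0)
    (hy0 : ∀ i < w, X.y0.1 ≠ cl i)
    {A B : ℂ} (hAB : Over A B) {ξ : ℂ} (hξ : ξ ^ 2 = A) {a b : Fin N → ℂ}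
    (hab : ∀ i < w, a (cl i) = A ∧ b (cl i) = B) (φ : ℤ → ℂ) {q : ℕ} (hq : q < 2 * (h + w))
    (ho : q < h ∨ h + w ≤ q) (hk0 : k0 = eu h q) {j j' : ℕ} {d d' : Bool} {t t' : ℤ}
    (hj : j < w) (hj' : j' < w) (hv : Vs Y τ w h cl T s k0 j d t)
    (hv' : Vs Y τ w h cl T s' k0 j' d' t') : cpn X φ a b (cl j) = 0 := by
  obtain ⟨i, i', hi, hi', np, np', hRel, hS, ⟨n, p⟩, -⟩ :=
    V.prepU hM hM' hag hT hMk hq ho hk0 hj hj' hv hv'
  have hVf := V.flip
  rw [V.slem hM hN hI (Rt.nr V hM hR hy0) (Rt.nr hVf hN hR.flip hy0) hAB hξ hab φ hi hj p]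
  have h0 : cpn X φ a b (cl i) = 0 := by
    unfold cpn
    refine V.box_zero hM hM' hS ?_ hI hR hR' hy0 hAB (V.upd_P hi hab np) φ
    intro k h1 h2
    refine hag k (fun hk => ?_) h2
    obtain ⟨i, hi, j, hj, e⟩ := hIB k hk
    exact h1 i hi j hj e
  rw [h0, mul_zero]

/-- the columns in `I` which are not passed by the strand from `k0` -/
theorem two_zero (hM : Mats Y τ w h cl T s Mu Md M)
    (hN : Mats (mir Y) τ w h cl (Tf T h) (fun k => !s k) Nu Nd M2)
    (hT : Two Y τ w h cl T I s k0 k1) (hMk : M k0 = k1) {X : Net (Fin N)}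
    (hI : Ind Y s τ X) (hr : Nr w h cl Mu X) (hr' : Nr w h cl Nu (mir X)) {A B : ℂ}
    (hAB : Over A B) {ξ : ℂ} (hξ : ξ ^ 2 = A) {a b : Fin N → ℂ}
    (hab : ∀ i < w, a (cl i) = A ∧ b (cl i) = B) (φ : ℤ → ℂ) {j : ℕ} (hj : j < w)
    (hu : I (T j h)) (hd : I (T j (h - 1))) (hn : ∀ d t, ¬ Vs Y τ w h cl T s k0 j d t) :
    cpn X φ a b (cl j) = 0 := by
  refine V.un_zero hM hN hI hr hr' hAB hξ hab φ ⟨hj, ?_⟩
  intro k hk d t hv
  have hvi : Vi Y τ w h cl T I s k := by
    obtain ⟨n, hn⟩ := hv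
    have hn' : Pn (ps Y s (Qb τ w cl)) (Y.dt s) (Bx' T w 0 (2 * h)) n (se T w (2 * h) k)
      (psn T h j d) t := hn
    refine ⟨n, fun i hi => ?_, ?_⟩
    · rcases Nat.lt_or_ge i n with h1 | h1
      · exact hn'.2.1 i h1
      · have : i = n := by omega
        rw [this, hn'.1]; exact V.psn_AB hj d
    · rw [hn'.1]
      cases d
      · exact hd
      · exact hu
  rcases hT.two k hk hvi with rfl | rfl
  · exact hn d t hv
  · have h1 := Vs.rev V hM hk hj hv
    have h2 : M k = k0 := by rw [← hMk, hM.g.inv _ hT.lt0]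
    rw [h2] at h1
    exact hn _ _ h1

end

end World

end Pool.Agent.H39.WB
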