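import Mathlib
import Pool.Agent.H69.M6b.EnvRoot
import Pool.Agent.H39.W.B.EnvWorld

set_option autoImplicit false
set_option linter.unusedSectionVars false
set_option linter.unusedVariables false
open Finset

/-! # The root of an environment and the root of its row -/

namespace Pool.Agent.H39.WB

open Pool.Agent.H69.M6b Pool.Agent.H69.M6b.World

open Pool.Agent.H75.Perc Pool.Agent.H75.TwoArm Pool.Agent.Q1 Pool.Agent.H81.G1

section
variable {X X2 : Env} {N : ℕ} {lb2 : Fin N → ℤ × ℤ} {p2 : Fin N → Bool} {cr2 : Fin N × Dir → ℤ × ℤ}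
  {Nw : Net (Fin N)} {n0 m : ℕ} {ω : Finset (ℤ × ℤ)} {τ : Fin N → TI X} {ρ0 : TI X × Dir}

end

/-! ### The root and the box -/

section
variable {X : Env} {N : ℕ} {xr y0 : ℤ} {c0 w h m : ℕ} {ρ0 : TI X × Dir}

lemma root_nb {τ : Fin N → TI X} (B : BoxF X τ xr y0 c0 w h) (dflt : TI X) (hR : RootP X ρ0 m) :
    ∀ i < w, ∀ j < 2 * h, ρ0.1 ≠ TS X dflt (xr + c0) y0 h i j := by
  have h0 := B.h0
  have w0 := B.w0
  have c1 := B.c1
  have c2 := B.c2
  intro i hi j hj
  have hm : tl (xr + c0) y0 h i j ∈ X.E := B.box i j (by omega) (by omega) (by omega) (by omega)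
  have hrow : lbt (xr + c0 + i) y0 ∈ X.E := by
    have := B.mem (c := c0 + i) (by omega) (by omega)
    push_cast at this
    rwa [← add_assoc] at this
  rw [TS_eq hm]
  apply hR.ne_tile
  intro d
  cases d
  · have := B.box ((i : ℤ) - 1) j (by omega) (by omega) (by omega) (by omega)
    convert this using 1
    unfold nb tl lbt
    refine Prod.ext ?_ ?_ <;> simp only <;> ring
  · by_cases hjh : (j : ℤ) + 1 = h
    · convert hrow using 1
      unfold nb tl lbt hgt
      rw [if_pos (by omega)]
      refine Prod.ext ?_ ?_ <;> simp only <;> omega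
    · have := B.box i ((j : ℤ) + 1) (by omega) (by omega) (by omega) (by omega)
      convert this using 1
      unfold nb tl lbt hgt
      split_ifs <;> refine Prod.ext ?_ ?_ <;> simp only <;> omega
  · have := B.box ((i : ℤ) + 1) j (by omega) (by omega) (by omega) (by omega)
    convert this using 1
    unfold nb tl lbt
    refine Prod.ext ?_ ?_ <;> simp only <;> ring
  · by_cases hjh : (j : ℤ) = h
    · convert hrow using 1
      unfold nb tl lbt hgt
      rw [if_neg (by omega)]
      refine Prod.ext ?_ ?_ <;> simp only <;> omega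
    · have := B.box i ((j : ℤ) - 1) (by omega) (by omega) (by omega) (by omega)
      convert this using 1
      unfold nb tl lbt hgt
      split_ifs <;> refine Prod.ext ?_ ?_ <;> simp only <;> omega

lemma root_nc {τ : Fin N → TI X} (B : BoxF X τ xr y0 c0 w h) (hN : 0 < N) (hR : RootP X ρ0 m) :
    ∀ i < w, ρ0.1 ≠ τ (clS N c0 hN i) := by
  have h0 := B.h0
  have w0 := B.w0
  have c1 := B.c1
  have c2 := B.c2
  intro i hi
  have clv : ((clS N c0 hN i : Fin N) : ℕ) = c0 + i := by
    unfold clS
    simp only
    exact Nat.mod_eq_of_lt (by omega)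
  have hrow : ∀ k : ℕ, c0 - 1 ≤ k → k ≤ c0 + w → lbt (xr + k) y0 ∈ X.E := fun k h1 h2 => B.mem h1 h2
  have e0 : τ (clS N c0 hN i) = ⟨lbt (xr + ((clS N c0 hN i : Fin N) : ℕ)) y0,
      B.mem (by omega) (by omega)⟩ := Subtype.ext (B.row _ (by omega) (by omega))
  rw [e0]
  apply hR.ne_tile
  intro d
  rw [clv]
  cases d
  · have := hrow (c0 + i - 1) (by omega) (by omega)
    convert this using 1
    unfold nb lbt
    refine Prod.ext ?_ ?_ <;> simp only <;> push_cast [Nat.cast_sub (show 1 ≤ c0 + i by omega)] <;>
      ring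
  · have := B.box i h (by omega) (by omega) (by omega) (by omega)
    convert this using 1
    unfold nb tl lbt hgt
    rw [if_neg (by omega)]
    refine Prod.ext ?_ ?_ <;> simp only <;> push_cast <;> omega
  · have := hrow (c0 + i + 1) (by omega) (by omega)
    convert this using 1
    unfold nb lbt
    refine Prod.ext ?_ ?_ <;> simp only <;> push_cast <;> ring
  · have := B.box i ((h : ℤ) - 1) (by omega) (by omega) (by omega) (by omega)
    convert this using 1
    unfold nb tl lbt hgt
    rw [if_pos (by omega)]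
    refine Prod.ext ?_ ?_ <;> simp only <;> push_cast <;> omega

end

end Pool.Agent.H39.WB
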