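import Mathlib
import Pool.Agent.H39.W.B.Dict
import Pool.Agent.H69.M6b.Far

set_option autoImplicit false
set_option linter.unusedSectionVars false
set_option linter.unusedVariables false
set_option linter.unusedVariables false
open Finset

/-! # The far entrance on the strands of a box -/

namespace Pool.Agent.H39.WB

open Pool.Agent.H69.M6b Pool.Agent.H69.M6b.World

open Pool.Agent.H75.Perc Pool.Agent.H75.TwoArm Pool.Agent.Q1 Pool.Agent.H81.G1
open Pool.Agent.Q1.M6b.Gd (FarIn)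

section
variable {In Out ζ ζ' : Finset (ℤ × ℤ)} {c a : ℤ × ℤ} {m n : ℕ}

lemma far_of_path (h0 : plab c ∉ Out) (hIn : lab ((nx ζ)^[m] c) ∈ In)
    (hno : ∀ i < m, lab ((nx ζ)^[i] c) ∉ In) : FarIn In Out ζ ((nx ζ)^[m] c) := by
  classical
  set P : ℕ → Prop := fun i => plab ((nx ζ)^[i] c) ∉ Out with hP
  have hP0 : P 0 := h0
  set i0 := Nat.findGreatest P m with hi0
  have h1 : P i0 := Nat.findGreatest_spec (Nat.zero_le m) hP0
  have h2 : i0 ≤ m := Nat.findGreatest_le m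
  refine ⟨hIn, (nx ζ)^[i0] c, m - i0, h1, ?_, ?_⟩
  · rw [← Function.iterate_add_apply, Nat.sub_add_cancel h2]
  · intro i hi
    rw [← Function.iterate_add_apply, mem_sdiff]
    refine ⟨?_, hno _ (by omega)⟩
    have h3 : ¬ P (i + i0 + 1) := Nat.findGreatest_is_greatest (P := P) (n := m) (by omega) (by omega)
    have h4 : plab ((nx ζ)^[i + i0 + 1] c) ∈ Out := not_not.1 h3
    rwa [Function.iterate_succ_apply', plab_nx] at h4

lemma nx_congr {z : ℤ × ℤ} (h : lab z ∈ ζ ↔ lab z ∈ ζ') : nx ζ z = nx ζ' z ∧ del ζ z = del ζ' z := by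
  unfold nx del
  by_cases h1 : lab z ∈ ζ
  · rw [if_pos h1, if_pos (h.1 h1), if_pos h1, if_pos (h.1 h1)]; exact ⟨rfl, rfl⟩
  · have h2 : lab z ∉ ζ' := fun hh => h1 (h.2 hh)
    rw [if_neg h1, if_neg h2, if_neg h1, if_neg h2]; exact ⟨rfl, rfl⟩

lemma path_congr (h : ∀ i < m, (lab ((nx ζ)^[i] c) ∈ ζ ↔ lab ((nx ζ)^[i] c) ∈ ζ')) :
    (∀ i ≤ m, (nx ζ')^[i] c = (nx ζ)^[i] c) ∧
      ∑ i ∈ range m, del ζ' ((nx ζ')^[i] c) = ∑ i ∈ range m, del ζ ((nx ζ)^[i] c) := by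
  have h1 := World.iter_cg (f := nx ζ) (g := nx ζ') (n := m) (x := c)
    (fun i hi => (nx_congr (h i hi)).1)
  refine ⟨h1, sum_congr rfl fun i hi => ?_⟩
  rw [mem_range] at hi
  rw [h1 i hi.le, (nx_congr (h i hi)).2]

/-- the path leaves `Out` -/
lemma exit_ex (hf : FarIn In Out ζ a) : ∃ n, (∀ k < n, lab ((nx ζ)^[k] a) ∈ Out) ∧
    lab ((nx ζ)^[n] a) ∉ Out := by
  classical
  by_cases hex : ∃ n, lab ((nx ζ)^[n] a) ∉ Out
  · exact ⟨Nat.find hex, fun k hk => not_not.1 (Nat.find_min hex hk), Nat.find_spec hex⟩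
  exfalso
  push Not at hex
  obtain ⟨h1, c, m, h2, h3, h4⟩ := hf
  have hall : ∀ i, lab ((nx ζ)^[i] c) ∈ Out := by
    intro i
    rcases Nat.lt_or_ge i m with hi | hi
    · exact (mem_sdiff.1 (h4 i hi)).1
    · obtain ⟨j, rfl⟩ : ∃ j, i = j + m := ⟨i - m, by omega⟩
      rw [Function.iterate_add_apply, h3]
      exact hex j
  -- the corners in front of a label of `Out` are finitely many
  have hfin : (Set.range fun i => (nx ζ)^[i] c).Finite := by
    refine Set.Finite.subset (Finset.finite_toSet (Out.image in1 ∪ Out.image in2)) ?_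
    rintro z ⟨i, rfl⟩
    have h5 := hall i
    simp only [coe_union, coe_image, Set.mem_union, Set.mem_image, mem_coe]
    rcases Pool.Agent.Q1.M6b.Gd.corner_of_lab ((nx ζ)^[i] c) with h6 | h6
    · exact Or.inl ⟨_, h5, h6.symm⟩
    · exact Or.inr ⟨_, h5, h6.symm⟩
  have hninj : ¬ Function.Injective fun i : ℕ => (nx ζ)^[i] c := by
    intro hinj
    exact Set.infinite_range_of_injective hinj hfin
  unfold Function.Injective at hninj
  push Not at hninj
  obtain ⟨p, q, hpq, hne⟩ := hninj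
  have key : ∀ {p q : ℕ}, p < q → (nx ζ)^[p] c = (nx ζ)^[q] c → False := by
    intro p q hlt he
    obtain ⟨r, rfl⟩ : ∃ r, q = p + (r + 1) := ⟨q - p - 1, by omega⟩
    rw [Function.iterate_add_apply] at he
    have h6 := (nx_injective ζ).iterate p he
    apply h2
    rw [h6, Function.iterate_succ_apply', plab_nx]
    exact hall r
  rcases lt_or_gt_of_ne hne with h5 | h5
  · exact key h5 hpq
  · exact key h5 hpq.symm

end

namespace World

variable {κ : Type*} {N : ℕ} {Y : Net κ} {τ : Fin N → κ} {c0 w h : ℕ} {cl : ℕ → Fin N}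
  {T : ℕ → ℕ → κ} {Xc y0 : ℤ} {s s' : κ → Bool} {ζ ζ' In Out : Finset (ℤ × ℤ)} {Mu Md M : ℕ → ℕ}
  {k m n : ℕ} {c a : ℤ × ℤ}

section
variable (V : World Y τ c0 w h cl T)
include V

omit V in
lemma Cr.isf {x : κ × Dir} {c : ℤ × ℤ} (Tinj : ∀ i < w, ∀ j < 2 * h, ∀ i' < w, ∀ j' < 2 * h,
    T i j = T i' j' → i = i' ∧ j = j') (hx : Cr T w h Xc y0 x c) (hI : Isf T w h Xc y0 In x.1) :
    Pool.Agent.H75.Perc.lab c ∈ In := by
  obtain ⟨i, hi, j, hj, e, el⟩ := Cr.lab hx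
  obtain ⟨i', hi', j', hj', e', hm⟩ := hI
  rw [e] at e'
  obtain ⟨rfl, rfl⟩ := Tinj i hi j hj i' hi' j' hj' e'
  rw [el]; exact hm

lemma ent (hs : Sg T w h Xc y0 s ζ) (hP : PI T w h Xc y0 k c)
    (hv : Vi Y τ w h cl T (Isf T w h Xc y0 In) s k) (hOut : ∀ e ∈ Out, BL Xc y0 w h e) :
    ∃ a m, FarIn In Out ζ a ∧ Ent Y τ w h cl T Xc y0 s ζ In k c a m := by
  classical
  obtain ⟨n, h1, h2⟩ := hv
  have tr := Cr.track V hs hP.1 (n := n) (fun i hi => Or.inl (h1 i hi))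
  have hex : ∃ i, lab ((nx ζ)^[i] c) ∈ In := ⟨n, Cr.isf V.Tinj (tr n le_rfl) h2⟩
  set m := Nat.find hex with hm
  have hmn : m ≤ n := Nat.find_le (Cr.isf V.Tinj (tr n le_rfl) h2)
  have hno : ∀ i < m, lab ((nx ζ)^[i] c) ∉ In := fun i hi => Nat.find_min hex hi
  have hla : lab ((nx ζ)^[m] c) ∈ In := Nat.find_spec hex
  exact ⟨_, m, far_of_path (fun hh => hP.2 (hOut _ hh)) hla hno,
    ⟨hP, fun i hi => tr i (by omega), hno, rfl, hla⟩⟩

omit V in
lemma ent_uniq {k' m' : ℕ} {c' : ℤ × ℤ} (hE : Ent Y τ w h cl T Xc y0 s ζ In k c a m)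
    (hE' : Ent Y τ w h cl T Xc y0 s ζ In k' c' a m') : c = c' ∧ m = m' := by
  have key : ∀ {k k' m m' : ℕ} {c c' : ℤ × ℤ}, Ent Y τ w h cl T Xc y0 s ζ In k c a m →
      Ent Y τ w h cl T Xc y0 s ζ In k' c' a m' → m ≤ m' → c = c' ∧ m = m' := by
    intro k k' m m' c c' h1 h2 hle
    obtain ⟨r, rfl⟩ : ∃ r, m' = m + r := ⟨m' - m, by omega⟩
    have e := h1.eq.trans h2.eq.symm
    rw [Function.iterate_add_apply] at e
    have e1 := (nx_injective ζ).iterate m e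
    rcases Nat.eq_zero_or_pos r with h0 | h0
    · subst h0
      exact ⟨e1, rfl⟩
    · exfalso
      obtain ⟨r, rfl⟩ : ∃ r', r = r' + 1 := ⟨r - 1, by omega⟩
      apply h1.pi.2
      rw [e1, Function.iterate_succ_apply', plab_nx]
      exact Cr.bl (h2.cr r (by omega))
  rcases le_total m m' with h1 | h1
  · exact key hE hE' h1
  · obtain ⟨e1, e2⟩ := key hE' hE h1
    exact ⟨e1.symm, e2.symm⟩

omit V in
/-- all visits of `In` are in the time window -/
lemma Ent.win (hE : Ent Y τ w h cl T Xc y0 s ζ In k c a m) (hIO : In ⊆ Out)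
    (uniq : ∀ a', FarIn In Out ζ a' → a' = a) (hn : lab ((nx ζ)^[n] a) ∉ Out) {q : ℕ}
    (hq : ∀ i ≤ q, BL Xc y0 w h (lab ((nx ζ)^[i] c))) (hIn : lab ((nx ζ)^[q] c) ∈ In) :
    m ≤ q ∧ q < m + n := by
  classical
  have hmq : m ≤ q := by
    by_contra hc
    exact hE.no q (by omega) hIn
  refine ⟨hmq, ?_⟩
  by_contra hc
  have hsh : ∀ i, (nx ζ)^[m + i] c = (nx ζ)^[i] a := by
    intro i
    rw [Nat.add_comm, Function.iterate_add_apply, hE.eq]
  have hne : q ≠ m + n := by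
    rintro rfl
    rw [hsh] at hIn
    exact hn (hIO hIn)
  set c'' := (nx ζ)^[m + n + 1] c with hc''
  have h0 : plab c'' ∉ Out := by
    rw [hc'', Function.iterate_succ_apply', plab_nx, hsh]
    exact hn
  have hsh2 : ∀ i, (nx ζ)^[i] c'' = (nx ζ)^[i + (m + n + 1)] c := by
    intro i
    rw [hc'', ← Function.iterate_add_apply]
  have hex : ∃ i, lab ((nx ζ)^[i] c'') ∈ In :=
    ⟨q - (m + n + 1), by rw [hsh2, Nat.sub_add_cancel (by omega)]; exact hIn⟩
  set r := Nat.find hex with hr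
  have hrq : r ≤ q - (m + n + 1) :=
    Nat.find_le (by rw [hsh2, Nat.sub_add_cancel (by omega)]; exact hIn)
  have hfar := far_of_path (Out := Out) h0 (Nat.find_spec hex) (fun i hi => Nat.find_min hex hi)
  have e := uniq _ hfar
  rw [← hr, hsh2, ← hE.eq, show r + (m + n + 1) = m + (r + n + 1) by omega,
    Function.iterate_add_apply] at e
  have e1 := (nx_injective ζ).iterate m e
  apply hE.pi.2
  rw [← e1, Function.iterate_succ_apply', plab_nx]
  exact hq _ (by omega)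

/-- a visit of the seam inside the window is a visit of the column -/
lemma Ent.vs (hs : Sg T w h Xc y0 s ζ) (hE : Ent Y τ w h cl T Xc y0 s ζ In k c a m)
    (hOut : ∀ e ∈ Out, BL Xc y0 w h e) {q : ℕ} (hq : ∀ i ≤ q, lab ((nx ζ)^[i] a) ∈ Out) {i : ℕ}
    (hi : i < w) (e : (nx ζ)^[q] a = sgc Xc y0 h i) :
    ∃ d, Vs Y τ w h cl T s k i d (∑ j ∈ range m, del ζ ((nx ζ)^[j] c) +
      ∑ j ∈ range q, del ζ ((nx ζ)^[j] a)) := by
  have hsh : ∀ i, (nx ζ)^[m + i] c = (nx ζ)^[i] a := by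
    intro i
    rw [Nat.add_comm, Function.iterate_add_apply, hE.eq]
  have tr := Cr.track V hs hE.pi.1 (n := m + q) (by
    intro i hi
    right
    rcases Nat.lt_or_ge i m with h1 | h1
    · exact Cr.bl (hE.cr i h1.le)
    · obtain ⟨j, rfl⟩ : ∃ j, i = m + j := ⟨i - m, by omega⟩
      rw [hsh]
      exact hOut _ (hq j (by omega)))
  have h1 := tr (m + q) le_rfl
  rw [hsh, e] at h1
  obtain ⟨d, hd⟩ := V.psn_cr hi h1
  refine ⟨d, m + q, hd, fun i hi => Cr.mem (tr i hi.le), ?_⟩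
  rw [Cr.sum V hs (fun i hi => tr i (Nat.le_of_lt hi)), Finset.sum_range_add]
  congr 1
  exact sum_congr rfl fun i _ => by rw [hsh]

/-- a visit of a column with labels in `In` is in the window -/
lemma Ent.hit (hs : Sg T w h Xc y0 s ζ) (hE : Ent Y τ w h cl T Xc y0 s ζ In k c a m)
    (hIO : In ⊆ Out) (uniq : ∀ a', FarIn In Out ζ a' → a' = a) (hn : lab ((nx ζ)^[n] a) ∉ Out)
    {i : ℕ} (hi : i < w) (hu : gl Xc y0 h i h ∈ In) (hd : gl Xc y0 h i (h - 1) ∈ In) {d : Bool}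
    {t : ℤ} (hv : Vs Y τ w h cl T s k i d t) : ∃ q < n, (nx ζ)^[q] a = sgc Xc y0 h i := by
  have hh := V.h0
  obtain ⟨q, hq⟩ := hv
  have hq' : Pn (ps Y s (Qb τ w cl)) (Y.dt s) (Bx' T w 0 (2 * h)) q (se T w (2 * h) k)
    (psn T h i d) t := hq
  have tr := Cr.track V hs hE.pi.1 (n := q) (by
    intro j hj
    left
    rcases Nat.lt_or_ge j q with h1 | h1
    · exact hq'.2.1 j h1
    · have : j = q := by omega
      rw [this, hq'.1]; exact V.psn_AB hi d)
  have h1 := tr q le_rfl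
  rw [hq'.1] at h1
  have h2 := cr_psn hh h1 V.Tinj hi
  have h3 : lab ((nx ζ)^[q] c) ∈ In := by
    refine Cr.isf V.Tinj h1 ?_
    cases d
    · exact ⟨i, hi, h - 1, by omega, rfl, hd⟩
    · exact ⟨i, hi, h, by omega, rfl, hu⟩
  obtain ⟨g1, g2⟩ := hE.win hIO uniq hn (fun i hi => Cr.bl (tr i hi)) h3
  refine ⟨q - m, by omega, ?_⟩
  have e : (nx ζ)^[q] c = (nx ζ)^[q - m] a := by
    rw [← hE.eq, ← Function.iterate_add_apply, Nat.sub_add_cancel g1]
  rw [← e]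
  exact h2

/-- only the strands of one incoming port visit `In` -/
lemma Ent.two (hM : Mats Y τ w h cl T s Mu Md M) (hk : k < 2 * (2 * h + w))
    (hs : Sg T w h Xc y0 s ζ) (hE : Ent Y τ w h cl T Xc y0 s ζ In k c a m)
    (hOut : ∀ e ∈ Out, BL Xc y0 w h e) (uniq : ∀ a', FarIn In Out ζ a' → a' = a) :
    Two Y τ w h cl T (Isf T w h Xc y0 In) s k (M k) := by
  have key : ∀ k' < 2 * (2 * h + w), Vi Y τ w h cl T (Isf T w h Xc y0 In) s k' →
      (∃ c', PI T w h Xc y0 k' c') → k' = k := by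
    rintro k' hk' hv ⟨c', hP⟩
    obtain ⟨a', m', hf, hE'⟩ := V.ent hs hP hv hOut
    rw [uniq _ hf] at hE'
    obtain ⟨e1, -⟩ := ent_uniq hE hE'
    have h1 := hE.pi
    rw [e1] at h1
    exact PI.inj V hk' hk hP h1
  refine ⟨hk, hM.g.lt k hk, fun k' hk' hv => ?_⟩
  rcases V.port_or (Xc := Xc) (y0 := y0) hM hk' with h1 | h1
  · exact Or.inl (key k' hk' hv h1)
  · right
    have h2 := key (M k') (hM.g.lt k' hk') (Vi.rev V hM hk' hv) h1
    rw [← h2, hM.g.inv k' hk']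

/-- agreement of the labels outside `In` -/
lemma ag_lab (hs : Sg T w h Xc y0 s ζ) (hs' : Sg T w h Xc y0 s' ζ')
    (hag : Ag τ (Isf T w h Xc y0 In) s s') {e : ℤ × ℤ} (he : BL Xc y0 w h e) (hn : e ∉ In) :
    e ∈ ζ ↔ e ∈ ζ' := by
  obtain ⟨i, hi, j, hj, rfl⟩ := he
  have h1 : s (T i j) = s' (T i j) := by
    apply hag
    · rintro ⟨i', hi', j', hj', e, hm⟩
      obtain ⟨rfl, rfl⟩ := V.Tinj i hi j hj i' hi' j' hj' e
      exact hn hm
    · exact V.Trow i hi j hj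
  rw [hs i hi j hj, hs' i hi j hj] at h1
  unfold sg0 at h1
  by_cases h2 : gl Xc y0 h i j ∈ ζ
  · by_cases h3 : gl Xc y0 h i j ∈ ζ'
    · exact ⟨fun _ => h3, fun _ => h2⟩
    · exfalso
      rw [decide_eq_true h2, decide_eq_false h3] at h1
      generalize pr0 (gl Xc y0 h i j) = b at h1
      cases b <;> exact absurd h1 (by decide)
  · by_cases h3 : gl Xc y0 h i j ∈ ζ'
    · exfalso
      rw [decide_eq_false h2, decide_eq_true h3] at h1
      generalize pr0 (gl Xc y0 h i j) = b at h1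
      cases b <;> exact absurd h1 (by decide)
    · exact ⟨fun h => absurd h h2, fun h => absurd h h3⟩

/-- the entrance of the other configuration -/
lemma Ent.congr (hs : Sg T w h Xc y0 s ζ) (hs' : Sg T w h Xc y0 s' ζ')
    (hag : Ag τ (Isf T w h Xc y0 In) s s') (hE : Ent Y τ w h cl T Xc y0 s ζ In k c a m) :
    Ent Y τ w h cl T Xc y0 s' ζ' In k c a m ∧
      ∑ i ∈ range m, del ζ' ((nx ζ')^[i] c) = ∑ i ∈ range m, del ζ ((nx ζ)^[i] c) := by
  obtain ⟨h1, h2⟩ := path_congr (ζ := ζ) (ζ' := ζ') (c := c) (m := m)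
    (fun i hi => V.ag_lab hs hs' hag (Cr.bl (hE.cr i hi.le)) (hE.no i hi))
  have tr := Cr.track V hs' hE.pi.1 (n := m) (fun i hi => Or.inr (by
    rw [h1 i hi]; exact Cr.bl (hE.cr i hi)))
  exact ⟨⟨hE.pi, tr, fun i hi => by rw [h1 i hi.le]; exact hE.no i hi,
    by rw [h1 m le_rfl]; exact hE.eq, hE.la⟩, h2⟩

end

end World

end Pool.Agent.H39.WB
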