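import Mathlib
import Pool.Agent.H69.M6b.First
import Pool.Agent.H39.W.B.Win

set_option autoImplicit false
set_option linter.unusedSectionVars false
set_option linter.unusedVariables false
set_option linter.unusedVariables false
open Finset

/-! # The first crossing of the strand of a window -/

namespace Pool.Agent.H39.WB

open Pool.Agent.H69.M6b Pool.Agent.H69.M6b.World

open Pool.Agent.H75.Perc Pool.Agent.H75.TwoArm Pool.Agent.Q1 Pool.Agent.H81.G1
open Pool.Agent.Q1.M6b.Gd (FarIn)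

namespace World

variable {κ : Type*} {N : ℕ} {Y : Net κ} {τ : Fin N → κ} {c0 w h : ℕ} {cl : ℕ → Fin N}
  {T : ℕ → ℕ → κ} {Xc y0 : ℤ} {s s' : κ → Bool} {ζ ζ' In Out : Finset (ℤ × ℤ)} {ρ0 : κ × Dir}
  {X : Net (Fin N)} {I : κ → Prop} {Mu Md M : ℕ → ℕ} {k0 k1 : ℕ}

section
variable (V : World Y τ c0 w h cl T)
include V

/-- a strand from a port is not at a column -/
lemma se_psn {k c : ℕ} {d : Bool} (hk : k < 2 * (2 * h + w)) (hc : c < w) :
    se T w (2 * h) k ≠ psn T h c d := by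
  intro e
  have h1 := V.out_Qb (w := w) hk
  rw [e, V.pi_psn hc] at h1
  exact h1 ⟨c, hc, rfl⟩

/-- a strand which passes the column `c` visits both tiles of the column -/
lemma Vs.vi' {k c : ℕ} {d : Bool} {t : ℤ} (hk : k < 2 * (2 * h + w)) (hc : c < w) {e : Bool}
    (hI : I (ts T h e c)) (hv : Vs Y τ w h cl T s k c d t) : Vi Y τ w h cl T I s k := by
  obtain ⟨n, hn⟩ := hv
  have hn' : Pn (ps Y s (Qb τ w cl)) (Y.dt s) (Bx' T w 0 (2 * h)) n (se T w (2 * h) k)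
    (psn T h c d) t := hn
  have hpos : 0 < n := by
    rcases Nat.eq_zero_or_pos n with h0 | h0
    · exfalso
      subst h0
      exact V.se_psn hk hc hn'.1
    · exact h0
  by_cases hed : e = d
  · -- the tile after the passage
    refine ⟨n, fun i hi => ?_, ?_⟩
    · rcases Nat.lt_or_ge i n with h1 | h1
      · exact hn'.2.1 i h1
      · have : i = n := by omega
        rw [this, hn'.1]; exact V.psn_AB hc d
    · rw [hn'.1, ← hed]
      cases e
      · exact hI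
      · exact hI
  · -- the tile before the passage
    obtain ⟨m, rfl⟩ : ∃ m, n = m + 1 := ⟨n - 1, by omega⟩
    have h1 := V.rv_step s (hn'.2.1 m (by omega))
    rw [← Function.iterate_succ_apply' (ps Y s (Qb τ w cl)), hn'.1, V.rv_psn hc] at h1
    refine ⟨m, fun i hi => hn'.2.1 i (by omega), ?_⟩
    have h2 := congrArg Prod.fst h1
    simp only at h2
    rw [← h2]
    have hde : (!d) = e := by cases d <;> cases e <;> simp_all
    rw [hde]
    cases e
    · exact hI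
    · exact hI

/-- **The arcs above the row near the window.** -/
theorem nearU (hM : Mats Y τ w h cl T s Mu Md M) (hI : Ind Y s τ X)
    (hT : Two Y τ w h cl T I s k0 k1) {q x1 : ℕ} (hq : q < 2 * (h + w)) (ho : q < h ∨ h + w ≤ q)
    (hx1 : x1 < w) (e : Mu q = h + x1) : NearE T w h cl I X true x1 := by
  classical
  have hh := V.h0
  have e' : Mu (h + x1) = q := by rw [← e]; exact hM.u.inv q hq
  refine ⟨(range w).filter (fun c => ¬ isP w h Mu c ∧ I (T c h)), ?_, ?_⟩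
  · have hmap : ∀ c ∈ (range w).filter (fun c => ¬ isP w h Mu c ∧ I (T c h)),
        eu h (Mu (h + c)) ∈ ({k0, k1} : Finset ℕ) := by
      intro c hc
      rw [mem_filter, mem_range] at hc
      obtain ⟨hcw, hp, hIc⟩ := hc
      have hlt := hM.u.lt (h + c) (by omega)
      have hout : Mu (h + c) < h ∨ h + w ≤ Mu (h + c) := by unfold isP at hp; omega
      have hv := Vs.up0 V hM hlt hout hcw (hM.u.inv (h + c) (by omega))
      have hvi : Vi Y τ w h cl T I s (eu h (Mu (h + c))) :=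
        Vs.vi' V (eu_lt hlt) hcw (e := true) hIc hv
      rw [mem_insert, mem_singleton]
      exact hT.two _ (eu_lt hlt) hvi
    refine (card_le_card_of_injOn (fun c => eu h (Mu (h + c))) hmap ?_).trans card_le_two
    intro c hc c' hc' hcc
    have hc := mem_filter.1 (mem_coe.1 hc)
    have hc' := mem_filter.1 (mem_coe.1 hc')
    have l1 := mem_range.1 hc.1
    have l2 := mem_range.1 hc'.1
    have p1 := hc.2.1
    have p2 := hc'.2.1
    unfold isP at p1 p2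
    have a1 := hM.u.lt (h + c) (by omega)
    have a2 := hM.u.lt (h + c') (by omega)
    have h3 : Mu (h + c) = Mu (h + c') := eu_inj (w := w) (by omega) (by omega) hcc
    have := hM.u.inj (by omega) (by omega) h3
    omega
  · intro c hc hIc hcS
    rw [mem_filter, mem_range, not_and, not_and] at hcS
    have hp : isP w h Mu c := by
      by_contra hp
      exact hcS hc hp hIc
    unfold isP at hp
    obtain ⟨c', hc', hcc⟩ : ∃ c' < w, Mu (h + c) = h + c' := ⟨Mu (h + c) - h, by omega, by omega⟩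
    refine ⟨c', hc', (V.arc_wire hM hI hc hc' hcc).1, ?_, ?_⟩
    · rintro ⟨h1, h2⟩
      have nc := hM.u.nc (h + c) (by omega) (h + x1) (by omega) (by omega) (by rw [hcc]; omega)
      rw [hcc, e'] at nc
      rcases ho with ho | ho
      · exact absurd ((nc.2 ⟨fun _ => by omega, fun _ => by omega⟩).2 (by omega)) (by omega)
      · exact absurd ((nc.2 ⟨fun _ => by omega, fun _ => by omega⟩).2 (by omega)) (by omega)
    · rintro ⟨h1, h2⟩
      have nc := hM.u.nc (h + c) (by omega) (h + x1) (by omega) (by omega) (by rw [hcc]; omega)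
      rw [hcc, e'] at nc
      rcases ho with ho | ho
      · exact absurd ((nc.2 ⟨fun _ => by omega, fun _ => by omega⟩).1 (by omega)) (by omega)
      · exact absurd ((nc.2 ⟨fun _ => by omega, fun _ => by omega⟩).1 (by omega)) (by omega)

/-- **The first crossing of a strand which enters above the row.** -/
lemma firstU (hM : Mats Y τ w h cl T s Mu Md M) {Nu Nd M2 : ℕ → ℕ}
    (hN : Mats (mir Y) τ w h cl (Tf T h) (fun k => !s k) Nu Nd M2) (hI : Ind Y s τ X)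
    (hT : Two Y τ w h cl T I s k0 k1) (hr : Nr w h cl Mu X) (hr' : Nr w h cl Nu (mir X))
    {q j : ℕ} {d : Bool} {t : ℤ} (hq : q < 2 * (h + w)) (ho : q < h ∨ h + w ≤ q) (hj : j < w)
    (hv : Vs Y τ w h cl T s (eu h q) j d t) :
    ∃ x1 < w, NearE T w h cl I X true x1 ∧ (∃ d t, Vs Y τ w h cl T s (eu h q) x1 d t) ∧
      ∀ {A B ξ : ℂ}, Over A B → ξ ^ 2 = A → ‖ξ‖ = 1 →
      ∀ {a b : Fin N → ℂ}, (∀ i < w, a (cl i) = A ∧ b (cl i) = B) → ∀ φ : ℤ → ℂ,
        ‖cpn X φ a b (cl j)‖ = ‖cpn X φ a b (cl x1)‖ := by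
  obtain ⟨i, hi, e1, ⟨m, p⟩⟩ := V.first_cross hM hq ho hj hv
  refine ⟨i, hi, V.nearU hM hI hT hq ho hi e1, ⟨_, _, Vs.up0 V hM hq ho hi e1⟩, ?_⟩
  intro A B ξ hAB hξ hξn a b hab φ
  rw [V.slem hM hN hI hr hr' hAB hξ hab φ hi hj p, norm_mul, norm_zpow, hξn, one_zpow, one_mul]

omit V in
lemma NearE.flip {x1 : ℕ} (hh : 0 < h) (hn : NearE (Tf T h) w h cl I (mir X) true x1) :
    NearE T w h cl I X false x1 := by
  obtain ⟨S, hS, hc⟩ := hn
  refine ⟨S, hS, fun c hcw hIc hcS => ?_⟩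
  have e : ts (Tf T h) h true c = ts T h false c := by
    change T c (2 * h - 1 - h) = T c (h - 1)
    congr 1
    omega
  obtain ⟨c', hc', h1, h2, h3⟩ := hc c hcw (by rw [e]; exact hIc) hcS
  refine ⟨c', hc', ?_, h2, h3⟩
  have h4 : fl (X.π (fl (cl c, .N))) = (cl c', .N) := h1
  have h5 := congrArg fl h4
  rw [fl_fl] at h5
  exact h5

/-- a strand of the mirror image -/
lemma Vs.unflip {k j : ℕ} {d : Bool} {t : ℤ} (hk : k < 2 * (2 * h + w))
    (hv : Vs (mir Y) τ w h cl (Tf T h) (fun k => !s k) (rf w h k) j d t) :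
    ∃ d' t', Vs Y τ w h cl T s k j d' t' := by
  obtain ⟨n, hn⟩ := hv
  have hn' : Pn (ps (mir Y) (fun k => !s k) (Qb τ w cl)) ((mir Y).dt fun k => !s k)
      (Bx' (Tf T h) w 0 (2 * h)) n (se (Tf T h) w (2 * h) (rf w h k)) (psn (Tf T h) h j d) t := hn
  rw [← V.se_flip' hk] at hn'
  refine ⟨!d, _, n, ?_, fun i hi => ?_, rfl⟩
  · have h1 := hn'.1
    rw [iter_fl] at h1
    have h2 := psn_flip (T := T) V.h0 j (!d)
    rw [Bool.not_not] at h2
    rw [← h2] at h1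
    have h3 := congrArg fl h1
    rwa [fl_fl, fl_fl] at h3
  · have h1 := hn'.2.1 i hi
    rw [iter_fl] at h1
    exact AB_fl V.h0 h1

/-- **The first crossing.** -/
theorem first (hM : Mats Y τ w h cl T s Mu Md M) (hI : Ind Y s τ X)
    (hT : Two Y τ w h cl T I s k0 k1) (hMk : M k0 = k1) {r : ℤ} (hR : Rt Y s τ w h cl T X ρ0 r)
    (hy0 : ∀ i < w, X.y0.1 ≠ cl i) {j : ℕ} {d : Bool} {t : ℤ} (hj : j < w)
    (hv : Vs Y τ w h cl T s k0 j d t) :
    ∃ e : Bool, ∃ x1 < w, NearE T w h cl I X e x1 ∧ (∃ d t, Vs Y τ w h cl T s k0 x1 d t) ∧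
      ∀ {A B ξ : ℂ}, Over A B → ξ ^ 2 = A → ‖ξ‖ = 1 →
      ∀ {a b : Fin N → ℂ}, (∀ i < w, a (cl i) = A ∧ b (cl i) = B) → ∀ φ : ℤ → ℂ,
        ‖cpn X φ a b (cl j)‖ = ‖cpn X φ a b (cl x1)‖ := by
  have hh := V.h0
  have lt0 := hT.lt0
  have lt1 := hT.lt1
  obtain ⟨Nu, Nd, M2, hN⟩ := V.flip.mats (fun k => !s k)
  have isU : ∀ k < 2 * (2 * h + w), (k < h ∨ 3 * h + w ≤ k) →
      ∃ q, q < 2 * (h + w) ∧ (q < h ∨ h + w ≤ q) ∧ k = eu h q := by
    intro k hk hc
    rcases hc with h1 | h1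
    · exact ⟨k, by omega, Or.inl h1, by unfold eu; rw [if_pos h1]⟩
    · exact ⟨k - 2 * h, by omega, Or.inr (by omega), by
        unfold eu; rw [if_neg (by omega)]; omega⟩
  by_cases hu0 : k0 < h ∨ 3 * h + w ≤ k0
  · obtain ⟨q, hq, ho, hk0⟩ := isU k0 lt0 hu0
    rw [hk0] at hv
    obtain ⟨x1, hx1, h1, h3, h2⟩ := V.firstU hM hN hI hT (Rt.nr V hM hR hy0)
      (Rt.nr V.flip hN hR.flip hy0) hq ho hj hv
    exact ⟨true, x1, hx1, h1, by rw [hk0]; exact h3, h2⟩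
  by_cases hu1 : k1 < h ∨ 3 * h + w ≤ k1
  · obtain ⟨q, hq, ho, hk1⟩ := isU k1 lt1 hu1
    have w1 := Vs.rev V hM lt0 hj hv
    rw [hMk, hk1] at w1
    obtain ⟨x1, hx1, h1, ⟨d1, t1, h3⟩, h2⟩ := V.firstU hM hN hI hT (Rt.nr V hM hR hy0)
      (Rt.nr V.flip hN hR.flip hy0) hq ho hj w1
    refine ⟨true, x1, hx1, h1, ?_, h2⟩
    rw [← hk1] at h3
    have h4 := Vs.rev V hM lt1 hx1 h3
    rw [← hMk, hM.g.inv k0 lt0] at h4
    exact ⟨_, _, h4⟩
  · have hr0 : rf w h k0 < h ∨ 3 * h + w ≤ rf w h k0 := by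
      unfold rf; split_ifs <;> omega
    obtain ⟨q, hq, ho, hk0⟩ := isU _ (rf_lt lt0) hr0
    obtain ⟨Pu, Pd, P, hP⟩ := V.flip.flip.mats (fun k => !(!s k))
    have w1 := Vs.flip V lt0 hv
    rw [hk0] at w1
    have hyf : ∀ i < w, (mir X).y0.1 ≠ cl i := hy0
    obtain ⟨x1, hx1, h1, ⟨d1, t1, h3⟩, h2⟩ := V.flip.firstU hN hP hI.flip (Two.flip V hT)
      (Rt.nr V.flip hN hR.flip hyf) (Rt.nr V.flip.flip hP hR.flip.flip hyf) hq ho hj w1
    refine ⟨false, x1, hx1, NearE.flip hh h1, Vs.unflip V lt0 (by rw [hk0]; exact h3), ?_⟩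
    intro A B ξ hAB hξ hξn a b hab φ
    have hAB' : Over B A := ⟨by rw [mul_comm]; exact hAB.mul, by rw [add_comm]; exact hAB.add⟩
    have hξ' : ξ⁻¹ ^ 2 = B := by
      rw [inv_pow, hξ]
      have h3 := hAB.mul
      have hA0 : A ≠ 0 := by intro h0; rw [h0, zero_mul] at h3; exact zero_ne_one h3
      rw [inv_eq_of_mul_eq_one_right h3]
    have key := h2 hAB' hξ' (by rw [norm_inv, hξn, inv_one]) (a := b) (b := a)
      (fun i hi => ⟨(hab i hi).2, (hab i hi).1⟩) (fun k => φ (-k))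
    rw [cpn_mir, cpn_mir, norm_neg, norm_neg] at key
    exact key

/-- the strand of the window passes the far entrance -/
lemma Ent.con (hs : Sg T w h Xc y0 s ζ) {k x1 m : ℕ} {c a : ℤ × ℤ} {d : Bool} {t : ℤ}
    (hE : Ent Y τ w h cl T Xc y0 s ζ In k c a m) (hx1 : x1 < w)
    (hv : Vs Y τ w h cl T s k x1 d t) : Con ζ {e | BL Xc y0 w h e} a (sgc Xc y0 h x1) := by
  have hh := V.h0
  obtain ⟨n, hn⟩ := hv
  have hn' : Pn (ps Y s (Qb τ w cl)) (Y.dt s) (Bx' T w 0 (2 * h)) n (se T w (2 * h) k)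
    (psn T h x1 d) t := hn
  have tr := Cr.track V hs hE.pi.1 (n := n) (by
    intro j hj
    left
    rcases Nat.lt_or_ge j n with h1 | h1
    · exact hn'.2.1 j h1
    · have : j = n := by omega
      rw [this, hn'.1]; exact V.psn_AB hx1 d)
  have h1 := tr n le_rfl
  rw [hn'.1] at h1
  have h2 : (nx ζ)^[n] c = sgc Xc y0 h x1 := cr_psn hh h1 V.Tinj hx1
  rcases le_total m n with h3 | h3
  · left
    obtain ⟨r, rfl⟩ : ∃ r, n = r + m := ⟨n - m, by omega⟩
    rw [Function.iterate_add_apply, hE.eq] at h2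
    refine ⟨r, h2, fun j hj => ?_⟩
    rw [← hE.eq, ← Function.iterate_add_apply]
    exact Cr.bl (tr (j + m) (by omega))
  · right
    obtain ⟨r, rfl⟩ : ∃ r, m = r + n := ⟨m - n, by omega⟩
    have h4 := hE.eq
    rw [Function.iterate_add_apply, h2] at h4
    refine ⟨r, h4, fun j hj => ?_⟩
    rw [← h2, ← Function.iterate_add_apply]
    exact Cr.bl (hE.cr (j + n) (by omega))

/-- **The first crossing of the strand of a window.** -/
theorem win_first (hs : Sg T w h Xc y0 s ζ) (hOut : ∀ e ∈ Out, BL Xc y0 w h e)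
    (uniq : ∀ e e', FarIn In Out ζ e → FarIn In Out ζ e' → e = e')
    (hI : Ind Y s τ X) {r : ℤ} (hR : Rt Y s τ w h cl T X ρ0 r) (hy0 : ∀ i < w, X.y0.1 ≠ cl i)
    {A B ξ : ℂ} (hAB : Over A B) (hξ : ξ ^ 2 = A) {a b : Fin N → ℂ}
    (hab : ∀ i < w, a (cl i) = A ∧ b (cl i) = B) {φ : ℤ → ℂ} {j : ℕ} (hj : j < w)
    (hu : gl Xc y0 h j h ∈ In) (hd : gl Xc y0 h j (h - 1) ∈ In)
    (hne : cpn X φ a b (cl j) ≠ 0) :
    ∃ e : Bool, ∃ x1 < w, NearE T w h cl (Isf T w h Xc y0 In) X e x1 ∧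
      (∀ z, FarIn In Out ζ z → Con ζ {e | BL Xc y0 w h e} z (sgc Xc y0 h x1)) ∧
      ∀ {A B ξ : ℂ}, Over A B →
      ξ ^ 2 = A → ‖ξ‖ = 1 → ∀ {a b : Fin N → ℂ}, (∀ i < w, a (cl i) = A ∧ b (cl i) = B) →
        ∀ φ : ℤ → ℂ, ‖cpn X φ a b (cl j)‖ = ‖cpn X φ a b (cl x1)‖ := by
  obtain ⟨Mu, Md, M, hM⟩ := V.mats s
  obtain ⟨Nu, Nd, M2, hN⟩ := V.flip.mats (fun k => !s k)
  have hun : ¬ Un Y τ w h cl T s j := fun hun =>
    hne (V.un_zero hM hN hI (Rt.nr V hM hR hy0) (Rt.nr V.flip hN hR.flip hy0) hAB hξ hab φ hun)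
  obtain ⟨k, hk, d, t, hv⟩ : ∃ k < 2 * (2 * h + w), ∃ d t, Vs Y τ w h cl T s k j d t := by
    by_contra hcon
    push Not at hcon
    exact hun ⟨hj, hcon⟩
  obtain ⟨k, hk, d, t, hv, c, hP⟩ : ∃ k < 2 * (2 * h + w), ∃ d t, Vs Y τ w h cl T s k j d t ∧
      ∃ c, PI T w h Xc y0 k c := by
    rcases V.port_or (Xc := Xc) (y0 := y0) hM hk with h1 | h1
    · exact ⟨k, hk, d, t, hv, h1⟩
    · exact ⟨M k, hM.g.lt k hk, _, _, Vs.rev V hM hk hj hv, h1⟩
  obtain ⟨e, m, hf, hE⟩ := V.ent hs hP (Vs.vi V hj hu hd hv) hOut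
  have hT := Ent.two V hM hk hs hE hOut (fun a' h' => uniq a' e h' hf)
  obtain ⟨e1, x1, hx1, h1, ⟨d1, t1, h3⟩, h2⟩ := V.first hM hI hT rfl hR hy0 hj hv
  refine ⟨e1, x1, hx1, h1, fun z hz => ?_, h2⟩
  rw [uniq z e hz hf]
  exact Ent.con V hs hE hx1 h3

end

end World

end Pool.Agent.H39.WB
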