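import Mathlib
import Pool.Agent.H81.W.AmpA
import Pool.Agent.H30.W.RowE
import Pool.Agent.H39.W.B.First
import Pool.Agent.H39.W.B.EnvRoot

set_option autoImplicit false
set_option linter.unusedSectionVars false
set_option linter.unusedVariables false
open Finset

/-! # Amplitudes of a row with extra tiles and a fixed first tile of the target

`Em X lb ct y` : the path of the corner `ct` meets the random labels for the first time at the end `y` of
the family `lb`. Then the amplitude `AG` is the state sum of the network of the tiles with the mark `y`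
and a phase which does not depend on the configuration (`AG_ZF`). -/

namespace Pool.Agent.H39.WB

open Pool.Agent.H75.Perc Pool.Agent.H75.TwoArm Pool.Agent.Q1 Pool.Agent.H81.G1
open Pool.Agent.H69.M6b Pool.Agent.H69.M6b.World
open Pool.Agent.H30.Mid (rl rp rcr RS mem_RS cA cB ug mem_ug)
open Pool.Agent.H30.W
open Pool.Agent.Q1.M6b.Gl (gE tr mem_tr)
open Pool.Agent.Q1.M6b.Gd

section
variable {ι : Type*} [Fintype ι] [DecidableEq ι] {X : Env} {lb : ι → ℤ × ℤ}

/-- the path of `ct` meets the random labels for the first time at the end `y` -/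
structure Em (X : Env) (lb : ι → ℤ × ℤ) (ct : ℤ × ℤ) (y : ι × Dir) (n : ℕ) : Prop where
  inc : inc (gp lb) y = true
  lt : ∀ i < n, lab (X.out^[i] ct) ∉ X.E
  cr : X.out^[n] ct = gcr lb y

/-- the phase of the path of `ct` -/
noncomputable def phE (X : Env) (ct : ℤ × ℤ) (n : ℕ) : ℂ :=
  Pool.Agent.Q1.ph (-∑ i ∈ range n, X.dout (X.out^[i] ct))

/-- out of random labels the frozen environment is the same -/
lemma frz_out (E ω : Finset (ℤ × ℤ)) {c : ℤ × ℤ} (hc : lab c ∉ X.E) :
    (X.freeze E ω).out c = X.out c ∧ (X.freeze E ω).dout c = X.dout c := by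
  change (if lab c ∈ X.E then nx ω c else X.out c) = _ ∧
    (if lab c ∈ X.E then del ω c else X.dout c) = _
  rw [if_neg hc, if_neg hc]; exact ⟨rfl, rfl⟩

lemma frz_iter (E ω : Finset (ℤ × ℤ)) {c : ℤ × ℤ} {n : ℕ} (h : ∀ i < n, lab (X.out^[i] c) ∉ X.E) :
    ∀ i ≤ n, (X.freeze E ω).out^[i] c = X.out^[i] c := by
  intro i
  induction i with
  | zero => intro _; rfl
  | succ i ih =>
    intro hi
    rw [Function.iterate_succ_apply', ih (by omega), Function.iterate_succ_apply']
    exact (frz_out E ω (h i (by omega))).1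

/-- **The target is an end**: either the increment does not depend on the random labels, or it is a fixed
phase times the increment at the end. -/
theorem Em.cases {ct : ℤ × ℤ} {y : ι × Dir} {n : ℕ} (he : Em X lb ct y n) (h : Fam X lb) :
    (∃ u : ℂ, ∀ a b ω, AG X lb ct a b ω = u * ∏ i, (a i + b i)) ∨
    ∀ a b ω, AG X lb ct a b ω = phE X ct n * AG X lb (gcr lb y) a b ω := by
  classical
  by_cases hS : ct ∈ X.S
  swap
  · left
    refine ⟨0, fun a b ω => AG_of_const h (fun ρ hρ => incO_none fun i _ hz => hS ?_) a b⟩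
    have hρ' : ρ ⊆ (X.freeze (univ.image lb) ω).E := by rw [h.frE]; exact hρ
    have h1 := Env.z_mem hρ' i
    rw [hz] at h1
    exact h1
  have nE : ∀ (ω : Finset (ℤ × ℤ)) (c : ℤ × ℤ), lab c ∉ X.E →
      lab c ∉ (X.freeze (univ.image lb) ω).E := fun ω c hc hh => hc (by
    rw [h.frE] at hh; exact h.sub hh)
  by_cases hb : ∃ j, 0 < j ∧ j ≤ n ∧ X.out^[j] ct = X.c0
  · left
    set j := Nat.find hb with hj
    obtain ⟨j1, j2, j3⟩ := Nat.find_spec hb
    refine ⟨Pool.Agent.Q1.ph (X.k0 + X.T - ∑ i ∈ range j, X.dout (X.out^[i] ct)),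
      fun a b ω => AG_of_const h (fun ρ hρ => ?_) a b⟩
    have hρ' : ρ ⊆ (X.freeze (univ.image lb) ω).E := by rw [h.frE]; exact hρ
    have it := frz_iter (X := X) (univ.image lb) ω he.lt
    have h1 := incO_back (Y := X.freeze (univ.image lb) ω) (c := ct) hS j1
      (by rw [it j j2]; exact j3)
      (fun i hi => by rw [it i (by omega)]; exact nE ω _ (he.lt i (by omega)))
      (fun i hi0 hij hh => by
        rw [it i (by omega)] at hh
        exact Nat.find_min hb hij ⟨hi0, by omega, hh⟩) hρ'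
    rw [h1]
    congr 1
    have e1 : (X.freeze (univ.image lb) ω).k0 = X.k0 := rfl
    have e2 : (X.freeze (univ.image lb) ω).T = X.T := rfl
    rw [e1, e2]
    congr 1
    refine sum_congr rfl fun i hi => ?_
    rw [mem_range] at hi
    rw [it i (by omega), (frz_out _ ω (he.lt i (by omega))).2]
  · right
    intro a b ω
    push Not at hb
    have it := frz_iter (X := X) (univ.image lb) ω he.lt
    unfold AG
    rw [mul_sum]
    refine sum_congr rfl fun s _ => ?_
    have h1 := osn_sub (h.tiles ω) s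
    have h2 := incO_fwd (Y := X.freeze (univ.image lb) ω) (c := ct) (n := n) hS
      (fun i hi => by rw [it i hi.le]; exact nE ω _ (he.lt i hi))
      (fun i hi0 hin hh => by
        rw [it i hin] at hh
        exact hb i hi0 hin hh) h1
    rw [h2, it n le_rfl, he.cr]
    have e3 : ∑ i ∈ range n, (X.freeze (univ.image lb) ω).dout
        ((X.freeze (univ.image lb) ω).out^[i] ct) = ∑ i ∈ range n, X.dout (X.out^[i] ct) := by
      refine sum_congr rfl fun i hi => ?_
      rw [mem_range] at hi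
      rw [it i hi.le, (frz_out _ ω (he.lt i hi)).2]
    rw [e3]
    unfold phE
    ring

/-- the root does not meet the tiles -/
lemma AG_none (h : Fam X lb) {y : ι × Dir} (hy : inc (gp lb) y = true) {ω : Finset (ℤ × ℤ)}
    (hm : ¬ Meets (X.freeze (univ.image lb) ω)) (a b : ι → ℂ) : AG X lb (gcr lb y) a b ω = 0 := by
  rw [AG_of_const h (u := 0) ?_ a b, zero_mul]
  intro ρ hρ
  set Y := X.freeze (univ.image lb) ω with hY
  have hρ' : ρ ⊆ Y.E := by rw [hY, h.frE]; exact hρ
  have hno : ∀ i, lab (Y.out^[i] Y.c0) ∉ Y.E := fun i hi => hm ⟨i, hi⟩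
  refine incO_none fun i _ hz => ?_
  have e := (wire_iter hρ' Y.c0_mem (n := i) (fun j _ => hno j)).1 i le_rfl
  apply hno i
  rw [← e]
  have h1 : Y.z ρ i = (Y.f ρ)^[i] Y.c0 := rfl
  rw [← h1, hz]
  exact mem_cr (h.tiles ω) hy

/-- the mark is the first end which the root meets -/
lemma AG_triv (h : Fam X lb) {y : ι × Dir} {ω : Finset (ℤ × ℤ)}
    (hm : Meets (X.freeze (univ.image lb) ω)) (hy : y = rx0 (h.tiles ω) hm) {a b : ι → ℂ} {i : ι}
    (hc : a i + b i = 0) : AG X lb (gcr lb y) a b ω = 0 := by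
  rw [AG_of_const h (u := Pool.Agent.Q1.ph ((X.freeze (univ.image lb) ω).k0 +
    dsh (X.freeze (univ.image lb) ω) (rn0 (X.freeze (univ.image lb) ω)))) ?_ a b,
    prod_eq_zero (mem_univ i) hc, mul_zero]
  intro ρ hρ
  have hρ' : ρ ⊆ (X.freeze (univ.image lb) ω).E := by rw [h.frE]; exact hρ
  rw [hy]
  exact incO_root (h.tiles ω) hm hρ'

/-- the general case -/
lemma AG_at (h : Fam X lb) {y : ι × Dir} (hy : inc (gp lb) y = true) {ω : Finset (ℤ × ℤ)}
    (hm : Meets (X.freeze (univ.image lb) ω)) (hne : y ≠ rx0 (h.tiles ω) hm) (a b : ι → ℂ) :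
    AG X lb (gcr lb y) a b ω = zt ^ (6 * ty (gcr lb y) - 2 * ((X.freeze (univ.image lb) ω).k0 +
      dsh (X.freeze (univ.image lb) ω) (rn0 (X.freeze (univ.image lb) ω)))) *
      (net (h.tiles ω) hm y).Z a b := by
  unfold AG Net.Z
  rw [mul_sum]
  refine sum_congr rfl fun s _ => ?_
  have hW := net_wired (h.tiles ω) hm hy hne
  have h1 := incO_amp hW (osn_sub (h.tiles ω) s)
  rw [stt_osn (h.tiles ω)] at h1
  have h2 : (net (h.tiles ω) hm y).y0 = y := rfl
  rw [h2] at h1
  rw [h1]
  ring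

/-- the phase function of the amplitudes -/
noncomputable def phA (X : Env) (lb : ι → ℤ × ℤ) (ct : ℤ × ℤ) (n : ℕ) (y : ι × Dir) (m : ℕ)
    (k : ℤ) : ℂ :=
  phE X ct n * (zt ^ (6 * ty (gcr lb y) - 2 * X.k0 - 2 * dsh X m) * zt ^ (-2 * k))

/-- the amplitude as a state sum of the network of the tiles -/
lemma AG_ZF {ct : ℤ × ℤ} {y : ι × Dir} {n : ℕ} (he : Em X lb ct y n) (h : Fam X lb)
    (hf : ∀ a b ω, AG X lb ct a b ω = phE X ct n * AG X lb (gcr lb y) a b ω) {ω : Finset (ℤ × ℤ)}
    (hm : Meets (X.freeze (univ.image lb) ω)) (m : ℕ) {a b : ι → ℂ} {i : ι} (hc : a i + b i = 0) :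
    AG X lb ct a b ω = ZF (net (h.tiles ω) hm y)
      (fun k => phA X lb ct n y m (k + (dsh (X.freeze (univ.image lb) ω)
        (rn0 (X.freeze (univ.image lb) ω)) - dsh X m))) a b := by
  have h0 := zt_ne
  rw [hf]
  by_cases hne : y = rx0 (h.tiles ω) hm
  · rw [AG_triv h hm hne hc, mul_zero]
    symm
    exact ZF_triv _ (wπ_wπ (h.tiles ω)) hne _ hc
  · rw [AG_at h he.inc hm hne, ← ZF_eq, ← mul_assoc, ← ZF_smul]
    congr 1
    funext k
    unfold phA
    rw [mul_assoc, ← zpow_add₀ h0, ← zpow_add₀ h0]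
    congr 2
    have e : (X.freeze (univ.image lb) ω).k0 = X.k0 := rfl
    rw [e]
    ring

end

end Pool.Agent.H39.WB
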