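import Mathlib
import Pool.Agent.H39.W.B.AGW

set_option autoImplicit false
set_option linter.unusedSectionVars false
set_option linter.unusedVariables false
open Finset

/-! # The tiles of a row and the extra tiles, numbered

The tiles of `lbE N x0 y0 l2` are numbered by `Fin (N + card κ)`, the row first. -/

namespace Pool.Agent.H39.WB

open Pool.Agent.H75.Perc Pool.Agent.H75.TwoArm Pool.Agent.Q1 Pool.Agent.H81.G1
open Pool.Agent.H69.M6b Pool.Agent.H69.M6b.World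
open Pool.Agent.H30.Mid (rl rp rcr RS mem_RS cA cB ug mem_ug)
open Pool.Agent.H30.W
open Pool.Agent.Q1.M6b.Gl (gE tr mem_tr)
open Pool.Agent.Q1.M6b.Gd

section
variable {N : ℕ} {κ : Type*} [Fintype κ] [DecidableEq κ] {X : Env} {x0 y0 : ℤ} {l2 : κ → ℤ × ℤ}
  {EL EU : Finset (ℤ × ℤ)}

/-- number of tiles -/
abbrev NT (N : ℕ) (κ : Type*) [Fintype κ] : ℕ := N + Fintype.card κ

/-- the numbering: first the row, then the extra tiles -/
noncomputable def eqF (N : ℕ) (κ : Type*) [Fintype κ] : Fin (NT N κ) ≃ Fin N ⊕ κ :=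
  finSumFinEquiv.symm.trans (Equiv.sumCongr (Equiv.refl _) (Fintype.equivFin κ).symm)

lemma eqF_symm_inl (c : Fin N) : (eqF N κ).symm (.inl c) = Fin.castAdd _ c := by
  rw [Equiv.symm_apply_eq]
  unfold eqF
  simp

lemma eqF_castAdd (c : Fin N) : eqF N κ (Fin.castAdd _ c) = .inl c := by
  rw [← eqF_symm_inl, Equiv.apply_symm_apply]

lemma eqF_lt {c : Fin (NT N κ)} (h : (c : ℕ) < N) : eqF N κ c = .inl ⟨c, h⟩ := by
  have e : c = Fin.castAdd _ (⟨c, h⟩ : Fin N) := Fin.ext rfl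
  rw [← eqF_castAdd (κ := κ)]
  congr 1

lemma eqF_inr {c : Fin (NT N κ)} {j : κ} (h : eqF N κ c = .inr j) : N ≤ (c : ℕ) := by
  by_contra hc
  rw [eqF_lt (not_le.1 hc)] at h
  simp at h

/-- labels of the tiles -/
noncomputable def lbF (N : ℕ) (x0 y0 : ℤ) (l2 : κ → ℤ × ℤ) (c : Fin (NT N κ)) : ℤ × ℤ :=
  lbE N x0 y0 l2 (eqF N κ c)

lemma lbF_lt {c : Fin (NT N κ)} (h : (c : ℕ) < N) : lbF N x0 y0 l2 c = lbt (x0 + (c : ℕ)) y0 := by
  unfold lbF
  rw [eqF_lt h]
  rfl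

lemma famF (h : Fam X (lbE N x0 y0 l2)) : Fam X (lbF N x0 y0 l2) :=
  ⟨fun i j hij => (eqF N κ).injective (h.inj hij), fun i => h.mem _⟩

lemma image_lbF (N : ℕ) (x0 y0 : ℤ) (l2 : κ → ℤ × ℤ) :
    univ.image (lbF N x0 y0 l2) = RS N x0 y0 ∪ XS l2 := by
  rw [← image_lbE]
  ext x
  rw [mem_image, mem_image]
  constructor
  · rintro ⟨j, -, rfl⟩; exact ⟨eqF N κ j, mem_univ _, rfl⟩
  · rintro ⟨i, -, rfl⟩
    exact ⟨(eqF N κ).symm i, mem_univ _, by unfold lbF; rw [Equiv.apply_symm_apply]⟩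

/-- reindexing of the amplitude -/
lemma AG_reindex {ι κ' : Type*} [Fintype ι] [DecidableEq ι] [Fintype κ'] [DecidableEq κ']
    {lb : ι → ℤ × ℤ} (g : κ' ≃ ι) (ct : ℤ × ℤ) (a b : ι → ℂ) (h : Fam X lb) (ω : Finset (ℤ × ℤ)) :
    AG X (fun j => lb (g j)) ct (fun j => a (g j)) (fun j => b (g j)) ω = AG X lb ct a b ω := by
  have h' : Fam X (fun j => lb (g j)) := ⟨fun i j hij => g.injective (h.inj hij), fun i => h.mem _⟩
  rw [AG_eq h, AG_eq h']
  have him : univ.image (fun j => lb (g j)) = univ.image lb := by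
    ext x
    rw [mem_image, mem_image]
    constructor
    · rintro ⟨j, -, rfl⟩; exact ⟨g j, mem_univ _, rfl⟩
    · rintro ⟨i, -, rfl⟩; exact ⟨g.symm i, mem_univ _, by rw [Equiv.apply_symm_apply]⟩
  rw [him, ← (Equiv.arrowCongr g (Equiv.refl Bool)).sum_comp]
  refine sum_congr rfl fun s _ => ?_
  have e1 : ∀ i, (Equiv.arrowCongr g (Equiv.refl Bool)) s i = s (g.symm i) := fun i => rfl
  have e2 : osn (fun j => lb (g j)) (gp fun j => lb (g j)) s =
      osn lb (gp lb) ((Equiv.arrowCongr g (Equiv.refl Bool)) s) := by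
    ext x
    unfold osn
    rw [mem_image, mem_image]
    constructor
    · rintro ⟨j, hj, rfl⟩
      refine ⟨g j, mem_filter.2 ⟨mem_univ _, ?_⟩, rfl⟩
      rw [e1, Equiv.symm_apply_apply]
      exact (mem_filter.1 hj).2
    · rintro ⟨i, hi, rfl⟩
      refine ⟨g.symm i, mem_filter.2 ⟨mem_univ _, ?_⟩, by rw [Equiv.apply_symm_apply]⟩
      have h1 := (mem_filter.1 hi).2
      rw [e1] at h1
      unfold gp at h1 ⊢
      simp only [Equiv.apply_symm_apply]
      exact h1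
  rw [e2]
  congr 1
  rw [← g.prod_comp]
  refine prod_congr rfl fun j _ => ?_
  rw [e1, Equiv.symm_apply_apply]

lemma AG_lbF (h : Fam X (lbE N x0 y0 l2)) (ct : ℤ × ℤ) (a b : Fin N ⊕ κ → ℂ) (ω : Finset (ℤ × ℤ)) :
    AG X (lbF N x0 y0 l2) ct (fun c => a (eqF N κ c)) (fun c => b (eqF N κ c)) ω =
      AG X (lbE N x0 y0 l2) ct a b ω :=
  AG_reindex (eqF N κ) ct a b h ω

/-- the tiles -/
noncomputable def τF (h : Fam X (lbE N x0 y0 l2)) (c : Fin (NT N κ)) : TI X :=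
  ⟨lbF N x0 y0 l2 c, h.mem _⟩

/-! ### The network -/

lemma fzF {lb : Fin N → ℤ × ℤ} (h : Fam X lb) (ω : Finset (ℤ × ℤ)) :
    Fz X (X.freeze (univ.image lb) ω) ω := by
  refine ⟨?_, ?_, ?_⟩
  · rw [h.frE]; exact h.sub
  · intro c hc
    exact frz_out _ _ hc
  · intro c hc _
    change (if lab c ∈ X.E then nx ω c else X.out c) = _ ∧
      (if lab c ∈ X.E then del ω c else X.dout c) = _
    rw [if_pos hc, if_pos hc]; exact ⟨rfl, rfl⟩

lemma netF {M : ℕ} {lb : Fin M → ℤ × ℤ} (h : Fam X lb) {τ : Fin M → TI X} (hτ : ∀ c, (τ c).1 = lb c)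
    {ω : Finset (ℤ × ℤ)} (hm : Meets (X.freeze (univ.image lb) ω)) (y : Fin M × Dir) :
    RowNet X (X.freeze (univ.image lb) ω) τ lb (gp lb) (gcr lb)
      (net (h.tiles ω) hm y) (rn0 (X.freeze (univ.image lb) ω)) := by
  set T := h.tiles ω
  refine ⟨T, wπ_wπ T, wτ_wπ T, inc_wπ T, rx0_in T hm, ?_, ⟨fun i hi => rn0_lt hm hi, rx0_cr T hm⟩,
    fun c => (hτ c).symm, fun c => ?_, fun x => ?_⟩
  · intro x hx
    refine ⟨wl T x, fun i hi => wl_lt T hx hi, ?_, ?_⟩
    · show gcr lb (wπ T x) = _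
      unfold wπ
      rw [if_pos hx]
      exact sg_cr T hx
    · show wτ T x = _
      unfold wτ
      rw [if_pos hx]
      rfl
  · unfold gp pS
    rw [hτ]
    rfl
  · unfold gcr crS
    rw [hτ]
    rcases x with ⟨c, d⟩
    cases d <;> rfl

/-! ### The box -/

lemma LayE.mem_lo (L : LayE X N x0 y0 l2 EL EU) {x y : ℤ} (hm : lbt x y ∈ gE EL EU (1, -1))
    (hy : y < y0) : lbt x y ∈ EL := by
  rcases mem_union.1 hm with h1 | h1
  · exact h1
  · exfalso
    rw [mem_tr, lbt_sub] at h1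
    have := L.upp _ h1
    rw [lbt_diff] at this
    omega

lemma LayE.mem_hi (L : LayE X N x0 y0 l2 EL EU) {x y : ℤ} (hm : lbt x y ∈ gE EL EU (1, -1))
    (hy : y0 ≤ y) : lbt x (y + 1) ∈ EU := by
  rcases mem_union.1 hm with h1 | h1
  · exfalso
    have := L.low _ h1
    rw [lbt_diff] at this
    omega
  · rw [mem_tr, lbt_sub] at h1
    exact h1

lemma LayE.subL (L : LayE X N x0 y0 l2 EL EU) {e : ℤ × ℤ} (he : e ∈ EL) : e ∈ X.E :=
  (mem_sdiff.1 (L.eq ▸ mem_union_left _ he : e ∈ X.E \ (RS N x0 y0 ∪ XS l2))).1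

lemma LayE.subU (L : LayE X N x0 y0 l2 EL EU) {e : ℤ × ℤ} (he : e ∈ EU) : e ∈ X.E :=
  (mem_sdiff.1 (L.eq ▸ mem_union_right _ he : e ∈ X.E \ (RS N x0 y0 ∪ XS l2))).1

/-- the tiles of the family are not in `EL ∪ EU` -/
lemma LayE.noF (L : LayE X N x0 y0 l2 EL EU) {e : ℤ × ℤ} (he : e ∈ EL ∪ EU) (c : Fin (NT N κ)) :
    lbF N x0 y0 l2 c ≠ e := by
  intro h
  have h1 : e ∈ X.E \ (RS N x0 y0 ∪ XS l2) := by rw [L.eq]; exact he
  apply (mem_sdiff.1 h1).2
  rw [← image_lbF, ← h]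
  exact mem_image_of_mem _ (mem_univ _)

variable {c0 w h : ℕ} {In Out ζ ζ' : Finset (ℤ × ℤ)}

lemma LayE.tl (L : LayE X N x0 y0 l2 EL EU) (G : GBox EL EU N x0 y0 c0 w h) {i j : ℤ} (h1 : -1 ≤ i)
    (h2 : i ≤ w) (h3 : -1 ≤ j) (h4 : j ≤ 2 * h) :
    Pool.Agent.H69.M6b.tl (x0 + c0) y0 h i j ∈ EL ∪ EU := by
  have hm := G.box i j h1 h2 h3 h4
  unfold Pool.Agent.H69.M6b.tl hgt
  split_ifs with hj
  · exact mem_union_left _ (LayE.mem_lo L hm (by omega))
  · exact mem_union_right _ (LayE.mem_hi L hm (by omega))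

lemma LayE.boxF (L : LayE X N x0 y0 l2 EL EU) (G : GBox EL EU N x0 y0 c0 w h) :
    BoxF X (τF L.fam) x0 y0 c0 w h := by
  refine ⟨?_, ?_, G.w0, G.h0, G.c1, ?_, ?_, ?_⟩
  · intro i j hij
    exact (famF L.fam).inj (congrArg (fun z : TI X => z.1) hij)
  · intro c _ h2
    have := G.c2
    exact lbF_lt (by omega)
  · have := G.c2
    unfold NT
    omega
  · intro i j h1 h2 h3 h4
    rcases mem_union.1 (LayE.tl L G h1 h2 h3 h4) with h5 | h5
    · exact LayE.subL L h5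
    · exact LayE.subU L h5
  · intro i hi j hj c
    exact LayE.noF L (LayE.tl L G (by omega) (by omega) (by omega) (by omega)) c

/-- the states of the box -/
lemma LayE.sg (L : LayE X N x0 y0 l2 EL EU) (G : GBox EL EU N x0 y0 c0 w h) (dflt : TI X)
    (ζ : Finset (ℤ × ℤ)) : Sg (TS X dflt (x0 + c0) y0 h) w h (x0 + c0) y0
      (stt lbS pS (ug EL EU (1, -1) ζ)) ζ := by
  intro i hi j hj
  have hh := G.h0
  have hm := G.box i j (by omega) (by omega) (by omega) (by omega)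
  have B := LayE.boxF L G
  rw [TS_eq (B.box i j (by omega) (by omega) (by omega) (by omega))]
  change (decide (Pool.Agent.H69.M6b.tl (x0 + c0) y0 h i j ∈ ug EL EU (1, -1) ζ) ==
      pr0 (Pool.Agent.H69.M6b.tl (x0 + c0) y0 h i j)) =
    (decide (gl (x0 + c0) y0 h i j ∈ ζ) == pr0 (gl (x0 + c0) y0 h i j))
  rcases Nat.lt_or_ge j h with hjh | hjh
  · have e : Pool.Agent.H69.M6b.tl (x0 + c0) y0 h i j = gl (x0 + c0) y0 h i j := by
      unfold Pool.Agent.H69.M6b.tl hgt gl; rw [if_pos (by omega)]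
    have hl : gl (x0 + c0) y0 h i j ∈ EL := LayE.mem_lo L hm (by omega)
    rw [e]
    congr 1
    apply decide_eq_decide.2
    rw [mem_ug]
    constructor
    · rintro (h1 | h1)
      · exact h1.1
      · exfalso
        have h2 := L.low _ hl
        have h3 := L.upp _ h1.1
        omega
    · intro h1; exact Or.inl ⟨h1, hl⟩
  · have e : Pool.Agent.H69.M6b.tl (x0 + c0) y0 h i j = lbt (x0 + c0 + i) (y0 - h + j + 1) := by
      unfold Pool.Agent.H69.M6b.tl hgt; rw [if_neg (by omega)]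
    have hl : lbt (x0 + c0 + i) (y0 - h + j + 1) ∈ EU := LayE.mem_hi L hm (by omega)
    have e2 : lbt (x0 + c0 + i) (y0 - h + j + 1) + (1, -1) = gl (x0 + c0) y0 h i j := by
      unfold gl
      rw [← lbt_sub, sub_add_cancel]
    have e3 : pr0 (gl (x0 + c0) y0 h i j) = !pr0 (lbt (x0 + c0 + i) (y0 - h + j + 1)) := by
      apply pr0_shift
      rw [← e2]
      simp only [Prod.fst_add]
      omega
    rw [e, e3]
    have key : (lbt (x0 + c0 + i) (y0 - h + j + 1) ∈ ug EL EU (1, -1) ζ) ↔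
        ¬ gl (x0 + c0) y0 h i j ∈ ζ := by
      rw [mem_ug, e2]
      constructor
      · rintro (h1 | h1)
        · exfalso
          have h2 := L.low _ h1.2
          have h3 := L.upp _ hl
          omega
        · exact h1.2
      · intro h1; exact Or.inr ⟨hl, h1⟩
    generalize pr0 (lbt (x0 + c0 + i) (y0 - h + j + 1)) = b
    by_cases h1 : gl (x0 + c0) y0 h i j ∈ ζ
    · rw [decide_eq_true h1, decide_eq_false (fun h2 => key.1 h2 h1)]
      cases b <;> rfl
    · rw [decide_eq_false h1, decide_eq_true (key.2 h1)]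
      cases b <;> rfl

/-- agreement off the window -/
lemma LayE.ag (L : LayE X N x0 y0 l2 EL EU) (G : GBox EL EU N x0 y0 c0 w h) (dflt : TI X)
    (hag : ∀ e, e ∉ In → (e ∈ ζ ↔ e ∈ ζ')) (hIn : ∀ e ∈ In, BL (x0 + c0) y0 w h e) :
    Ag (τF L.fam) (Isf (TS X dflt (x0 + c0) y0 h) w h (x0 + c0) y0 In)
      (stt lbS pS (ug EL EU (1, -1) ζ)) (stt lbS pS (ug EL EU (1, -1) ζ')) := by
  rintro ⟨e, he⟩ h1 h2
  have hrow : e ∉ RS N x0 y0 ∪ XS l2 := by
    intro h3
    rw [← image_lbF, mem_image] at h3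
    obtain ⟨c, -, hc⟩ := h3
    exact h2 c (Subtype.ext hc.symm)
  have hE : e ∈ EL ∪ EU := by rw [← L.eq]; exact mem_sdiff.2 ⟨he, hrow⟩
  unfold stt lbS
  simp only
  congr 1
  apply decide_eq_decide.2
  rw [mem_ug, mem_ug]
  rcases mem_union.1 hE with hl | hu
  · have hn : e ∉ EU := by
      intro h3
      have h4 := L.low _ hl
      have h5 := L.upp _ h3
      omega
    have hin : e ∉ In := by
      intro h3
      apply h1
      obtain ⟨i, hi, j, hj, e4⟩ := hIn e h3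
      refine ⟨i, hi, j, hj, ?_, by rw [← e4]; exact h3⟩
      have h5 := L.low _ hl
      rw [e4] at h5
      unfold gl at h5
      rw [lbt_diff] at h5
      have e5 : Pool.Agent.H69.M6b.tl (x0 + c0) y0 h i j = e := by
        rw [e4]
        unfold Pool.Agent.H69.M6b.tl hgt gl; rw [if_pos (by omega)]
      rw [TS_eq (by rw [e5]; exact he)]
      exact Subtype.ext e5.symm
    have h3 := hag e hin
    constructor
    · rintro (h4 | h4)
      · exact Or.inl ⟨h3.1 h4.1, hl⟩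
      · exact absurd h4.1 hn
    · rintro (h4 | h4)
      · exact Or.inl ⟨h3.2 h4.1, hl⟩
      · exact absurd h4.1 hn
  · have hn : e ∉ EL := by
      intro h3
      have h4 := L.low _ h3
      have h5 := L.upp _ hu
      omega
    have hin : e + (1, -1) ∉ In := by
      intro h3
      apply h1
      obtain ⟨i, hi, j, hj, e4⟩ := hIn _ h3
      refine ⟨i, hi, j, hj, ?_, by rw [← e4]; exact h3⟩
      have h6 : e = lbt (x0 + c0 + i) (y0 - h + j + 1) := by
        have h7 := lbt_sub (x0 + c0 + i) (y0 - h + j)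
        rw [← h7]
        have h8 : e + (1, -1) = lbt (x0 + c0 + i) (y0 - h + j) := e4
        rw [← h8, add_sub_cancel_right]
      have h5 := L.upp _ hu
      rw [h6, lbt_diff] at h5
      have e5 : Pool.Agent.H69.M6b.tl (x0 + c0) y0 h i j = e := by
        rw [h6]
        unfold Pool.Agent.H69.M6b.tl hgt; rw [if_neg (by omega)]
      rw [TS_eq (by rw [e5]; exact he)]
      exact Subtype.ext e5.symm
    have h3 := hag _ hin
    constructor
    · rintro (h4 | h4)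
      · exact absurd h4.2 hn
      · exact Or.inr ⟨hu, fun h5 => h4.2 (h3.2 h5)⟩
    · rintro (h4 | h4)
      · exact absurd h4.2 hn
      · exact Or.inr ⟨hu, fun h5 => h4.2 (h3.1 h5)⟩

end

end Pool.Agent.H39.WB
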