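import Mathlib
import Pool.Agent.H39.W.B.AGN

set_option autoImplicit false
set_option linter.unusedSectionVars false
set_option linter.unusedVariables false
open Finset

/-! # The window theorem for a row with extra tiles -/

namespace Pool.Agent.H39.WB

open Pool.Agent.H75.Perc Pool.Agent.H75.TwoArm Pool.Agent.Q1 Pool.Agent.H81.G1
open Pool.Agent.H69.M6b Pool.Agent.H69.M6b.World
open Pool.Agent.H30.Mid (rl rp rcr RS mem_RS cA cB ug mem_ug)
open Pool.Agent.H30.W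
open Pool.Agent.Q1.M6b.Gl (gE tr mem_tr)
open Pool.Agent.Q1.M6b.Gd

section
variable {N : ℕ} {κ : Type*} [Fintype κ] [DecidableEq κ] {X : Env} {x0 y0 : ℤ} {l2 : κ → ℤ × ℤ}
  {EL EU : Finset (ℤ × ℤ)} {c0 w h : ℕ} {In Out ζ ζ' ω : Finset (ℤ × ℤ)}

/-- weights of the numbered tiles -/
noncomputable def fA (S : Finset (Fin N)) (a : ℂ) (a2 : κ → ℂ) (c : Fin (NT N κ)) : ℂ :=
  eA S a a2 (eqF N κ c)

/-- weights of the numbered tiles -/
noncomputable def fB (S : Finset (Fin N)) (b : ℂ) (b2 : κ → ℂ) (c : Fin (NT N κ)) : ℂ :=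
  eB S b b2 (eqF N κ c)

lemma cl_lt (hN : 0 < N) (G : c0 + w < N) {i : ℕ} (hi : i < w) :
    ((clS N c0 hN i : Fin N) : ℕ) = c0 + i := by
  unfold clS
  simp only
  exact Nat.mod_eq_of_lt (by omega)

lemma clF (hN : 0 < N) (hM : 0 < NT N κ) (G : c0 + w < N) {i : ℕ} (hi : i < w) :
    clS (NT N κ) c0 hM i = Fin.castAdd _ (clS N c0 hN i) := by
  apply Fin.ext
  rw [Fin.val_castAdd, cl_lt hN G hi]
  unfold clS NT
  simp only
  exact Nat.mod_eq_of_lt (by omega)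

lemma eqF_cl (hN : 0 < N) (hM : 0 < NT N κ) (G : c0 + w < N) {i : ℕ} (hi : i < w) :
    eqF N κ (clS (NT N κ) c0 hM i) = .inl (clS N c0 hN i) := by
  rw [clF hN hM G hi, eqF_castAdd]

lemma fA_cl (hN : 0 < N) (hM : 0 < NT N κ) (G : c0 + w < N) {S : Finset (Fin N)} (a : ℂ) (a2 : κ → ℂ)
    {i : ℕ} (hi : i < w) (hS : clS N c0 hN i ∉ S) : fA S a a2 (clS (NT N κ) c0 hM i) = a := by
  unfold fA
  rw [eqF_cl hN hM G hi]
  change cA S a _ = a
  unfold cA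
  rw [if_neg hS]

lemma fB_cl (hN : 0 < N) (hM : 0 < NT N κ) (G : c0 + w < N) {S : Finset (Fin N)} (a : ℂ) (a2 : κ → ℂ)
    {i : ℕ} (hi : i < w) (hS : clS N c0 hN i ∉ S) : fB S a a2 (clS (NT N κ) c0 hM i) = a := by
  unfold fB
  rw [eqF_cl hN hM G hi]
  change cB S a _ = a
  unfold cB
  rw [if_neg hS]

/-- a coupon at the column `c` of the row -/
lemma fA_upd (S : Finset (Fin N)) (a : ℂ) (a2 : κ → ℂ) (c : Fin N) :
    Function.update (fA S a a2) ((eqF N κ).symm (.inl c)) 1 = fA (insert c S) a a2 := by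
  funext i
  obtain ⟨j, rfl⟩ := (eqF N κ).symm.surjective i
  by_cases hj : j = .inl c
  · subst hj
    rw [Function.update_self]
    unfold fA
    rw [Equiv.apply_symm_apply]
    change _ = cA (insert c S) a c
    unfold cA
    rw [if_pos (mem_insert_self _ _)]
  · rw [Function.update_of_ne (fun hh => hj ((eqF N κ).symm.injective hh))]
    unfold fA
    rw [Equiv.apply_symm_apply]
    rcases j with j | j
    · change cA S a j = cA (insert c S) a j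
      unfold cA
      have hj' : j ≠ c := fun hh => hj (by rw [hh])
      by_cases h2 : j ∈ S
      · rw [if_pos h2, if_pos (mem_insert_of_mem h2)]
      · rw [if_neg h2, if_neg (fun h3 => (mem_insert.1 h3).elim hj' h2)]
    · rfl

lemma fB_upd (S : Finset (Fin N)) (a : ℂ) (a2 : κ → ℂ) (c : Fin N) :
    Function.update (fB S a a2) ((eqF N κ).symm (.inl c)) (-1) = fB (insert c S) a a2 := by
  funext i
  obtain ⟨j, rfl⟩ := (eqF N κ).symm.surjective i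
  by_cases hj : j = .inl c
  · subst hj
    rw [Function.update_self]
    unfold fB
    rw [Equiv.apply_symm_apply]
    change _ = cB (insert c S) a c
    unfold cB
    rw [if_pos (mem_insert_self _ _)]
  · rw [Function.update_of_ne (fun hh => hj ((eqF N κ).symm.injective hh))]
    unfold fB
    rw [Equiv.apply_symm_apply]
    rcases j with j | j
    · change cB S a j = cB (insert c S) a j
      unfold cB
      have hj' : j ≠ c := fun hh => hj (by rw [hh])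
      by_cases h2 : j ∈ S
      · rw [if_pos h2, if_pos (mem_insert_of_mem h2)]
      · rw [if_neg h2, if_neg (fun h3 => (mem_insert.1 h3).elim hj' h2)]
    · rfl

lemma cpnF (hN : 0 < N) (hM : 0 < NT N κ) (G : c0 + w < N) (Nw : Net (Fin (NT N κ))) (φ : ℤ → ℂ)
    (S : Finset (Fin N)) (a b : ℂ) (a2 b2 : κ → ℂ) {i : ℕ} (hi : i < w) :
    cpn Nw φ (fA S a a2) (fB S b b2) (clS (NT N κ) c0 hM i) =
      ZF Nw φ (fA (insert (clS N c0 hN i) S) a a2) (fB (insert (clS N c0 hN i) S) b b2) := by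
  have e : clS (NT N κ) c0 hM i = (eqF N κ).symm (.inl (clS N c0 hN i)) := by
    rw [eqF_symm_inl, clF hN hM G hi]
  unfold cpn
  rw [e, fA_upd, fB_upd]

lemma f_coupon (S : Finset (Fin N)) (a b : ℂ) (a2 b2 : κ → ℂ) (c : Fin N) :
    fA (insert c S) a a2 ((eqF N κ).symm (.inl c)) + fB (insert c S) b b2 ((eqF N κ).symm (.inl c)) =
      0 := by
  unfold fA fB
  rw [Equiv.apply_symm_apply]
  change cA (insert c S) a c + cB (insert c S) b c = 0
  unfold cA cB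
  rw [if_pos (mem_insert_self _ _), if_pos (mem_insert_self _ _)]
  ring

/-- the end of the extra tile -/
noncomputable def yF (N : ℕ) {κ : Type*} [Fintype κ] (y : κ × Dir) : Fin (NT N κ) × Dir :=
  ((eqF N κ).symm (.inr y.1), y.2)

lemma yF_cl (hM : 0 < NT N κ) (G : c0 + w < N) (y : κ × Dir) {i : ℕ} (hi : i < w) :
    (yF N y).1 ≠ clS (NT N κ) c0 hM i := by
  intro hh
  have hN : 0 < N := by omega
  have h1 := congrArg (eqF N κ) hh
  rw [eqF_cl hN hM G hi] at h1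
  unfold yF at h1
  simp only [Equiv.apply_symm_apply] at h1
  exact absurd h1 (by simp)

/-- the path of the target in the numbering -/
lemma Em.toF {ct : ℤ × ℤ} {y : κ × Dir} {n : ℕ} (he : Em X l2 ct y n) :
    Em X (lbF N x0 y0 l2) ct (yF N y) n := by
  have e : lbF N x0 y0 l2 (yF N y).1 = l2 y.1 := by
    unfold lbF yF
    simp only [Equiv.apply_symm_apply]
    rfl
  refine ⟨?_, he.lt, ?_⟩
  · have h1 := he.inc
    unfold Pool.Agent.H81.G1.inc gp at h1 ⊢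
    rw [e]
    exact h1
  · rw [he.cr]
    unfold gcr
    rw [e]
    rfl

/-- the amplitudes -/
noncomputable abbrev AE (X : Env) (N : ℕ) (x0 y0 : ℤ) (l2 : κ → ℤ × ℤ) (ct : ℤ × ℤ) (a2 b2 : κ → ℂ)
    (S : Finset (Fin N)) (ω : Finset (ℤ × ℤ)) : ℂ :=
  AG X (lbE N x0 y0 l2) ct (eA S (zt ^ (4 : ℤ)) a2) (eB S (zt ^ (-4 : ℤ)) b2) ω

lemma AE_eq (hF : Fam X (lbE N x0 y0 l2)) (ct : ℤ × ℤ) (a2 b2 : κ → ℂ) (S : Finset (Fin N))
    (ω : Finset (ℤ × ℤ)) : AE X N x0 y0 l2 ct a2 b2 S ω =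
      AG X (lbF N x0 y0 l2) ct (fA S (zt ^ (4 : ℤ)) a2) (fB S (zt ^ (-4 : ℤ)) b2) ω :=
  (AG_lbF hF ct _ _ ω).symm

/-- the trivial case -/
lemma AE_const (hF : Fam X (lbE N x0 y0 l2)) {ct : ℤ × ℤ}
    (hu : ∃ u : ℂ, ∀ a b ω, AG X (lbF N x0 y0 l2) ct a b ω = u * ∏ i, (a i + b i)) (a2 b2 : κ → ℂ)
    (S : Finset (Fin N)) (c : Fin N) (ω : Finset (ℤ × ℤ)) :
    AE X N x0 y0 l2 ct a2 b2 (insert c S) ω = 0 := by
  obtain ⟨u, hu⟩ := hu
  rw [AE_eq hF, hu, prod_eq_zero (i := (eqF N κ).symm (.inl c)) (mem_univ _)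
    (f_coupon S _ _ a2 b2 c), mul_zero]

lemma meetsF {M : ℕ} {lb : Fin M → ℤ × ℤ} (h : Fam X lb)
    (hm : Meets (X.freeze (univ.image lb) ω)) : Meets X := by
  by_contra hno
  have hno' : ∀ i, lab (X.out^[i] X.c0) ∉ X.E := fun i hi => hno ⟨i, hi⟩
  obtain ⟨n, hn⟩ := hm
  have key := frz_iter (X := X) (univ.image lb) ω (c := X.c0) (n := n) (fun i _ => hno' i)
  have h1 : (X.freeze (univ.image lb) ω).c0 = X.c0 := rfl
  rw [h1, key n le_rfl] at hn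
  rw [h.frE] at hn
  exact hno' n (h.sub hn)

variable {ct : ℤ × ℤ} {y2 : κ × Dir} {n : ℕ}

/-- **The amplitudes of the row with extra tiles and the box.** -/
theorem awF (L : LayE X N x0 y0 l2 EL EU) (G : GBox EL EU N x0 y0 c0 w h) (dflt : TI X)
    (hN : 0 < N) (hM : 0 < NT N κ) (he : Em X l2 ct y2 n)
    (hf : ∀ a b ω, AG X (lbF N x0 y0 l2) ct a b ω = phE X ct n *
      AG X (lbF N x0 y0 l2) (gcr (lbF N x0 y0 l2) (yF N y2)) a b ω)
    {ρ0 : TI X × Dir} {m : ℕ} (hR : RootP X ρ0 m) (x1 y1 : TI X × Dir)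
    (ω : Finset (ℤ × ℤ)) (S : Finset (Fin N)) (a2 b2 : κ → ℂ) :
    AW (netS X x1 y1) (stt lbS pS ω) (τF L.fam) w h (clS (NT N κ) c0 hM)
      (TS X dflt (x0 + c0) y0 h) ρ0 (phA X (lbF N x0 y0 l2) ct n (yF N y2) m) (yF N y2)
      (fA S (zt ^ (4 : ℤ)) a2) (fB S (zt ^ (-4 : ℤ)) b2)
      (fun i => AE X N x0 y0 l2 ct a2 b2 (insert (clS N c0 hN i) S) ω) := by
  have hF := famF L.fam
  have hFz := fzF hF ω
  have heF := he.toF (N := N) (x0 := x0) (y0 := y0)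
  have hc : (X.freeze (univ.image (lbF N x0 y0 l2)) ω).c0 = X.c0 := rfl
  by_cases hm : Meets (X.freeze (univ.image (lbF N x0 y0 l2)) ω)
  · left
    have R := netF hF (τ := τF L.fam) (fun c => rfl) hm (yF N y2)
    refine ⟨net (hF.tiles ω) hm (yF N y2), _, ind_env hFz R x1 y1,
      ⟨root_nb (LayE.boxF L G) dflt hR, root_nc (LayE.boxF L G) hM hR,
        root_pr hFz hc R hR x1 y1⟩, rfl, ?_⟩
    intro i hi
    simp only
    rw [cpnF hN hM G.c2 _ _ S _ _ a2 b2 hi, AE_eq L.fam]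
    exact AG_ZF heF hF hf hm m (f_coupon S _ _ a2 b2 (clS N c0 hN i))
  · right
    refine ⟨⟨root_nb (LayE.boxF L G) dflt hR, root_nc (LayE.boxF L G) hM hR, ?_⟩, ?_⟩
    · intro k
      refine root_never hFz hc ?_ ?_ hR x1 y1 k
      · intro z hz c hc
        apply hz
        rw [hF.frE, hc]
        exact mem_image_of_mem _ (mem_univ c)
      · intro n hn
        exact hm ⟨n, hn⟩
    · intro i hi
      simp only
      rw [AE_eq L.fam, hf, AG_none hF heF.inc hm, mul_zero]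

/-- the root does not meet the random labels -/
lemma AE_none (L : LayE X N x0 y0 l2 EL EU) (he : Em X l2 ct y2 n)
    (hf : ∀ a b ω, AG X (lbF N x0 y0 l2) ct a b ω = phE X ct n *
      AG X (lbF N x0 y0 l2) (gcr (lbF N x0 y0 l2) (yF N y2)) a b ω) (hm : ¬ Meets X)
    (S : Finset (Fin N)) (a2 b2 : κ → ℂ) (ω : Finset (ℤ × ℤ)) :
    AE X N x0 y0 l2 ct a2 b2 S ω = 0 := by
  have hF := famF L.fam
  have heF := he.toF (N := N) (x0 := x0) (y0 := y0)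
  rw [AE_eq L.fam, hf, AG_none hF heF.inc (fun h => hm (meetsF hF h)), mul_zero]

/-- **No visit in the window: the amplitude is zero.** -/
theorem env_zero (L : LayE X N x0 y0 l2 EL EU) (G : GBox EL EU N x0 y0 c0 w h) (hN : 0 < N)
    (he : Em X l2 ct y2 n) (a2 b2 : κ → ℂ) {S : Finset (Fin N)}
    (hS : ∀ i < w, clS N c0 hN i ∉ S) (hIO : In ⊆ Out) (hOut : ∀ e ∈ Out, BL (x0 + c0) y0 w h e)
    {i : ℕ} (hi : i < w) (hu : gl (x0 + c0) y0 h i h ∈ In) (hd : gl (x0 + c0) y0 h i (h - 1) ∈ In)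
    (hno : ∀ e, FarIn In Out ζ e → (∀ e', FarIn In Out ζ e' → e' = e) ∧
      ∃ n, lab ((nx ζ)^[n] e) ∉ Out ∧ ∀ q < n, (nx ζ)^[q] e ≠ sgc (x0 + c0) y0 h i) :
    AE X N x0 y0 l2 ct a2 b2 (insert (clS N c0 hN i) S) (ug EL EU (1, -1) ζ) = 0 := by
  have hF := famF L.fam
  rcases (he.toF (N := N) (x0 := x0) (y0 := y0)).cases hF with hu0 | hf
  · exact AE_const L.fam hu0 a2 b2 S _ _
  by_cases hm : Meets X
  · obtain ⟨ρ0, m, hR⟩ := RootP.exists hm
    have dflt : TI X := ρ0.1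
    have hM : 0 < NT N κ := by unfold NT; omega
    have V := world_env (LayE.boxF L G) hM dflt ρ0 ρ0
    refine V.win_zero (LayE.sg L G dflt ζ) hIO hOut (fun i hi => yF_cl hM G.c2 y2 hi) over_zt
      (ξ := zt ^ (2 : ℤ)) ?_ ?_
      (awF L G dflt hN hM he hf hR ρ0 ρ0 (ug EL EU (1, -1) ζ) S a2 b2) hi hu hd hno
    · rw [← zpow_natCast, ← zpow_mul]; norm_num
    · intro i hi
      exact ⟨fA_cl hN hM G.c2 _ _ hi (hS i hi), fB_cl hN hM G.c2 _ _ hi (hS i hi)⟩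
  · exact AE_none L he hf hm _ _ _ _

/-- **Two configurations which agree off the window.** -/
theorem env_two (L : LayE X N x0 y0 l2 EL EU) (G : GBox EL EU N x0 y0 c0 w h) (hN : 0 < N)
    (he : Em X l2 ct y2 n) (a2 b2 : κ → ℂ) {S : Finset (Fin N)}
    (hS : ∀ i < w, clS N c0 hN i ∉ S) (hIO : In ⊆ Out) (hOut : ∀ e ∈ Out, BL (x0 + c0) y0 w h e)
    (hag : ∀ e, e ∉ In → (e ∈ ζ ↔ e ∈ ζ')) {e : ℤ × ℤ}
    (uniq : ∀ e', FarIn In Out ζ e' → e' = e) {i i' : ℕ} (hi : i < w) (hi' : i' < w)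
    (hu : gl (x0 + c0) y0 h i h ∈ In) (hd : gl (x0 + c0) y0 h i (h - 1) ∈ In)
    (hu' : gl (x0 + c0) y0 h i' h ∈ In) (hd' : gl (x0 + c0) y0 h i' (h - 1) ∈ In)
    {q q' : ℕ} (hq : ∀ j ≤ q, lab ((nx ζ)^[j] e) ∈ Out) (eq : (nx ζ)^[q] e = sgc (x0 + c0) y0 h i)
    (hq' : ∀ j ≤ q', lab ((nx ζ')^[j] e) ∈ Out) (eq' : (nx ζ')^[q'] e = sgc (x0 + c0) y0 h i') :
    zt ^ (-2 * ∑ j ∈ range q, del ζ ((nx ζ)^[j] e)) *
        AE X N x0 y0 l2 ct a2 b2 (insert (clS N c0 hN i) S) (ug EL EU (1, -1) ζ) =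
      zt ^ (-2 * ∑ j ∈ range q', del ζ' ((nx ζ')^[j] e)) *
        AE X N x0 y0 l2 ct a2 b2 (insert (clS N c0 hN i') S) (ug EL EU (1, -1) ζ') := by
  have hF := famF L.fam
  rcases (he.toF (N := N) (x0 := x0) (y0 := y0)).cases hF with hu0 | hf
  · rw [AE_const L.fam hu0, AE_const L.fam hu0, mul_zero, mul_zero]
  by_cases hm : Meets X
  · obtain ⟨ρ0, m, hR⟩ := RootP.exists hm
    have dflt : TI X := ρ0.1
    have hM : 0 < NT N κ := by unfold NT; omega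
    have V := world_env (LayE.boxF L G) hM dflt ρ0 ρ0
    have key := V.win_two (LayE.sg L G dflt ζ) (LayE.sg L G dflt ζ')
      (LayE.ag L G dflt hag fun e he => hOut e (hIO he))
      hIO hOut (fun i hi => yF_cl hM G.c2 y2 hi) over_zt (ξ := zt ^ (2 : ℤ))
      (by rw [← zpow_natCast, ← zpow_mul]; norm_num)
      (fun i hi => ⟨fA_cl hN hM G.c2 _ a2 hi (hS i hi), fB_cl hN hM G.c2 _ b2 hi (hS i hi)⟩)
      (awF L G dflt hN hM he hf hR ρ0 ρ0 (ug EL EU (1, -1) ζ) S a2 b2)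
      (awF L G dflt hN hM he hf hR ρ0 ρ0 (ug EL EU (1, -1) ζ') S a2 b2)
      uniq hi hi' hu hd hu' hd' hq eq hq' eq'
    rw [← zpow_mul, ← zpow_mul] at key
    convert key using 3 <;> ring
  · rw [AE_none L he hf hm, AE_none L he hf hm, mul_zero, mul_zero]

end

/-! ### One window -/

section
variable {N : ℕ} {κ : Type*} [Fintype κ] [DecidableEq κ] {X : Env} {xr y0 k : ℤ} {l2 : κ → ℤ × ℤ}
  {EL EU : Finset (ℤ × ℤ)} {yc : Fin N} {ct : ℤ × ℤ} {y2 : κ × Dir} {n : ℕ}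
  {cr : ℤ → ℤ × ℤ} {cz : ℤ → ℤ} {I : Finset ℤ} {In Out ω ζ ζ' η η' : Finset (ℤ × ℤ)} {hN : 0 < N}
  {c0 w h : ℕ} {x x' : ℤ} {S : Finset (Fin N)} {c c' : Fin N}

/-- the column of `x` -/
lemma WG_at (W : WG EL EU N xr y0 k yc cr cz I In Out hN c0 w h) (hx : x ∈ I)
    (hc : ((c : Fin N) : ℤ) - k = cz x) : ∃ i < w, c = clS N c0 hN i ∧
      gl (xr + c0) y0 h i h ∈ In ∧ gl (xr + c0) y0 h i (h - 1) ∈ In ∧ cr x = sgc (xr + c0) y0 h i := by
  obtain ⟨i, hi, h1, h2, h3, h4⟩ := W.col x hx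
  refine ⟨i, hi, Fin.ext ?_, h2, h3, h4⟩
  have : ((c : ℕ) : ℤ) = ((clS N c0 hN i : Fin N) : ℤ) := by linarith
  exact_mod_cast this

/-- **(W1)** -/
theorem w_zero (L : LayE X N xr y0 l2 EL EU) (he : Em X l2 ct y2 n) (a2 b2 : κ → ℂ)
    (W : WG EL EU N xr y0 k yc cr cz I In Out hN c0 w h) (hS : ∀ i < w, clS N c0 hN i ∉ S)
    (uniq : ∀ a a', FarIn In Out ω a → FarIn In Out ω a' → a = a') (hx : x ∈ I) (hη : η ⊆ In)
    (hζ : Loc In Out ω η ζ) (hc : ((c : Fin N) : ℤ) - k = cz x) (h0 : hW cr In Out ω x η = 0) :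
    AE X N xr y0 l2 ct a2 b2 (insert c S) (ug EL EU (1, -1) ζ) = 0 := by
  obtain ⟨i, hi, rfl, hu, hd, hcr⟩ := WG_at W hx hc
  refine env_zero L W.G hN he a2 b2 hS W.io W.ob hi hu hd ?_
  intro e he
  have he' := (hζ.far hη).1 he
  have hu' : ∀ a', FarIn In Out ω a' → a' = e := fun a' h' => uniq a' e h' he'
  refine ⟨fun e' h' => uniq e' e ((hζ.far hη).1 h') he', ?_⟩
  have hex := exit_ex ((far_mod (ω := ω) (Out := Out) hη).2 he')
  obtain ⟨n, -, hn⟩ := hex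
  obtain ⟨h1, h2, -, -⟩ := pth_congr (ζ' := ζ) (c := cr x) ⟨n, hn⟩ hζ
  obtain ⟨g1, g2⟩ := xt_far ((far_mod (ω := ω) (Out := Out) hη).2 he')
  refine ⟨xt Out (ω \ In ∪ η) e, by rw [h2 _ le_rfl]; exact g1, ?_⟩
  intro q hq hh
  rw [h2 q hq.le, ← hcr] at hh
  rw [hW_hit he' hu' hη hq hh] at h0
  exact zpow_ne_zero _ zt_ne h0

/-- **(W2)** -/
theorem w_two (L : LayE X N xr y0 l2 EL EU) (he : Em X l2 ct y2 n) (a2 b2 : κ → ℂ)
    (W : WG EL EU N xr y0 k yc cr cz I In Out hN c0 w h) (hS : ∀ i < w, clS N c0 hN i ∉ S)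
    (uniq : ∀ a a', FarIn In Out ω a → FarIn In Out ω a' → a = a') (hx : x ∈ I) (hx' : x' ∈ I)
    (hη : η ⊆ In) (hη' : η' ⊆ In) (hζ : Loc In Out ω η ζ) (hζ' : Loc In Out ω η' ζ')
    (hag : ∀ e, e ∉ In → (e ∈ ζ ↔ e ∈ ζ')) (hc : ((c : Fin N) : ℤ) - k = cz x)
    (hc' : ((c' : Fin N) : ℤ) - k = cz x') :
    AE X N xr y0 l2 ct a2 b2 (insert c S) (ug EL EU (1, -1) ζ) * hW cr In Out ω x' η' =
      AE X N xr y0 l2 ct a2 b2 (insert c' S) (ug EL EU (1, -1) ζ') * hW cr In Out ω x η := by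
  by_cases z1 : hW cr In Out ω x η = 0
  · rw [w_zero L he a2 b2 W hS uniq hx hη hζ hc z1, z1, zero_mul, mul_zero]
  by_cases z2 : hW cr In Out ω x' η' = 0
  · rw [w_zero L he a2 b2 W hS uniq hx' hη' hζ' hc' z2, z2, zero_mul, mul_zero]
  have hex : ∃ a, FarIn In Out ω a := by
    by_contra hc
    exact z1 (hW_none hc)
  obtain ⟨a, hf⟩ := hex
  have hu : ∀ a', FarIn In Out ω a' → a' = a := fun a' h' => uniq a' a h' hf
  have p1 : pth Out (ω \ In ∪ η) a (cr x) ≠ 0 := by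
    intro h2
    rw [hW_eq hf hu, h2, map_zero] at z1
    exact z1 rfl
  have p2 : pth Out (ω \ In ∪ η') a (cr x') ≠ 0 := by
    intro h2
    rw [hW_eq hf hu, h2, map_zero] at z2
    exact z2 rfl
  obtain ⟨q, hq, e⟩ := pth_ne (h := p1)
  obtain ⟨q', hq', e'⟩ := pth_ne (h := p2)
  rw [hW_hit hf hu hη hq e, hW_hit hf hu hη' hq' e']
  obtain ⟨i, hi, rfl, hu1, hd1, hcr1⟩ := WG_at W hx hc
  obtain ⟨i', hi', rfl, hu2, hd2, hcr2⟩ := WG_at W hx' hc'
  have g := xt_far ((far_mod (ω := ω) (Out := Out) hη).2 hf)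
  have g' := xt_far ((far_mod (ω := ω) (Out := Out) hη').2 hf)
  obtain ⟨h1, h2, h3, -⟩ := pth_congr (ζ' := ζ) (c := cr x) ⟨_, g.1⟩ hζ
  obtain ⟨h1', h2', h3', -⟩ := pth_congr (ζ' := ζ') (c := cr x') ⟨_, g'.1⟩ hζ'
  have key := env_two L W.G hN he a2 b2 hS W.io W.ob hag (e := a)
    (fun e' h' => hu e' ((hζ.far hη).1 h')) hi hi' hu1 hd1 hu2 hd2
    (q := q) (q' := q')
    (fun j hj => by rw [h2 j (by omega)]; exact g.2 j (by omega))
    (by rw [h2 q hq.le, e, hcr1])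
    (fun j hj => by rw [h2' j (by omega)]; exact g'.2 j (by omega))
    (by rw [h2' q' hq'.le, e', hcr2])
  rw [h3 q hq.le, h3' q' hq'.le] at key
  set t := ∑ j ∈ range q, del (ω \ In ∪ η) ((nx (ω \ In ∪ η))^[j] a)
  set t' := ∑ j ∈ range q', del (ω \ In ∪ η') ((nx (ω \ In ∪ η'))^[j] a)
  have h0 := zt_ne
  have z3 : zt ^ (2 * (ty a + t')) = zt ^ (2 * (ty a + t + t')) * zt ^ (-2 * t) := by
    rw [← zpow_add₀ h0]; congr 1; ring
  have z4 : zt ^ (2 * (ty a + t)) = zt ^ (2 * (ty a + t + t')) * zt ^ (-2 * t') := by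
    rw [← zpow_add₀ h0]; congr 1; ring
  rw [z3, z4]
  linear_combination zt ^ (2 * (ty a + t + t')) * key

end

end Pool.Agent.H39.WB
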