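import Mathlib
import Pool.Agent.H69.W.WFamE
import Pool.Agent.H39.W.B.AGW

set_option autoImplicit false
open Finset

/-! # The relations of the windows from the first random label of the target

`wfam_AG` : helper69's `wfam_E` with the target condition in the form `Em`. -/

namespace Pool.Agent.H39.WB

open Pool.Agent.H75.Perc Pool.Agent.H75.TwoArm Pool.Agent.Q1 Pool.Agent.H81.G1
open Pool.Agent.H30.Mid (ug)
open Pool.Agent.H30.W
open Pool.Agent.H81.W (WFam WrZ)

variable {N : ℕ} {κ : Type*} [Fintype κ] [DecidableEq κ] {X : Env} {x0 y0 : ℤ} {l2 : κ → ℤ × ℤ}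
  {EL EU : Finset (ℤ × ℤ)} {ct : ℤ × ℤ} {y : κ × Dir} {n : ℕ}

/-- the label of the first end -/
lemma Em.lab (he : Em X l2 ct y n) (h : Fam X l2) : lab (X.out^[n] ct) = l2 y.1 := by
  rw [he.cr]
  exact lab_cr (h.tiles ∅) he.inc

/-- **The amplitudes of a row with extra tiles satisfy the relations of the windows.** -/
theorem wfam_AG (L : LayE X N x0 y0 l2 EL EU) (he : Em X l2 ct y n) (a2 b2 : κ → ℂ) (yc : Fin N) :
    WFam EL EU N x0 y0 yc
      (fun S ζ => AG X (lbE N x0 y0 l2) ct (eA S (zt ^ (4 : ℤ)) a2) (eB S (zt ^ (-4 : ℤ)) b2)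
        (ug EL EU (1, -1) ζ)) (WrZ x0 y0 EL EU) :=
  Pool.Agent.H69.W.wfam_E L (Pool.Agent.H69.W.TgE.of he.lt (he.lab L.fam.inr)
    (L.fam.inr.mem y.1)) a2 b2

end Pool.Agent.H39.WB
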